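import Pool.Agent.Lib.MP_104326_lc.KR.Defs

/-!
# KR: the average over the bits is the iterated expectation (module C1)
-/

set_option autoImplicit false

namespace Pool.Agent.Lib.MP_104326_lc.KR

open Pool.Agent.Lib.PolyTime

theorem c1_zero (F : List Bool → ℝ) : avgB 0 F = F [] := by
  simp [avgB]

theorem c1_succ (n : ℕ) (F : List Bool → ℝ) :
    avgB (n + 1) F = (avgB n (fun r => F (true :: r)) + avgB n (fun r => F (false :: r))) / 2 := by
  have h : ∑ v : Fin (n + 1) → Bool, F (List.ofFn v) =
      ∑ v : Fin n → Bool, F (true :: List.ofFn v) + ∑ v : Fin n → Bool, F (false :: List.ofFn v) := by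
    rw [← (Fin.consEquiv (fun _ : Fin (n + 1) => Bool)).sum_comp, Fintype.sum_prod_type,
      Fintype.sum_bool]
    congr 1
    · refine Finset.sum_congr rfl (fun v _ => ?_)
      simp [Fin.consEquiv, List.ofFn_succ]
    · refine Finset.sum_congr rfl (fun v _ => ?_)
      simp [Fin.consEquiv, List.ofFn_succ]
  unfold avgB
  rw [h, pow_succ, ← add_div, div_div]

theorem c1_congr {n : ℕ} {F F' : List Bool → ℝ} (h : ∀ r : List Bool, r.length = n → F r = F' r) :
    avgB n F = avgB n F' := by
  unfold avgB
  congr 1
  exact Finset.sum_congr rfl (fun v _ => h _ (by simp))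

theorem c1_append (a b : ℕ) (F : List Bool → ℝ) :
    avgB (a + b) F = avgB a (fun r => avgB b (fun s => F (r ++ s))) := by
  induction a generalizing F with
  | zero => simp [c1_zero]
  | succ a ih =>
    rw [Nat.add_right_comm, c1_succ, c1_succ, ih, ih]
    simp

theorem c1_comm (a b : ℕ) (F : List Bool → List Bool → ℝ) :
    avgB a (fun r => avgB b (fun s => F r s)) = avgB b (fun s => avgB a (fun r => F r s)) := by
  unfold avgB
  rw [← Finset.sum_div, ← Finset.sum_div, Finset.sum_comm, div_right_comm]

theorem c1_msb (n : ℕ) (f : ℕ → ℝ) :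
    avgB n (fun r => f (msb r)) = (∑ u ∈ Finset.range (2 ^ n), f u) / 2 ^ n := by
  induction n generalizing f with
  | zero => simp [c1_zero, msb_nil]
  | succ n ih =>
    rw [c1_succ]
    have h1 : avgB n (fun r => f (msb (true :: r))) = avgB n (fun r => f (2 ^ n + msb r)) :=
      c1_congr (fun r hr => by rw [msb_cons, hr]; simp)
    have h2 : avgB n (fun r => f (msb (false :: r))) = avgB n (fun r => f (msb r)) :=
      c1_congr (fun r hr => by rw [msb_cons, hr]; simp)
    rw [h1, h2, ih (fun u => f (2 ^ n + u)), ih f]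
    have h3 : 2 ^ (n + 1) = 2 ^ n + 2 ^ n := by ring
    rw [h3, Finset.sum_range_add, pow_succ, ← add_div, div_div, add_comm]

/-- Module C1: the average over all strings of bits is the iterated expectation. -/
theorem avgB_runA {α : Type} (G : ℕ → ℕ → α → α → Option α) (cell : α) (R k D B h : ℕ)
    (F : Arr α → ℝ) :
    avgB (B * (2 ^ h - 1)) (fun r => F (runA G cell R k D B h r)) = expA G cell R k D B h F := by
  induction h generalizing F with
  | zero => simp [c1_zero, runA, expA]
  | succ h ih =>
    have hn : B * (2 ^ (h + 1) - 1) = B * (2 ^ h - 1) + (B * (2 ^ h - 1) + B) := by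
      have h1 : 1 ≤ 2 ^ h := Nat.one_le_two_pow
      obtain ⟨m, hm⟩ : ∃ m, 2 ^ h = m + 1 := ⟨2 ^ h - 1, by omega⟩
      rw [pow_succ, hm]
      have h2 : (m + 1) * 2 - 1 = 2 * m + 1 := by omega
      rw [h2]
      simp
      ring
    rw [hn, c1_append]
    have h1 : avgB (B * (2 ^ h - 1)) (fun r => avgB (B * (2 ^ h - 1) + B)
        (fun s => F (runA G cell R k D B (h + 1) (r ++ s)))) =
        avgB (B * (2 ^ h - 1)) (fun r1 => avgB (B * (2 ^ h - 1)) (fun r2 => avgB B (fun r3 =>
          F (combA G cell R k D B h (msb r3) (runA G cell R k D B h r1)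
            (runA G cell R k D B h r2))))) := by
      refine c1_congr (fun r1 hr1 => ?_)
      rw [c1_append]
      refine c1_congr (fun r2 hr2 => c1_congr (fun r3 hr3 => ?_))
      rw [runA]
      have e1 : (r1 ++ (r2 ++ r3)).take (B * (2 ^ h - 1)) = r1 := by
        rw [← hr1]; simp
      have e2 : (r1 ++ (r2 ++ r3)).drop (B * (2 ^ h - 1)) = r2 ++ r3 := by
        rw [← hr1]; simp
      have e3 : (r1 ++ (r2 ++ r3)).drop (2 * (B * (2 ^ h - 1))) = r3 := by
        rw [two_mul, ← List.drop_drop, e2, ← hr2]; simp
      have e4 : (r2 ++ r3).take (B * (2 ^ h - 1)) = r2 := by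
        rw [← hr2]; simp
      rw [e3, e1, e2, e4]
    rw [h1]
    have h2 : ∀ r1 : List Bool, avgB (B * (2 ^ h - 1)) (fun r2 => avgB B (fun r3 =>
          F (combA G cell R k D B h (msb r3) (runA G cell R k D B h r1)
            (runA G cell R k D B h r2)))) = avgB B (fun r3 => expA G cell R k D B h (fun y =>
          F (combA G cell R k D B h (msb r3) (runA G cell R k D B h r1) y))) := by
      intro r1
      rw [c1_comm]
      refine c1_congr (fun r3 _ => ?_)
      exact ih (fun y => F (combA G cell R k D B h (msb r3) (runA G cell R k D B h r1) y))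
    rw [c1_congr (fun r1 _ => h2 r1), c1_comm]
    have h3 : avgB B (fun r3 => avgB (B * (2 ^ h - 1)) (fun r1 => expA G cell R k D B h (fun y =>
          F (combA G cell R k D B h (msb r3) (runA G cell R k D B h r1) y)))) =
        avgB B (fun r3 => expA G cell R k D B h (fun x => expA G cell R k D B h (fun y =>
          F (combA G cell R k D B h (msb r3) x y)))) := by
      refine c1_congr (fun r3 _ => ?_)
      exact ih (fun x => expA G cell R k D B h (fun y => F (combA G cell R k D B h (msb r3) x y)))
    rw [h3, c1_msb B (fun u => expA G cell R k D B h (fun x => expA G cell R k D B h (fun y =>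
          F (combA G cell R k D B h u x y)))), expA]

end Pool.Agent.Lib.MP_104326_lc.KR
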