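import Pool.Agent.Lib.MP_104326_lc.KR.A2
import Pool.Agent.Lib.MP_104326_lc.KC.A2

/-!
# KR, module A1: normalized lists and the number `t n` of polyominoes

`finite_polySet`: the coordinates of a polyomino of size `n` are less than `n` (`coord_lt`), and a
sorted list is determined by its set.  `card_P`: the map from the normalized sorted lists to the
classes of `n`-ominoes is bijective.
-/

set_option autoImplicit false

namespace Pool.Agent.Lib.MP_104326_lc.KR

open Pool.Agent.Lib.PolyTime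

private theorem a1_adj_le {p q : NC} (h : isAdj p q = true) :
    (p.1 ≤ q.1 + 1 ∧ q.1 ≤ p.1 + 1) ∧ (p.2 ≤ q.2 + 1 ∧ q.2 ≤ p.2 + 1) := by
  unfold isAdj at h
  simp only [Bool.or_eq_true, Bool.and_eq_true, decide_eq_true_eq] at h
  omega

/-- the values of a coordinate along a walk -/
private theorem a1_vals {L : List NC} (f : NC → ℕ)
    (hf : ∀ x y, isAdj x y = true → f x ≤ f y + 1 ∧ f y ≤ f x + 1)
    {a x : NC} (ha : a ∈ L) (h0 : f a = 0) (h : Walk L a x) : ∀ k ≤ f x, k ∈ (L.map f).toFinset := by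
  unfold Walk at h
  induction h with
  | refl =>
    intro k hk
    rw [h0] at hk
    have hk0 : k = 0 := by omega
    rw [hk0]
    exact List.mem_toFinset.2 (List.mem_map.2 ⟨a, ha, h0⟩)
  | tail hab hbc ih =>
    rename_i b c
    intro k hk
    obtain ⟨hc, hadj⟩ := hbc
    have h1 := hf _ _ hadj
    by_cases hkc : k = f c
    · exact List.mem_toFinset.2 (List.mem_map.2 ⟨c, hc, hkc.symm⟩)
    · exact ih k (by omega)

private theorem a1_lt {L : List NC} (hc : isConn L = true) (f : NC → ℕ)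
    (hf : ∀ x y, isAdj x y = true → f x ≤ f y + 1 ∧ f y ≤ f x + 1)
    {a : NC} (ha : a ∈ L) (h0 : f a = 0) : ∀ x ∈ L, f x < L.length := by
  intro x hx
  have h1 := a1_vals f hf ha h0 ((isConn_iff.1 hc).2 a ha x hx)
  have h2 : Finset.range (f x + 1) ⊆ (L.map f).toFinset := by
    intro k hk
    exact h1 k (Nat.lt_succ_iff.1 (Finset.mem_range.1 hk))
  have h3 := (Finset.card_le_card h2).trans (List.toFinset_card_le _)
  rw [Finset.card_range, List.length_map] at h3
  exact h3

private theorem a1_norm {L : List NC} (h : isNorm L = true) :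
    (∃ p ∈ L, p.1 = 0) ∧ ∃ p ∈ L, p.2 = 0 := by
  unfold isNorm at h
  rw [Bool.and_eq_true, List.any_eq_true, List.any_eq_true] at h
  obtain ⟨⟨p, hp, hp0⟩, ⟨q, hq, hq0⟩⟩ := h
  exact ⟨⟨p, hp, of_decide_eq_true hp0⟩, ⟨q, hq, of_decide_eq_true hq0⟩⟩

private theorem a1_coord {L : List NC} (h : IsPoly L) : ∀ p ∈ L, p.1 < L.length ∧ p.2 < L.length := by
  obtain ⟨_, hc, hn⟩ := h
  obtain ⟨⟨p, hp, hp0⟩, ⟨q, hq, hq0⟩⟩ := a1_norm hn
  intro x hx
  exact ⟨a1_lt hc Prod.fst (fun a b hab => (a1_adj_le hab).1) hp hp0 x hx,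
    a1_lt hc Prod.snd (fun a b hab => (a1_adj_le hab).2) hq hq0 x hx⟩

private theorem a1_asymm {p q : NC} (h : ltc p q) (h' : ltc q p) : False := by
  unfold ltc at h h'
  omega

private theorem a1_irrefl (p : NC) : ¬ ltc p p := fun h => a1_asymm h h

private theorem a1_nodup {L : List NC} (h : L.Pairwise ltc) : L.Nodup :=
  h.imp (fun {a b} hab => by
    intro he
    rw [he] at hab
    exact a1_irrefl b hab)

/-- a sorted list is determined by its set -/
private theorem a1_eq {L L' : List NC} (h : L.Pairwise ltc) (h' : L'.Pairwise ltc)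
    (he : L.toFinset = L'.toFinset) : L = L' :=
  List.Perm.eq_of_pairwise (fun _ _ _ _ h1 h2 => (a1_asymm h1 h2).elim) h h'
    (List.perm_of_nodup_nodup_toFinset_eq (a1_nodup h) (a1_nodup h') he)

theorem finite_polySet (n : ℕ) : (polySet n).Finite := by
  classical
  refine Set.Finite.of_injOn (f := List.toFinset)
    (t := (↑((Finset.range n ×ˢ Finset.range n).powerset) : Set (Finset NC))) ?_ ?_
    (Finset.finite_toSet _)
  · rintro L ⟨hL, hn⟩
    rw [Finset.mem_coe, Finset.mem_powerset]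
    intro p hp
    have h1 := a1_coord hL p (List.mem_toFinset.1 hp)
    rw [hn] at h1
    exact Finset.mem_product.2 ⟨Finset.mem_range.2 h1.1, Finset.mem_range.2 h1.2⟩
  · rintro L ⟨hL, _⟩ L' ⟨hL', _⟩ he
    exact a1_eq hL.1 hL'.1 he

/-- The polyominoes with `n` cells. -/
noncomputable def P (n : ℕ) : Finset (List NC) := (finite_polySet n).toFinset

theorem mem_P {n : ℕ} {L : List NC} : L ∈ P n ↔ IsPoly L ∧ L.length = n := by
  unfold P; rw [Set.Finite.mem_toFinset]; rfl

theorem coord_lt {n : ℕ} {L : List NC} (h : L ∈ P n) : ∀ p ∈ L, p.1 < n ∧ p.2 < n := by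
  obtain ⟨h1, h2⟩ := mem_P.1 h
  rw [← h2]
  exact a1_coord h1

theorem P_one : P 1 = {[(0, 0)]} := by
  ext L
  rw [Finset.mem_singleton]
  constructor
  · intro h
    have h1 := coord_lt h
    obtain ⟨_, h2⟩ := mem_P.1 h
    obtain ⟨p, rfl⟩ := List.length_eq_one_iff.1 h2
    have h3 := h1 p (List.mem_singleton.2 rfl)
    have h4 : p = (0, 0) := Prod.ext (by simp only; omega) (by simp only; omega)
    rw [h4]
  · rintro rfl
    refine mem_P.2 ⟨⟨List.pairwise_singleton _ _, ?_, ?_⟩, rfl⟩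
    · decide
    · decide

/-! ### the number of polyominoes -/

/-- the embedding of the cells -/
private def a1_i (p : NC) : ℤ × ℤ := ((p.1 : ℤ), (p.2 : ℤ))

private theorem a1_i_inj : Function.Injective a1_i := by
  intro p q h
  have h1 : (p.1 : ℤ) = q.1 := congrArg Prod.fst h
  have h2 : (p.2 : ℤ) = q.2 := congrArg Prod.snd h
  exact Prod.ext (by exact_mod_cast h1) (by exact_mod_cast h2)

private theorem a1_adj {p q : NC} : isAdj p q = true ↔ Adj (a1_i p) (a1_i q) := by
  obtain ⟨a, b⟩ := p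
  obtain ⟨c, d⟩ := q
  unfold isAdj a1_i
  simp only [Bool.or_eq_true, Bool.and_eq_true, decide_eq_true_eq, Adj, Int.abs_eq_natAbs]
  omega

/-- the set of cells -/
private noncomputable def a1_s (L : List NC) : Finset (ℤ × ℤ) := L.toFinset.image a1_i

private theorem a1_mem_s {L : List NC} {p : NC} : a1_i p ∈ a1_s L ↔ p ∈ L := by
  unfold a1_s
  rw [Finset.mem_image]
  constructor
  · rintro ⟨q, hq, hqp⟩
    rw [← a1_i_inj hqp]
    exact List.mem_toFinset.1 hq
  · intro h
    exact ⟨p, List.mem_toFinset.2 h, rfl⟩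

private theorem a1_conn {L : List NC} (h : isConn L = true) : Conn (a1_s L) := by
  intro a ha b hb
  unfold a1_s at ha hb
  obtain ⟨p, hp, rfl⟩ := Finset.mem_image.1 ha
  obtain ⟨q, hq, rfl⟩ := Finset.mem_image.1 hb
  have h1 := (isConn_iff.1 h).2 p (List.mem_toFinset.1 hp) q (List.mem_toFinset.1 hq)
  unfold Walk at h1
  exact h1.lift a1_i fun x y hxy => ⟨a1_mem_s.2 hxy.1, a1_adj.1 hxy.2⟩

private theorem a1_card {L : List NC} (h : L.Pairwise ltc) : (a1_s L).card = L.length := by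
  unfold a1_s
  rw [Finset.card_image_of_injective _ a1_i_inj, List.toFinset_card_of_nodup (a1_nodup h)]

private theorem a1_conn_list {L : List NC} (h0 : L ≠ []) (h : Conn (a1_s L)) : isConn L = true := by
  refine isConn_iff.2 ⟨h0, fun p hp q hq => ?_⟩
  have h1 := h _ (a1_mem_s.2 hp) _ (a1_mem_s.2 hq)
  have h2 : ∀ x, Relation.ReflTransGen (fun x y => y ∈ a1_s L ∧ Adj x y) (a1_i p) x →
      ∃ y, x = a1_i y ∧ Walk L p y := by
    intro x hx
    induction hx with
    | refl => exact ⟨p, rfl, Relation.ReflTransGen.refl⟩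
    | tail _ hbc ih =>
      rename_i b c
      obtain ⟨y, hy, hw⟩ := ih
      obtain ⟨hc, hadj⟩ := hbc
      unfold a1_s at hc
      obtain ⟨z, hz, rfl⟩ := Finset.mem_image.1 hc
      rw [hy] at hadj
      exact ⟨z, rfl, Relation.ReflTransGen.tail hw ⟨List.mem_toFinset.1 hz, a1_adj.2 hadj⟩⟩
  obtain ⟨y, hy, hw⟩ := h2 _ h1
  rw [a1_i_inj hy]
  exact hw

private theorem a1_equiv (n : ℕ) : Equivalence (Translate (n := n)) where
  refl P := ⟨0, (shift_zero P.1).symm⟩
  symm := by
    rintro P Q ⟨v, hv⟩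
    refine ⟨-v, ?_⟩
    rw [hv, shift_shift, add_neg_cancel, shift_zero]
  trans := by
    rintro P Q R ⟨v, hv⟩ ⟨w, hw⟩
    refine ⟨v + w, ?_⟩
    rw [hw, hv, shift_shift]

/-- two normalized lists which are translates of each other agree -/
private theorem a1_unique {L L' : List NC} (h : isNorm L = true) (h' : isNorm L' = true) {v : ℤ × ℤ}
    (he : a1_s L' = (a1_s L).image (· + v)) : v = 0 := by
  obtain ⟨⟨p, hp, hp0⟩, ⟨q, hq, hq0⟩⟩ := a1_norm h
  obtain ⟨⟨p', hp', hp0'⟩, ⟨q', hq', hq0'⟩⟩ := a1_norm h'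
  have h1 : ∀ x ∈ L, ∃ y ∈ L', a1_i y = a1_i x + v := by
    intro x hx
    have : a1_i x + v ∈ a1_s L' := by
      rw [he]
      exact Finset.mem_image_of_mem _ (a1_mem_s.2 hx)
    unfold a1_s at this
    obtain ⟨y, hy, hyx⟩ := Finset.mem_image.1 this
    exact ⟨y, List.mem_toFinset.1 hy, hyx⟩
  have h2 : ∀ y ∈ L', ∃ x ∈ L, a1_i y = a1_i x + v := by
    intro y hy
    have := a1_mem_s.2 hy
    rw [he] at this
    obtain ⟨x, hx, hxy⟩ := Finset.mem_image.1 this
    unfold a1_s at hx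
    obtain ⟨z, hz, rfl⟩ := Finset.mem_image.1 hx
    exact ⟨z, List.mem_toFinset.1 hz, hxy.symm⟩
  obtain ⟨y1, _, hy1⟩ := h1 p hp
  obtain ⟨y2, _, hy2⟩ := h1 q hq
  obtain ⟨x1, _, hx1⟩ := h2 p' hp'
  obtain ⟨x2, _, hx2⟩ := h2 q' hq'
  have e1 := congrArg Prod.fst hy1
  have e2 := congrArg Prod.snd hy2
  have e3 := congrArg Prod.fst hx1
  have e4 := congrArg Prod.snd hx2
  unfold a1_i at e1 e2 e3 e4
  simp only [Prod.fst_add, Prod.snd_add] at e1 e2 e3 e4
  ext
  · simp only [Prod.fst_zero]; omega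
  · simp only [Prod.snd_zero]; omega

/-- the lexicographic order, reflexive form -/
private def a1_le (p q : NC) : Prop := p.1 < q.1 ∨ (p.1 = q.1 ∧ p.2 ≤ q.2)

private instance : DecidableRel a1_le := fun _ _ => inferInstanceAs (Decidable (_ ∨ _))

private instance : IsTrans NC a1_le := ⟨fun p q r h1 h2 => by unfold a1_le at *; omega⟩

private instance : Std.Antisymm a1_le := ⟨fun p q h1 h2 => by
  unfold a1_le at *
  exact Prod.ext (by omega) (by omega)⟩

private instance : Std.Total a1_le := ⟨fun p q => by unfold a1_le; omega⟩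

/-- every set is the set of a sorted list -/
private theorem a1_sorted (S : Finset NC) : ∃ L : List NC, L.Pairwise ltc ∧ L.toFinset = S := by
  refine ⟨S.sort a1_le, ?_, Finset.sort_toFinset _ _⟩
  have h1 := Finset.pairwise_sort S a1_le
  have h2 := Finset.sort_nodup S a1_le
  refine (h1.and h2).imp ?_
  rintro ⟨a, b⟩ ⟨c, d⟩ ⟨h3, h4⟩
  unfold a1_le at h3
  unfold ltc
  by_contra h5
  apply h4
  simp only at h3 h5
  exact Prod.ext (by simp only; omega) (by simp only; omega)

/-- every class contains a normalized list -/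
private theorem a1_surj {n : ℕ} (hn : 1 ≤ n) (Q : Omino n) :
    ∃ L : List NC, IsPoly L ∧ L.length = n ∧ ∃ v : ℤ × ℤ, Q.1 = (a1_s L).image (· + v) := by
  classical
  have hne : Q.1.Nonempty := by
    rw [← Finset.card_pos, Q.2.1]
    omega
  obtain ⟨x0, hx0, hx⟩ := Finset.exists_min_image Q.1 Prod.fst hne
  obtain ⟨y0, hy0, hy⟩ := Finset.exists_min_image Q.1 Prod.snd hne
  obtain ⟨L, hL, hLS⟩ := a1_sorted
    (Q.1.image fun x => (((x.1 - x0.1).toNat, (x.2 - y0.2).toNat) : NC))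
  have hs : a1_s L = Q.1.image (· + (-x0.1, -y0.2)) := by
    unfold a1_s
    rw [hLS, Finset.image_image]
    refine Finset.image_congr fun x hxQ => ?_
    have h1 := hx x hxQ
    have h2 := hy x hxQ
    unfold a1_i
    refine Prod.ext ?_ ?_
    · simp only [Function.comp_apply, Prod.fst_add]
      omega
    · simp only [Function.comp_apply, Prod.snd_add]
      omega
  have hlen : L.length = n := by
    rw [← a1_card hL, hs, card_shift, Q.2.1]
  have hne' : L ≠ [] := by
    intro h0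
    rw [h0] at hlen
    simp only [List.length_nil] at hlen
    omega
  refine ⟨L, ⟨hL, a1_conn_list hne' ?_, ?_⟩, hlen, (x0.1, y0.2), ?_⟩
  · rw [hs]
    exact conn_shift _ Q.2.2
  · unfold isNorm
    rw [Bool.and_eq_true, List.any_eq_true, List.any_eq_true]
    refine ⟨⟨((x0.1 - x0.1).toNat, (x0.2 - y0.2).toNat), ?_, ?_⟩,
      ⟨((y0.1 - x0.1).toNat, (y0.2 - y0.2).toNat), ?_, ?_⟩⟩
    · rw [← List.mem_toFinset, hLS]
      exact Finset.mem_image_of_mem (fun x : ℤ × ℤ => (((x.1 - x0.1).toNat, (x.2 - y0.2).toNat) : NC)) hx0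
    · simp
    · rw [← List.mem_toFinset, hLS]
      exact Finset.mem_image_of_mem (fun x : ℤ × ℤ => (((x.1 - x0.1).toNat, (x.2 - y0.2).toNat) : NC)) hy0
    · simp
  · rw [hs, shift_shift]
    have h0 : ((-x0.1, -y0.2) : ℤ × ℤ) + (x0.1, y0.2) = 0 := by
      ext <;> simp
    rw [h0, shift_zero]

theorem card_P {n : ℕ} (hn : 1 ≤ n) : (P n).card = t n := by
  classical
  unfold t
  rw [← Fintype.card_coe, ← Nat.card_eq_fintype_card]
  refine Nat.card_eq_of_bijective
    (fun L : {L // L ∈ P n} => Quot.mk (Translate (n := n))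
      ⟨a1_s L.1, by rw [a1_card (mem_P.1 L.2).1.1, (mem_P.1 L.2).2], a1_conn (mem_P.1 L.2).1.2.1⟩) ⟨?_, ?_⟩
  · intro L L' h
    obtain ⟨v, hv⟩ := ((a1_equiv n).quot_mk_eq_iff _ _).1 h
    simp only at hv
    have hv0 := a1_unique (mem_P.1 L.2).1.2.2 (mem_P.1 L'.2).1.2.2 hv
    rw [hv0, shift_zero] at hv
    unfold a1_s at hv
    exact Subtype.ext (a1_eq (mem_P.1 L.2).1.1 (mem_P.1 L'.2).1.1
      (Finset.image_injective a1_i_inj hv.symm))
  · intro q
    induction q using Quot.ind with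
    | mk Q =>
      obtain ⟨L, hL, hn', v, hv⟩ := a1_surj hn Q
      exact ⟨⟨L, mem_P.2 ⟨hL, hn'⟩⟩, Quot.sound ⟨v, hv⟩⟩

end Pool.Agent.Lib.MP_104326_lc.KR
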