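import Pool.Agent.Lib.MP_104326_lc.KR.Defs

/-!
# KR, module A2: components of lists of cells and the balanced split
-/

set_option autoImplicit false

namespace Pool.Agent.Lib.MP_104326_lc.KR

/-- One can walk in `L` from `p` to `q`. -/
def Walk (L : List NC) : NC → NC → Prop := Relation.ReflTransGen (fun a b => b ∈ L ∧ isAdj a b = true)

theorem isAdj_iff {p q : NC} : isAdj p q = true ↔
    (p.1 = q.1 ∧ (p.2 = q.2 + 1 ∨ q.2 = p.2 + 1)) ∨
    (p.2 = q.2 ∧ (p.1 = q.1 + 1 ∨ q.1 = p.1 + 1)) := by
  simp [isAdj]

theorem isAdj_symm {p q : NC} (h : isAdj p q = true) : isAdj q p = true := by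
  rw [isAdj_iff] at h ⊢
  omega

theorem isAdj_self {p : NC} : ¬ isAdj p p = true := by
  rw [isAdj_iff]
  omega

theorem Walk.refl (L : List NC) (p : NC) : Walk L p p := Relation.ReflTransGen.refl

theorem Walk.trans {L : List NC} {p q r : NC} (h : Walk L p q) (h' : Walk L q r) : Walk L p r :=
  Relation.ReflTransGen.trans h h'

theorem Walk.step {L : List NC} {p q : NC} (h : q ∈ L) (h' : isAdj p q = true) : Walk L p q :=
  Relation.ReflTransGen.single ⟨h, h'⟩

theorem Walk.mono {L M : List NC} (h : ∀ x ∈ L, x ∈ M) {p q : NC} (hw : Walk L p q) :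
    Walk M p q :=
  Relation.ReflTransGen.mono (fun _ _ hab => ⟨h _ hab.1, hab.2⟩) _ _ hw

theorem Walk.mem {L : List NC} {p q : NC} (hp : p ∈ L) (h : Walk L p q) : q ∈ L := by
  induction h with
  | refl => exact hp
  | tail _ h _ => exact h.1

theorem Walk.symm {L : List NC} {p q : NC} (hp : p ∈ L) (h : Walk L p q) : Walk L q p := by
  induction h with
  | refl => exact Walk.refl L p
  | tail h1 h2 ih => exact (Walk.step (Walk.mem hp h1) (isAdj_symm h2.2)).trans ih

/-! ### Components -/

theorem mem_grow {L X : List NC} {p : NC} :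
    p ∈ grow L X ↔ p ∈ L ∧ ∃ q ∈ X, p = q ∨ isAdj p q = true := by
  simp [grow]

/-- `X` is a part of `L` given by a condition. -/
def Fil (L X : List NC) : Prop := X = L.filter (fun p => decide (p ∈ X))

theorem fil_filter (L : List NC) (f : NC → Bool) : Fil L (L.filter f) := by
  unfold Fil
  refine List.filter_congr fun x hx => ?_
  rw [Bool.eq_iff_iff]
  simp [hx]

theorem fil_grow (L X : List NC) : Fil L (grow L X) := fil_filter _ _

theorem Fil.sub {L X : List NC} (h : Fil L X) : X.Sublist L := by
  rw [h]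
  exact List.filter_sublist

theorem Fil.mem {L X : List NC} (h : Fil L X) {p : NC} (hp : p ∈ X) : p ∈ L := h.sub.subset hp

theorem Fil.ext {L X Y : List NC} (hX : Fil L X) (hY : Fil L Y) (h : ∀ p ∈ L, p ∈ X ↔ p ∈ Y) :
    X = Y := by
  rw [hX, hY]
  refine List.filter_congr fun x hx => ?_
  rw [Bool.eq_iff_iff]
  simp [h x hx]

theorem Fil.sublist_of {L X Y : List NC} (hX : Fil L X) (hY : Fil L Y)
    (h : ∀ p ∈ X, p ∈ Y) : X.Sublist Y := by
  rw [hX, hY]
  refine List.monotone_filter_right L fun x hx => ?_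
  simp only [decide_eq_true_eq] at hx ⊢
  exact h x hx

theorem Fil.grow_le {L X : List NC} (hX : Fil L X) : X.Sublist (grow L X) :=
  hX.sublist_of (fil_grow L X) fun p hp => mem_grow.2 ⟨hX.mem hp, p, hp, Or.inl rfl⟩

/-- The stages of the computation of a component. -/
def stg (L : List NC) (c : NC) (i : ℕ) : List NC := (grow L)^[i] (L.filter (fun p => decide (p = c)))

theorem stg_succ (L : List NC) (c : NC) (i : ℕ) : stg L c (i + 1) = grow L (stg L c i) := by
  unfold stg
  rw [Function.iterate_succ_apply']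

theorem fil_stg (L : List NC) (c : NC) (i : ℕ) : Fil L (stg L c i) := by
  cases i with
  | zero => exact fil_filter _ _
  | succ i => rw [stg_succ]; exact fil_grow _ _

theorem stg_len {L : List NC} {c : NC} (hc : c ∈ L) (i : ℕ) :
    grow L (stg L c i) = stg L c i ∨ i + 1 ≤ (stg L c i).length := by
  induction i with
  | zero =>
    right
    have : c ∈ stg L c 0 := by
      simp [stg, hc]
    have := List.length_pos_of_mem this
    omega
  | succ i ih =>
    rcases ih with ih | ih
    · left
      rw [stg_succ, ih, ih]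
    · by_cases h : grow L (stg L c (i + 1)) = stg L c (i + 1)
      · exact Or.inl h
      · right
        have h1 := (fil_stg L c i).grow_le
        rw [← stg_succ] at h1
        rcases Nat.lt_or_ge (stg L c i).length (stg L c (i + 1)).length with h2 | h2
        · omega
        · have h3 := h1.eq_of_length_le h2
          exfalso
          apply h
          calc grow L (stg L c (i + 1)) = grow L (stg L c i) := by rw [← h3]
            _ = stg L c (i + 1) := (stg_succ L c i).symm

theorem comp_eq_stg (L : List NC) (c : NC) : comp L c = stg L c L.length := rfl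

theorem fil_comp (L : List NC) (c : NC) : Fil L (comp L c) := fil_stg L c _

theorem grow_comp {L : List NC} {c : NC} (hc : c ∈ L) : grow L (comp L c) = comp L c := by
  rw [comp_eq_stg]
  rcases stg_len hc L.length with h | h
  · exact h
  · have := (fil_stg L c L.length).sub.length_le
    omega

theorem self_mem_stg {L : List NC} {c : NC} (hc : c ∈ L) (i : ℕ) : c ∈ stg L c i := by
  induction i with
  | zero => simp [stg, hc]
  | succ i ih =>
    rw [stg_succ]
    exact (fil_stg L c i).grow_le.subset ih

theorem walk_of_stg {L : List NC} {c : NC} (i : ℕ) {p : NC} (h : p ∈ stg L c i) : Walk L c p := by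
  induction i generalizing p with
  | zero =>
    have : p = c := by
      simp only [stg, Function.iterate_zero, id_eq, List.mem_filter, decide_eq_true_eq] at h
      exact h.2
    rw [this]
    exact Walk.refl L c
  | succ i ih =>
    rw [stg_succ, mem_grow] at h
    obtain ⟨hp, q, hq, hpq | hpq⟩ := h
    · rw [hpq]
      exact ih hq
    · exact (ih hq).trans (Walk.step hp (isAdj_symm hpq))

theorem mem_comp {L : List NC} {c p : NC} (hc : c ∈ L) : p ∈ comp L c ↔ p ∈ L ∧ Walk L c p := by
  constructor
  · intro h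
    exact ⟨(fil_comp L c).mem h, walk_of_stg _ h⟩
  · rintro ⟨-, h⟩
    induction h with
    | refl => exact self_mem_stg hc _
    | tail _ h2 ih =>
      rw [← grow_comp hc]
      exact mem_grow.2 ⟨h2.1, _, ih, Or.inr (isAdj_symm h2.2)⟩

theorem isConn_iff {L : List NC} : isConn L = true ↔ L ≠ [] ∧ ∀ p ∈ L, ∀ q ∈ L, Walk L p q := by
  unfold isConn
  simp only [Bool.and_eq_true, Bool.not_eq_true', List.isEmpty_eq_false_iff, List.all_eq_true,
    decide_eq_true_eq]
  refine and_congr Iff.rfl ?_
  constructor
  · intro h p hp q hq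
    rw [← h p hp] at hq
    exact ((mem_comp hp).1 hq).2
  · intro h p hp
    have hL : Fil L L := by
      have := fil_filter L (fun _ => true)
      simpa using this
    exact (fil_comp L p).ext hL fun q hq => by
      rw [mem_comp hp]
      exact ⟨fun h => h.1, fun _ => ⟨hq, h p hp q hq⟩⟩

/-! ### The largest component -/

theorem comp_conn {L : List NC} {c : NC} (hc : c ∈ L) :
    ∀ p ∈ comp L c, ∀ q ∈ comp L c, Walk (comp L c) p q := by
  have key : ∀ p, Walk L c p → Walk (comp L c) c p := by
    intro p hp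
    induction hp with
    | refl => exact Walk.refl _ _
    | tail h1 h2 ih =>
      exact ih.trans (Walk.step ((mem_comp hc).2 ⟨h2.1, h1.tail h2⟩) h2.2)
  have hcc : c ∈ comp L c := (mem_comp hc).2 ⟨hc, Walk.refl _ _⟩
  intro p hp q hq
  exact (Walk.symm hcc (key p ((mem_comp hc).1 hp).2)).trans (key q ((mem_comp hc).1 hq).2)

theorem largest_aux (L : List NC) : ∀ (M : List NC) (b0 : List NC),
    (∃ c ∈ L, b0 = comp L c) ∨ b0 = [] → (∀ c ∈ M, c ∈ L) → (b0 = [] → M ≠ []) →
    let r := M.foldl (fun best c => if best.length < (comp L c).length then comp L c else best) b0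
    (∃ c ∈ L, r = comp L c) ∧ b0.length ≤ r.length ∧ ∀ c ∈ M, (comp L c).length ≤ r.length := by
  intro M
  induction M with
  | nil =>
    intro b0 h1 h2 h3
    refine ⟨?_, le_rfl, by simp⟩
    rcases h1 with h1 | h1
    · exact h1
    · exact absurd rfl (h3 h1)
  | cons a M ih =>
    intro b0 h1 h2 h3
    simp only [List.foldl_cons]
    have ha : a ∈ L := h2 a (by simp)
    have hlen : 0 < (comp L a).length :=
      List.length_pos_of_mem ((mem_comp ha).2 ⟨ha, Walk.refl _ _⟩)
    by_cases hb : b0.length < (comp L a).length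
    · rw [if_pos hb]
      obtain ⟨i1, i2, i3⟩ := ih (comp L a) (Or.inl ⟨a, ha, rfl⟩)
        (fun c hc => h2 c (by simp [hc])) (fun h => by rw [h] at hlen; simp at hlen)
      refine ⟨i1, by omega, ?_⟩
      intro c hc
      rcases List.mem_cons.1 hc with rfl | hc
      · exact i2
      · exact i3 c hc
    · rw [if_neg hb]
      have hb0 : b0 ≠ [] := by
        rintro rfl
        simp at hb
        rw [hb] at hlen
        simp at hlen
      obtain ⟨i1, i2, i3⟩ := ih b0 h1 (fun c hc => h2 c (by simp [hc])) (fun h => absurd h hb0)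
      refine ⟨i1, i2, ?_⟩
      intro c hc
      rcases List.mem_cons.1 hc with rfl | hc
      · omega
      · exact i3 c hc

theorem largest_spec {L : List NC} (hL : L ≠ []) :
    (∃ c ∈ L, largest L = comp L c) ∧ ∀ c ∈ L, (comp L c).length ≤ (largest L).length := by
  have := largest_aux L L [] (Or.inr rfl) (fun _ h => h) (fun _ => hL)
  exact ⟨this.1, this.2.2⟩

/-! ### Removing a cell -/

/-- The part of `B` without `b`. -/
def rem (B : List NC) (b : NC) : List NC := B.filter (fun p => !decide (p = b))

theorem mem_rem {B : List NC} {b p : NC} : p ∈ rem B b ↔ p ∈ B ∧ p ≠ b := by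
  simp [rem]

theorem mem_diff {Z B : List NC} {p : NC} : p ∈ diff Z B ↔ p ∈ Z ∧ p ∉ B := by
  unfold diff
  rw [List.mem_filter]
  refine and_congr Iff.rfl ?_
  rw [Bool.not_eq_true', ← Bool.not_eq_true, List.any_eq_true]
  constructor
  · intro h hp
    exact h ⟨p, hp, by simp⟩
  · rintro h ⟨q, hq, hpq⟩
    rw [decide_eq_true_eq] at hpq
    exact h (hpq ▸ hq)

theorem exists_nbr {B : List NC} {b : NC} {p : NC} (h : Walk B b p) (hp : p ≠ b) :
    ∃ a ∈ rem B b, isAdj b a = true ∧ Walk (rem B b) a p := by
  induction h with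
  | refl => exact absurd rfl hp
  | @tail x y h1 h2 ih =>
    by_cases hx : x = b
    · subst hx
      exact ⟨y, mem_rem.2 ⟨h2.1, hp⟩, h2.2, Walk.refl _ _⟩
    · obtain ⟨a, ha, hab, hw⟩ := ih hx
      exact ⟨a, ha, hab, hw.trans (Walk.step (mem_rem.2 ⟨h2.1, hp⟩) h2.2)⟩

/-- The four neighbours of a cell (and possibly the cell itself). -/
def nbs (b : NC) : Finset NC := {(b.1 + 1, b.2), (b.1 - 1, b.2), (b.1, b.2 + 1), (b.1, b.2 - 1)}

theorem mem_nbs {a b : NC} (h : isAdj b a = true) : a ∈ nbs b := by
  obtain ⟨a1, a2⟩ := a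
  obtain ⟨b1, b2⟩ := b
  rw [isAdj_iff] at h
  simp only [nbs, Finset.mem_insert, Finset.mem_singleton, Prod.mk.injEq]
  simp only at h
  omega

theorem card_nbs (b : NC) : (nbs b).card ≤ 4 := by
  unfold nbs
  exact (Finset.card_insert_le _ _).trans (Nat.add_le_add_right
    ((Finset.card_insert_le _ _).trans (Nat.add_le_add_right
      ((Finset.card_insert_le _ _).trans (by simp)) 1)) 1)

/-- Few neighbours, few components. -/
theorem length_rem_le {B : List NC} (hnd : B.Nodup) {b : NC} (hb : b ∈ B)
    (hc : ∀ p ∈ B, ∀ q ∈ B, Walk B p q) (N : Finset NC)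
    (hN : ∀ a ∈ rem B b, isAdj b a = true → a ∈ N) (hne : rem B b ≠ []) :
    (rem B b).length ≤ N.card * (largest (rem B b)).length := by
  have hnd' : (rem B b).Nodup := hnd.filter _
  have h1 : (rem B b).toFinset ⊆
      (N.filter (fun a => a ∈ rem B b)).biUnion (fun a => (comp (rem B b) a).toFinset) := by
    intro p hp
    rw [List.mem_toFinset] at hp
    obtain ⟨a, ha, hab, hw⟩ := exists_nbr (hc b hb p (mem_rem.1 hp).1) (mem_rem.1 hp).2
    rw [Finset.mem_biUnion]
    refine ⟨a, Finset.mem_filter.2 ⟨hN a ha hab, ha⟩, ?_⟩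
    rw [List.mem_toFinset]
    exact (mem_comp ha).2 ⟨hp, hw⟩
  have h2 := Finset.card_le_card h1
  rw [List.toFinset_card_of_nodup hnd'] at h2
  refine h2.trans ?_
  refine (Finset.card_biUnion_le_card_mul _ _ (largest (rem B b)).length ?_).trans ?_
  · intro a ha
    rw [Finset.mem_filter] at ha
    exact (List.toFinset_card_le _).trans ((largest_spec hne).2 a ha.2)
  · exact Nat.mul_le_mul_right _ (Finset.card_filter_le _ _)

theorem diff_self (Z : List NC) : diff Z Z = [] := by
  rw [List.eq_nil_iff_forall_not_mem]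
  intro p hp
  rw [mem_diff] at hp
  exact hp.2 hp.1

theorem diff_sub (Z B : List NC) : (diff Z B).Sublist Z := List.filter_sublist

theorem diff_length {Z B : List NC} (hZ : Z.Nodup) (hB : B.Sublist Z) :
    (diff Z B).length + B.length = Z.length := by
  have hBn : B.Nodup := hB.nodup hZ
  have h1 : (diff Z B).toFinset = Z.toFinset \ B.toFinset := by
    ext p
    simp only [List.mem_toFinset, mem_diff, Finset.mem_sdiff]
  have h2 : (diff Z B).Nodup := (diff_sub Z B).nodup hZ
  have h3 : B.toFinset ⊆ Z.toFinset := fun p hp => by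
    rw [List.mem_toFinset] at hp ⊢
    exact hB.subset hp
  have h4 := Finset.card_sdiff_add_card_eq_card h3
  rw [← h1, List.toFinset_card_of_nodup h2, List.toFinset_card_of_nodup hBn,
    List.toFinset_card_of_nodup hZ] at h4
  exact h4

theorem diff_length_fil {Z B : List NC} (hZ : Z.Nodup) (hB : B.Sublist Z) (b : NC) (hb : b ∈ B) :
    (rem B b).length + 1 = B.length := by
  have hBn : B.Nodup := hB.nodup hZ
  have h1 : (rem B b).toFinset = B.toFinset.erase b := by
    ext p
    simp only [List.mem_toFinset, mem_rem, Finset.mem_erase]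
    exact and_comm
  have h2 : (rem B b).Nodup := hBn.filter _
  have h3 := Finset.card_erase_add_one (List.mem_toFinset.2 hb)
  rw [← h1, List.toFinset_card_of_nodup h2, List.toFinset_card_of_nodup hBn] at h3
  exact h3

/-- The loop invariant. -/
structure Inv (Z B : List NC) : Prop where
  sub : B.Sublist Z
  conn : ∀ p ∈ B, ∀ q ∈ B, Walk B p q
  dconn : ∀ p ∈ diff Z B, ∀ q ∈ diff Z B, Walk (diff Z B) p q
  big : Z.length ≤ 4 * B.length + 1

/-- The effect of removing the cell `b`. -/
theorem inv_step {Z B : List NC} (hZ : Z.Nodup) (hI : Inv Z B) {b : NC} (hb : b ∈ B)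
    (hz : B ≠ Z → ∃ z ∈ diff Z B, isAdj b z = true)
    (h2 : 2 ≤ Z.length) (hns : ¬ Z.length ≤ 4 * (diff Z B).length + 1) :
    Inv Z (largest (rem B b)) ∧ (largest (rem B b)).length < B.length := by
  have hlen := diff_length hZ hI.sub
  have hrem := diff_length_fil hZ hI.sub b hb
  have hBn : B.Nodup := hI.sub.nodup hZ
  have hne : rem B b ≠ [] := by
    intro h
    rw [h] at hrem
    simp only [List.length_nil] at hrem
    omega
  obtain ⟨⟨c, hc, hl⟩, hmax⟩ := largest_spec hne
  have hcs : (comp (rem B b) c).Sublist (rem B b) := (fil_comp _ _).sub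
  have hrs : (rem B b).Sublist B := List.filter_sublist
  have hlt : (largest (rem B b)).length < B.length := by
    have := hcs.length_le
    rw [← hl] at this
    omega
  refine ⟨⟨?_, ?_, ?_, ?_⟩, hlt⟩
  · rw [hl]
    exact (hcs.trans hrs).trans hI.sub
  · rw [hl]
    exact comp_conn hc
  · rw [hl]
    have hbZ : b ∈ Z := hI.sub.subset hb
    have hbD : b ∈ diff Z (comp (rem B b) c) := by
      rw [mem_diff]
      refine ⟨hbZ, fun h => ?_⟩
      exact (mem_rem.1 (hcs.subset h)).2 rfl
    have key : ∀ p ∈ diff Z (comp (rem B b) c), Walk (diff Z (comp (rem B b) c)) b p := by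
      intro p hp
      by_cases hpB : p ∈ B
      · by_cases hpb : p = b
        · rw [hpb]
          exact Walk.refl _ _
        · obtain ⟨a, ha, hab, hw⟩ := exists_nbr (hI.conn b hb p hpB) hpb
          have hpc : p ∉ comp (rem B b) c := (mem_diff.1 hp).2
          have key2 : ∀ y, Walk (rem B b) a y → y ∉ comp (rem B b) c →
              a ∉ comp (rem B b) c ∧ Walk (diff Z (comp (rem B b) c)) a y := by
            intro y hy
            induction hy with
            | refl => exact fun h => ⟨h, Walk.refl _ _⟩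
            | @tail x y h1 h2 ih =>
              intro hyc
              have hxr : x ∈ rem B b := Walk.mem ha h1
              have hxc : x ∉ comp (rem B b) c := by
                intro hxc
                apply hyc
                rw [mem_comp hc] at hxc ⊢
                exact ⟨h2.1, hxc.2.trans (Walk.step h2.1 h2.2)⟩
              obtain ⟨i1, i2⟩ := ih hxc
              refine ⟨i1, i2.trans (Walk.step ?_ h2.2)⟩
              rw [mem_diff]
              exact ⟨hI.sub.subset (mem_rem.1 h2.1).1, hyc⟩
          obtain ⟨k1, k2⟩ := key2 p hw hpc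
          refine (Walk.step ?_ hab).trans k2
          rw [mem_diff]
          exact ⟨hI.sub.subset (mem_rem.1 ha).1, k1⟩
      · have hpD : p ∈ diff Z B := mem_diff.2 ⟨(mem_diff.1 hp).1, hpB⟩
        have hBZ : B ≠ Z := by
          rintro rfl
          exact hpB (mem_diff.1 hp).1
        obtain ⟨z, hz, hbz⟩ := hz hBZ
        have hsub : ∀ x ∈ diff Z B, x ∈ diff Z (comp (rem B b) c) := by
          intro x hx
          rw [mem_diff] at hx ⊢
          exact ⟨hx.1, fun h => hx.2 (mem_rem.1 (hcs.subset h)).1⟩
        exact (Walk.step (hsub z hz) hbz).trans ((hI.dconn z hz p hpD).mono hsub)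
    intro p hp q hq
    exact (Walk.symm hbD (key p hp)).trans (key q hq)
  · by_cases hBZ : B = Z
    · have h4 := length_rem_le hBn hb hI.conn (nbs b) (fun a _ h => mem_nbs h) hne
      have h5 : (nbs b).card * (largest (rem B b)).length ≤ 4 * (largest (rem B b)).length :=
        Nat.mul_le_mul_right _ (card_nbs b)
      have h6 : B.length = Z.length := by rw [hBZ]
      omega
    · obtain ⟨z, hz, hbz⟩ := hz hBZ
      have h4 := length_rem_le hBn hb hI.conn ((nbs b).erase z) (fun a ha h => by
        rw [Finset.mem_erase]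
        refine ⟨?_, mem_nbs h⟩
        rintro rfl
        exact (mem_diff.1 hz).2 (mem_rem.1 ha).1) hne
      have h5 : ((nbs b).erase z).card ≤ 3 := by
        have := Finset.card_erase_add_one (mem_nbs hbz)
        have := card_nbs b
        omega
      have h6 : ((nbs b).erase z).card * (largest (rem B b)).length ≤
          3 * (largest (rem B b)).length := Nat.mul_le_mul_right _ h5
      omega

theorem exists_cross {Z B : List NC} {b0 : NC} (hb0 : b0 ∈ B) {y : NC} (h : Walk Z b0 y)
    (hy : y ∉ B) : ∃ b ∈ B, ∃ z ∈ diff Z B, isAdj b z = true := by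
  induction h with
  | refl => exact absurd hb0 hy
  | @tail x y h1 h2 ih =>
    by_cases hx : x ∈ B
    · exact ⟨x, hx, y, mem_diff.2 ⟨h2.1, hy⟩, h2.2⟩
    · exact ih hx

/-- The picked cell. -/
theorem pick_spec {Z B : List NC} (hZ : Z.Nodup) (hc : ∀ p ∈ Z, ∀ q ∈ Z, Walk Z p q)
    (hI : Inv Z B) (h2 : 2 ≤ Z.length) : ∃ b, pick Z B = some b ∧ b ∈ B ∧
      (B ≠ Z → ∃ z ∈ diff Z B, isAdj b z = true) := by
  have hB : B ≠ [] := by
    rintro rfl
    have := hI.big
    simp only [List.length_nil] at this
    omega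
  by_cases hBZ : B = Z
  · subst hBZ
    obtain ⟨b, B', rfl⟩ := List.exists_cons_of_ne_nil hB
    exact ⟨b, by simp [pick], by simp, fun h => absurd rfl h⟩
  · obtain ⟨b0, hb0⟩ := List.exists_mem_of_ne_nil B hB
    obtain ⟨z0, hz0Z, hz0B⟩ : ∃ z ∈ Z, z ∉ B := by
      by_contra hcon
      push Not at hcon
      apply hBZ
      have hD : diff Z B = [] := by
        rw [List.eq_nil_iff_forall_not_mem]
        intro p hp
        rw [mem_diff] at hp
        exact hp.2 (hcon p hp.1)
      have hlen := diff_length hZ hI.sub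
      rw [hD] at hlen
      simp only [List.length_nil] at hlen
      exact hI.sub.eq_of_length (by omega)
    obtain ⟨b1, hb1, z1, hz1, h1⟩ :=
      exists_cross hb0 (hc b0 (hI.sub.subset hb0) z0 hz0Z) hz0B
    have hne : B.filter (fun p => (diff Z B).any (fun q => isAdj p q)) ≠ [] := by
      apply List.ne_nil_of_mem (a := b1)
      rw [List.mem_filter, List.any_eq_true]
      exact ⟨hb1, z1, hz1, h1⟩
    obtain ⟨b, T, hbT⟩ := List.exists_cons_of_ne_nil hne
    have hb : b ∈ B.filter (fun p => (diff Z B).any (fun q => isAdj p q)) := by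
      rw [hbT]
      simp
    rw [List.mem_filter, List.any_eq_true] at hb
    refine ⟨b, ?_, hb.1, fun _ => hb.2⟩
    unfold pick
    rw [if_neg hBZ, hbT]
    rfl

/-- One step of the loop. -/
theorem stepB_spec {Z B : List NC} (hZ : Z.Nodup) (hc : ∀ p ∈ Z, ∀ q ∈ Z, Walk Z p q)
    (h2 : 2 ≤ Z.length) (hI : Inv Z B) :
    Inv Z (stepB Z B) ∧ (Z.length ≤ 4 * (diff Z B).length + 1 → stepB Z B = B) ∧
      (¬ Z.length ≤ 4 * (diff Z B).length + 1 → (stepB Z B).length < B.length) := by
  by_cases hs : Z.length ≤ 4 * (diff Z B).length + 1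
  · have h1 : stepB Z B = B := by
      unfold stepB
      rw [if_pos hs]
    rw [h1]
    exact ⟨hI, fun _ => rfl, fun h => absurd hs h⟩
  · obtain ⟨b, hp, hb, hz⟩ := pick_spec hZ hc hI h2
    have h1 : stepB Z B = largest (rem B b) := by
      unfold stepB
      rw [if_neg hs, hp]
      rfl
    rw [h1]
    obtain ⟨i1, i2⟩ := inv_step hZ hI hb hz h2 hs
    exact ⟨i1, fun h => absurd h hs, fun _ => i2⟩

theorem iter_spec {Z : List NC} (hZ : Z.Nodup) (hc : ∀ p ∈ Z, ∀ q ∈ Z, Walk Z p q)
    (h2 : 2 ≤ Z.length) (i : ℕ) : Inv Z ((stepB Z)^[i] Z) ∧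
      (Z.length ≤ 4 * (diff Z ((stepB Z)^[i] Z)).length + 1 ∨
        ((stepB Z)^[i] Z).length + i ≤ Z.length) := by
  induction i with
  | zero =>
    refine ⟨⟨List.Sublist.refl Z, hc, ?_, ?_⟩, Or.inr (by simp)⟩
    · simp only [Function.iterate_zero, id_eq]
      rw [diff_self]
      simp
    · simp only [Function.iterate_zero, id_eq]
      omega
  | succ i ih =>
    obtain ⟨ihI, ih2⟩ := ih
    rw [Function.iterate_succ_apply']
    obtain ⟨s1, s2, s3⟩ := stepB_spec hZ hc h2 ihI
    refine ⟨s1, ?_⟩
    by_cases hs : Z.length ≤ 4 * (diff Z ((stepB Z)^[i] Z)).length + 1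
    · left
      rw [s2 hs]
      exact hs
    · right
      have := s3 hs
      rcases ih2 with h | h
      · exact absurd h hs
      · omega

/-- the canonical split of a connected list -/
theorem split_spec {Z : List NC} (h : Z.Pairwise ltc) (hc : isConn Z = true) (h2 : 2 ≤ Z.length) :
    isConn (diff Z (splitB Z)) = true ∧ isConn (splitB Z) = true ∧
    (splitB Z).Sublist Z ∧ (diff Z (splitB Z)).Sublist Z ∧
    (diff Z (splitB Z)).length + (splitB Z).length = Z.length ∧
    Z.length ≤ 4 * (diff Z (splitB Z)).length + 1 ∧ Z.length ≤ 4 * (splitB Z).length + 1 := by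
  have hZ : Z.Nodup := by
    refine List.Pairwise.imp ?_ h
    intro a b hab hab2
    subst hab2
    unfold ltc at hab
    omega
  obtain ⟨hI, h3⟩ := iter_spec hZ (isConn_iff.1 hc).2 h2 Z.length
  have hlen := diff_length hZ hI.sub
  have hbig := hI.big
  change Inv Z (splitB Z) at hI
  change (Z.length ≤ 4 * (diff Z (splitB Z)).length + 1 ∨
    (splitB Z).length + Z.length ≤ Z.length) at h3
  change (diff Z (splitB Z)).length + (splitB Z).length = Z.length at hlen
  change Z.length ≤ 4 * (splitB Z).length + 1 at hbig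
  have h4 : Z.length ≤ 4 * (diff Z (splitB Z)).length + 1 := by
    rcases h3 with h3 | h3
    · exact h3
    · omega
  refine ⟨?_, ?_, hI.sub, diff_sub _ _, hlen, h4, hbig⟩
  · rw [isConn_iff]
    refine ⟨fun h0 => ?_, hI.dconn⟩
    rw [h0] at h4
    simp only [List.length_nil] at h4
    omega
  · rw [isConn_iff]
    refine ⟨fun h0 => ?_, hI.conn⟩
    rw [h0] at hbig
    simp only [List.length_nil] at hbig
    omega

end Pool.Agent.Lib.MP_104326_lc.KR
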