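import Pool.Agent.Lib.MP_104326_lc.KR.Defs
import Pool.Agent.Lib.MP_104326_lc.KR.A1
import Pool.Agent.Lib.MP_104326_lc.KR.A2

/-!
# KR / A3: the gluing identity
-/

set_option autoImplicit false

namespace Pool.Agent.Lib.MP_104326_lc.KR

open Pool.Agent.Lib.PolyTime

namespace A3

/-- translation of one cell -/
private def sg (s p : NC) : NC := (p.1 + s.1, p.2 + s.2)

private theorem sg_inj (s : NC) : Function.Injective (sg s) := by
  intro p q h
  unfold sg at h
  have h1 := (Prod.ext_iff.1 h).1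
  have h2 := (Prod.ext_iff.1 h).2
  simp only at h1 h2
  exact Prod.ext (by omega) (by omega)

private theorem shift_eq (s : NC) (L : List NC) : shift s L = L.map (sg s) := rfl

private theorem shift_inj (s : NC) : Function.Injective (shift s) := fun _ _ h =>
  List.map_injective_iff.2 (sg_inj s) h

private theorem isAdj_sg (s p q : NC) : isAdj (sg s p) (sg s q) = isAdj p q := by
  unfold isAdj sg
  have e1 : decide (p.1 + s.1 = q.1 + s.1) = decide (p.1 = q.1) := decide_eq_decide.2 (by omega)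
  have e2 : decide (p.2 + s.2 = q.2 + s.2 + 1) = decide (p.2 = q.2 + 1) := decide_eq_decide.2 (by omega)
  have e3 : decide (q.2 + s.2 = p.2 + s.2 + 1) = decide (q.2 = p.2 + 1) := decide_eq_decide.2 (by omega)
  have e4 : decide (p.2 + s.2 = q.2 + s.2) = decide (p.2 = q.2) := decide_eq_decide.2 (by omega)
  have e5 : decide (p.1 + s.1 = q.1 + s.1 + 1) = decide (p.1 = q.1 + 1) := decide_eq_decide.2 (by omega)
  have e6 : decide (q.1 + s.1 = p.1 + s.1 + 1) = decide (q.1 = p.1 + 1) := decide_eq_decide.2 (by omega)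
  simp only
  rw [e1, e2, e3, e4, e5, e6]

private theorem grow_shift (s : NC) (L X : List NC) : grow (shift s L) (shift s X) = shift s (grow L X) := by
  unfold grow
  rw [shift_eq, shift_eq, shift_eq, List.filter_map]
  congr 1
  refine List.filter_congr fun p _ => ?_
  simp only [Function.comp, List.any_map]
  congr 1
  funext q
  simp only [Function.comp]
  rw [isAdj_sg, decide_eq_decide.2 (sg_inj s).eq_iff]

private theorem comp_shift (s : NC) (L : List NC) (c : NC) : comp (shift s L) (sg s c) = shift s (comp L c) := by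
  unfold comp
  have h0 : (shift s L).filter (fun p => decide (p = sg s c)) = shift s (L.filter (fun p => decide (p = c))) := by
    rw [shift_eq, shift_eq, List.filter_map]
    congr 1
    refine List.filter_congr fun p _ => ?_
    simp only [Function.comp]
    exact decide_eq_decide.2 (sg_inj s).eq_iff
  rw [h0]
  have hl : (shift s L).length = L.length := by rw [shift_eq, List.length_map]
  rw [hl]
  have key : ∀ k : ℕ, ∀ X : List NC, (grow (shift s L))^[k] (shift s X) = shift s ((grow L)^[k] X) := by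
    intro k
    induction k with
    | zero => intro X; rfl
    | succ k ih =>
      intro X
      rw [Function.iterate_succ_apply, Function.iterate_succ_apply, grow_shift, ih]
  exact key _ _

private theorem isConn_shift (s : NC) (L : List NC) : isConn (shift s L) = isConn L := by
  unfold isConn
  have h1 : (shift s L).isEmpty = L.isEmpty := by rw [shift_eq]; cases L <;> rfl
  have h2 : (shift s L).all (fun c => decide (comp (shift s L) c = shift s L)) =
      L.all (fun c => decide (comp L c = L)) := by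
    conv_lhs => rw [shift_eq s L]
    rw [List.all_map]
    congr 1
    funext c
    simp only [Function.comp]
    rw [← shift_eq, comp_shift]
    exact decide_eq_decide.2 (shift_inj s).eq_iff
  rw [h1, h2]

private theorem ltc_sg (s p q : NC) : ltc (sg s p) (sg s q) ↔ ltc p q := by
  unfold ltc sg
  simp only
  omega

private theorem pairwise_shift (s : NC) (L : List NC) : (shift s L).Pairwise ltc ↔ L.Pairwise ltc := by
  rw [shift_eq, List.pairwise_map]
  simp only [ltc_sg]

private theorem isNorm_iff (L : List NC) : isNorm L = true ↔ (∃ p ∈ L, p.1 = 0) ∧ ∃ p ∈ L, p.2 = 0 := by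
  unfold isNorm
  simp

private theorem ltc_irrefl (p : NC) : ¬ ltc p p := by
  unfold ltc
  omega

private theorem ltc_asymm {p q : NC} (h : ltc p q) : ¬ ltc q p := by
  unfold ltc at *
  omega

private theorem ltc_trans {p q r : NC} (h : ltc p q) (h' : ltc q r) : ltc p r := by
  unfold ltc at *
  omega

/-- two sorted lists with the same members are equal -/
private theorem ext_of_pairwise : ∀ {L M : List NC}, L.Pairwise ltc → M.Pairwise ltc → (∀ p, p ∈ L ↔ p ∈ M) → L = M
  | [], [], _, _, _ => rfl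
  | [], b :: M, _, _, h => absurd ((h b).2 List.mem_cons_self) List.not_mem_nil
  | a :: L, [], _, _, h => absurd ((h a).1 List.mem_cons_self) List.not_mem_nil
  | a :: L, b :: M, hL, hM, h => by
    rw [List.pairwise_cons] at hL hM
    have hab : a = b := by
      by_contra hne
      have h1 : a ∈ M := by
        rcases List.mem_cons.1 ((h a).1 List.mem_cons_self) with h1 | h1
        · exact absurd h1 hne
        · exact h1
      have h2 : b ∈ L := by
        rcases List.mem_cons.1 ((h b).2 List.mem_cons_self) with h2 | h2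
        · exact absurd h2.symm hne
        · exact h2
      exact ltc_asymm (hL.1 b h2) (hM.1 a h1)
    subst hab
    have : L = M := ext_of_pairwise hL.2 hM.2 fun p => by
      constructor
      · intro hp
        rcases List.mem_cons.1 ((h p).1 (List.mem_cons_of_mem _ hp)) with h1 | h1
        · subst h1
          exact absurd (hL.1 p hp) (ltc_irrefl p)
        · exact h1
      · intro hp
        rcases List.mem_cons.1 ((h p).2 (List.mem_cons_of_mem _ hp)) with h1 | h1
        · subst h1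
          exact absurd (hM.1 p hp) (ltc_irrefl p)
        · exact h1
    rw [this]

private theorem mem_grid {R : ℕ} {p : NC} : p ∈ grid R ↔ p.1 < R ∧ p.2 < R := by
  unfold grid
  rw [List.mem_flatMap]
  constructor
  · rintro ⟨x, hx, hp⟩
    rw [List.mem_map] at hp
    obtain ⟨y, hy, rfl⟩ := hp
    exact ⟨List.mem_range.1 hx, List.mem_range.1 hy⟩
  · rintro ⟨h1, h2⟩
    exact ⟨p.1, List.mem_range.2 h1, List.mem_map.2 ⟨p.2, List.mem_range.2 h2, rfl⟩⟩

private theorem grid_pairwise (R : ℕ) : (grid R).Pairwise ltc := by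
  unfold grid
  rw [List.pairwise_flatMap]
  refine ⟨fun x _ => ?_, ?_⟩
  · rw [List.pairwise_map]
    refine List.pairwise_lt_range.imp ?_
    intro a b h
    exact Or.inr ⟨rfl, h⟩
  · refine List.pairwise_lt_range.imp ?_
    intro a b h p hp q hq
    rw [List.mem_map] at hp hq
    obtain ⟨_, _, rfl⟩ := hp
    obtain ⟨_, _, rfl⟩ := hq
    exact Or.inl h

private theorem mem_union {R : ℕ} {A B : List NC} {p : NC} :
    p ∈ union R A B ↔ (p.1 < R ∧ p.2 < R) ∧ (p ∈ A ∨ p ∈ B) := by
  unfold union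
  rw [List.mem_filter, mem_grid]
  simp

private theorem union_pairwise (R : ℕ) (A B : List NC) : (union R A B).Pairwise ltc :=
  (grid_pairwise R).filter _

private theorem union_eq {R : ℕ} {A B Z : List NC} (hZ : Z.Pairwise ltc) (hR : ∀ p ∈ Z, p.1 < R ∧ p.2 < R)
    (h : ∀ p, p ∈ Z ↔ p ∈ A ∨ p ∈ B) : union R A B = Z := by
  refine ext_of_pairwise (union_pairwise R A B) hZ fun p => ?_
  rw [mem_union, ← h p]
  exact ⟨fun h => h.2, fun h => ⟨hR p h, h⟩⟩

private theorem mem_diff {Z B : List NC} {p : NC} : p ∈ diff Z B ↔ p ∈ Z ∧ p ∉ B := by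
  unfold diff
  rw [List.mem_filter]
  have h : (!(B.any (fun q => decide (p = q)))) = true ↔ p ∉ B := by
    rw [Bool.not_eq_true', Bool.eq_false_iff, Ne, List.any_eq_true]
    constructor
    · intro h hp
      exact h ⟨p, hp, by simp⟩
    · rintro h ⟨q, hq, he⟩
      rw [decide_eq_true_eq] at he
      exact h (he ▸ hq)
  rw [h]

/-- normal form of a nonempty list -/
private theorem exists_shift {L : List NC} (hL : L ≠ []) : ∃ (s : NC) (A : List NC), shift s A = L ∧ isNorm A = true ∧
    (∃ p ∈ L, p.1 = s.1) ∧ ∃ p ∈ L, p.2 = s.2 := by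
  obtain ⟨x, hx⟩ := List.exists_mem_of_ne_nil L hL
  obtain ⟨p, hp, hpm⟩ := L.toFinset.exists_min_image Prod.fst ⟨x, List.mem_toFinset.2 hx⟩
  obtain ⟨q, hq, hqm⟩ := L.toFinset.exists_min_image Prod.snd ⟨x, List.mem_toFinset.2 hx⟩
  rw [List.mem_toFinset] at hp hq
  refine ⟨(p.1, q.2), L.map (fun z => (z.1 - p.1, z.2 - q.2)), ?_, ?_, ⟨p, hp, rfl⟩, ⟨q, hq, rfl⟩⟩
  · rw [shift_eq, List.map_map]
    conv_rhs => rw [← List.map_id L]
    refine List.map_congr_left fun z hz => ?_
    have h1 := hpm z (List.mem_toFinset.2 hz)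
    have h2 := hqm z (List.mem_toFinset.2 hz)
    simp only [Function.comp, sg, id]
    exact Prod.ext (by simp only; omega) (by simp only; omega)
  · rw [isNorm_iff]
    exact ⟨⟨_, List.mem_map.2 ⟨p, hp, rfl⟩, by simp⟩, ⟨_, List.mem_map.2 ⟨q, hq, rfl⟩, by simp⟩⟩

private theorem shift_unique {s s' : NC} {A A' : List NC} (hA : isNorm A = true) (hA' : isNorm A' = true)
    (h : shift s A = shift s' A') : s = s' ∧ A = A' := by
  rw [isNorm_iff] at hA hA'
  obtain ⟨⟨a, ha, ha0⟩, ⟨b, hb, hb0⟩⟩ := hA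
  obtain ⟨⟨a', ha', ha0'⟩, ⟨b', hb', hb0'⟩⟩ := hA'
  have key : ∀ {u v : NC} {X Y : List NC} (_ : shift u X = shift v Y) (p : NC), p ∈ X → ∃ q ∈ Y, sg v q = sg u p := by
    intro u v X Y he p hp
    have h1 : sg u p ∈ shift v Y := by
      rw [← he, shift_eq]
      exact List.mem_map_of_mem hp
    rw [shift_eq, List.mem_map] at h1
    exact h1
  obtain ⟨c1, -, e1⟩ := key h a ha
  obtain ⟨c2, -, e2⟩ := key h b hb
  obtain ⟨c3, -, e3⟩ := key h.symm a' ha'
  obtain ⟨c4, -, e4⟩ := key h.symm b' hb'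
  unfold sg at e1 e2 e3 e4
  have f1 := (Prod.ext_iff.1 e1).1
  have f2 := (Prod.ext_iff.1 e2).2
  have f3 := (Prod.ext_iff.1 e3).1
  have f4 := (Prod.ext_iff.1 e4).2
  simp only at f1 f2 f3 f4
  have hs : s = s' := Prod.ext (by omega) (by omega)
  subst hs
  exact ⟨rfl, shift_inj s h⟩

private theorem digits_mk {R m a b c d : ℕ} (hm : m < R) (ha : a < R) (hb : b < R) (hc : c < R) (hd : d < R) :
    ∃ w, w < R ^ 5 ∧ w % R = m ∧ w / R % R = a ∧ w / R ^ 2 % R = b ∧ w / R ^ 3 % R = c ∧ w / R ^ 4 % R = d := by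
  have hR : 0 < R := by omega
  have step : ∀ x y : ℕ, x < R → (x + R * y) % R = x ∧ (x + R * y) / R = y := by
    intro x y hx
    rw [Nat.add_mul_mod_self_left, Nat.mod_eq_of_lt hx, Nat.add_mul_div_left _ _ hR, Nat.div_eq_of_lt hx, zero_add]
    exact ⟨rfl, rfl⟩
  set w4 := d
  set w3 := c + R * w4 with hw3
  set w2 := b + R * w3 with hw2
  set w1 := a + R * w2 with hw1
  set w0 := m + R * w1 with hw0
  have e1 : w0 / R = w1 := (step m w1 hm).2
  have e2 : w0 / R ^ 2 = w2 := by
    rw [pow_succ, pow_one, ← Nat.div_div_eq_div_mul, e1]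
    exact (step a w2 ha).2
  have e3 : w0 / R ^ 3 = w3 := by
    rw [pow_succ, ← Nat.div_div_eq_div_mul, e2]
    exact (step b w3 hb).2
  have e4 : w0 / R ^ 4 = w4 := by
    rw [pow_succ, ← Nat.div_div_eq_div_mul, e3]
    exact (step c w4 hc).2
  refine ⟨w0, ?_, (step m w1 hm).1, ?_, ?_, ?_, ?_⟩
  · have h5 : w0 / R ^ 5 = 0 := by
      rw [pow_succ, ← Nat.div_div_eq_div_mul, e4]
      exact Nat.div_eq_of_lt hd
    exact (Nat.div_eq_zero_iff_lt (by positivity)).1 h5
  · rw [e1]; exact (step a w2 ha).1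
  · rw [e2]; exact (step b w3 hb).1
  · rw [e3]; exact (step c w4 hc).1
  · rw [e4]; exact Nat.mod_eq_of_lt hd

private theorem digits_inj {R w v : ℕ} (hw : w < R ^ 5) (hv : v < R ^ 5) (h0 : w % R = v % R) (h1 : w / R % R = v / R % R)
    (h2 : w / R ^ 2 % R = v / R ^ 2 % R) (h3 : w / R ^ 3 % R = v / R ^ 3 % R) (h4 : w / R ^ 4 % R = v / R ^ 4 % R) :
    w = v := by
  have step : ∀ k : ℕ, w / R ^ (k + 1) = v / R ^ (k + 1) → w / R ^ k % R = v / R ^ k % R → w / R ^ k = v / R ^ k := by
    intro k hk hm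
    rw [pow_succ, ← Nat.div_div_eq_div_mul, ← Nat.div_div_eq_div_mul] at hk
    rw [← Nat.mod_add_div (w / R ^ k) R, ← Nat.mod_add_div (v / R ^ k) R, hk, hm]
  have e5 : w / R ^ 5 = v / R ^ 5 := by rw [Nat.div_eq_of_lt hw, Nat.div_eq_of_lt hv]
  have e4 := step 4 e5 h4
  have e3 := step 3 e4 h3
  have e2 := step 2 e3 h2
  have e1 := step 1 e2 (by rw [pow_one]; exact h1)
  have e0 := step 0 e1 (by rw [pow_zero, Nat.div_one, Nat.div_one]; exact h0)
  rwa [pow_zero, Nat.div_one, Nat.div_one] at e0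

private theorem glue_eq_some {R n m : ℕ} {s t : NC} {A B Z : List NC} (h : glue R n m s t A B = some Z) :
    (n ≤ 8 * m ∧ 8 * m ≤ 7 * n) ∧ (Z.Pairwise ltc ∧ Z.length = n ∧ isConn Z = true ∧ isNorm Z = true) ∧
      diff Z (splitB Z) = shift s A ∧ splitB Z = shift t B := by
  unfold glue at h
  split_ifs at h with hc
  obtain ⟨h1, h2, h3, h4, h5, h6, h7⟩ := hc
  have e : union R (shift s A) (shift t B) = Z := Option.some.inj h
  have hp := union_pairwise R (shift s A) (shift t B)
  rw [e] at h3 h4 h5 h6 h7 hp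
  exact ⟨⟨h1, h2⟩, ⟨hp, h3, h4, h5⟩, h6, h7⟩

end A3

open A3 in
theorem glueW_ne_none {R n w : ℕ} {A B : List NC} (h : glueW R n w A B ≠ none) :
    n ≤ 8 * (w % R) ∧ 8 * (w % R) ≤ 7 * n := by
  obtain ⟨Z, hZ⟩ := Option.ne_none_iff_exists'.1 h
  exact (glue_eq_some hZ).1

namespace A3

/-- existence -/
private theorem glue_exists {R n : ℕ} (hn : 2 ≤ n) (hR : n < R) {Z : List NC} (hZ : Z ∈ P n) :
    ∃ w < R ^ 5, ∃ A ∈ P (w % R), ∃ B ∈ P (n - w % R), glueW R n w A B = some Z := by
  obtain ⟨⟨hp, hc, hno⟩, hl⟩ := mem_P.1 hZ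
  obtain ⟨h1, h2, h3, h4, h5, h6, h7⟩ := split_spec hp hc (by omega)
  have hcoord := coord_lt hZ
  rw [hl] at h5 h6 h7
  have ne1 : diff Z (splitB Z) ≠ [] := by
    intro h0
    rw [h0, List.length_nil] at h6
    omega
  have ne2 : splitB Z ≠ [] := by
    intro h0
    rw [h0, List.length_nil] at h7
    omega
  obtain ⟨s, A, hsA, hnA, ⟨p1, hp1, hp1s⟩, ⟨p2, hp2, hp2s⟩⟩ := exists_shift ne1
  obtain ⟨t, B, htB, hnB, ⟨q1, hq1, hq1s⟩, ⟨q2, hq2, hq2s⟩⟩ := exists_shift ne2
  have lA : A.length = (diff Z (splitB Z)).length := by rw [← hsA, shift_eq, List.length_map]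
  have lB : B.length = (splitB Z).length := by rw [← htB, shift_eq, List.length_map]
  have b1 := (hcoord p1 (h4.subset hp1)).1
  have b2 := (hcoord p2 (h4.subset hp2)).2
  have b3 := (hcoord q1 (h3.subset hq1)).1
  have b4 := (hcoord q2 (h3.subset hq2)).2
  obtain ⟨w, hw, d0, d1, d2, d3, d4⟩ := digits_mk (R := R) (m := A.length) (a := s.1) (b := s.2) (c := t.1) (d := t.2)
    (by omega) (by omega) (by omega) (by omega) (by omega)
  refine ⟨w, hw, A, ?_, B, ?_, ?_⟩
  · rw [mem_P, d0]
    refine ⟨⟨?_, ?_, hnA⟩, rfl⟩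
    · rw [← pairwise_shift s, hsA]
      exact hp.sublist h4
    · rw [← isConn_shift s, hsA]
      exact h1
  · rw [mem_P, d0]
    refine ⟨⟨?_, ?_, hnB⟩, by omega⟩
    · rw [← pairwise_shift t, htB]
      exact hp.sublist h3
    · rw [← isConn_shift t, htB]
      exact h2
  · unfold glueW
    rw [d0, d1, d2, d3, d4]
    have eU : union R (shift s A) (shift t B) = Z := by
      rw [hsA, htB]
      refine union_eq hp (fun p hp' => ?_) fun p => ?_
      · have := hcoord p hp'
        omega
      · rw [mem_diff]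
        constructor
        · intro hp'
          by_cases hb : p ∈ splitB Z
          · exact Or.inr hb
          · exact Or.inl ⟨hp', hb⟩
        · rintro (h | h)
          · exact h.1
          · exact h3.subset h
    have es : ((s.1, s.2) : NC) = s := rfl
    have et : ((t.1, t.2) : NC) = t := rfl
    unfold glue
    rw [es, et, eU, if_pos]
    refine ⟨by omega, by omega, hl, hc, hno, hsA.symm, htB.symm⟩

/-- uniqueness -/
private theorem glue_unique {R n : ℕ} {Z : List NC} {w v : ℕ} (hw : w < R ^ 5) (hv : v < R ^ 5) {A B A' B' : List NC}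
    (hA : A ∈ P (w % R)) (hB : B ∈ P (n - w % R)) (hA' : A' ∈ P (v % R)) (hB' : B' ∈ P (n - v % R))
    (h : glueW R n w A B = some Z) (h' : glueW R n v A' B' = some Z) : w = v ∧ A = A' ∧ B = B' := by
  obtain ⟨-, -, e1, e2⟩ := glue_eq_some h
  obtain ⟨-, -, e1', e2'⟩ := glue_eq_some h'
  obtain ⟨⟨-, -, nA⟩, lA⟩ := mem_P.1 hA
  obtain ⟨⟨-, -, nA'⟩, lA'⟩ := mem_P.1 hA'
  obtain ⟨⟨-, -, nB⟩, lB⟩ := mem_P.1 hB
  obtain ⟨⟨-, -, nB'⟩, lB'⟩ := mem_P.1 hB'
  obtain ⟨es, eA⟩ := shift_unique nA nA' (e1.symm.trans e1')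
  obtain ⟨et, eB⟩ := shift_unique nB nB' (e2.symm.trans e2')
  subst eA eB
  have s1 := (Prod.ext_iff.1 es).1
  have s2 := (Prod.ext_iff.1 es).2
  have t1 := (Prod.ext_iff.1 et).1
  have t2 := (Prod.ext_iff.1 et).2
  simp only at s1 s2 t1 t2
  exact ⟨digits_inj hw hv (by rw [← lA, ← lA']) s1 s2 t1 t2, rfl, rfl⟩

end A3

open A3 in
theorem glue_sum {R n : ℕ} (hn : 2 ≤ n) (hR : n < R) (f : List NC → ℝ) :
    ∑ w ∈ Finset.range (R ^ 5), ∑ A ∈ P (w % R), ∑ B ∈ P (n - w % R), (glueW R n w A B).elim 0 f =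
      ∑ Z ∈ P n, f Z := by
  classical
  have h1 : ∀ w A B, (glueW R n w A B).elim 0 f = ∑ Z ∈ P n, if glueW R n w A B = some Z then f Z else 0 := by
    intro w A B
    cases h : glueW R n w A B with
    | none => simp
    | some Z =>
      have hZ : Z ∈ P n := by
        obtain ⟨-, ⟨a, b, c, d⟩, -⟩ := glue_eq_some h
        exact mem_P.2 ⟨⟨a, c, d⟩, b⟩
      rw [Finset.sum_eq_single Z]
      · simp
      · intro Z' _ hne
        rw [if_neg]
        intro he
        exact hne (Option.some.inj he).symm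
      · intro hc
        exact absurd hZ hc
  have h2 : ∑ w ∈ Finset.range (R ^ 5), ∑ A ∈ P (w % R), ∑ B ∈ P (n - w % R), (glueW R n w A B).elim 0 f =
      ∑ Z ∈ P n, ∑ w ∈ Finset.range (R ^ 5), ∑ A ∈ P (w % R), ∑ B ∈ P (n - w % R),
        if glueW R n w A B = some Z then f Z else 0 := by
    symm
    rw [Finset.sum_comm]
    refine Finset.sum_congr rfl fun w _ => ?_
    rw [Finset.sum_comm]
    refine Finset.sum_congr rfl fun A _ => ?_
    rw [Finset.sum_comm]
    exact Finset.sum_congr rfl fun B _ => (h1 w A B).symm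
  rw [h2]
  refine Finset.sum_congr rfl fun Z hZ => ?_
  obtain ⟨w0, hw0, A0, hA0, B0, hB0, hg⟩ := glue_exists hn hR hZ
  have key : ∀ w ∈ Finset.range (R ^ 5), ∀ A ∈ P (w % R), ∀ B ∈ P (n - w % R), glueW R n w A B = some Z →
      w = w0 ∧ A = A0 ∧ B = B0 := fun w hw A hA B hB h =>
    glue_unique (Finset.mem_range.1 hw) hw0 hA hB hA0 hB0 h hg
  rw [Finset.sum_eq_single w0]
  · rw [Finset.sum_eq_single A0]
    · rw [Finset.sum_eq_single B0]
      · rw [if_pos hg]
      · intro B hB hne
        rw [if_neg]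
        exact fun h => hne (key w0 (Finset.mem_range.2 hw0) A0 hA0 B hB h).2.2
      · exact fun h => absurd hB0 h
    · intro A hA hne
      refine Finset.sum_eq_zero fun B hB => ?_
      rw [if_neg]
      exact fun h => hne (key w0 (Finset.mem_range.2 hw0) A hA B hB h).2.1
    · exact fun h => absurd hA0 h
  · intro w hw hne
    refine Finset.sum_eq_zero fun A hA => Finset.sum_eq_zero fun B hB => ?_
    rw [if_neg]
    exact fun h => hne (key w hw A hA B hB h).1
  · exact fun h => absurd (Finset.mem_range.2 hw0) h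

end Pool.Agent.Lib.MP_104326_lc.KR
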