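import Pool.Agent.Lib.MP_104326_lc.KR.C2c

/-! # KR, module C2: the moments of the sample arrays -/

set_option autoImplicit false

namespace Pool.Agent.Lib.MP_104326_lc.KR

variable {α : Type} {G : ℕ → ℕ → α → α → Option α} {cell : α} {R k D B : ℕ}

theorem Good.mono {P : ℕ → Finset α} {h : ℕ} {V V' : ℕ → Prop} {M M' : ℕ → ℝ} {U U' L L' v v' : ℝ}
    (hg : Good G cell R k D B P h V M U L v) (hV : ∀ n, V' n → V n) (hM : ∀ n, M n = M' n)
    (hM0 : ∀ n, 0 < M n) (hU : U ≤ U') (hL : L' ≤ L) (hv : v ≤ v') :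
    Good G cell R k D B P h V' M' U' L' v' := by
  intro n hn hnR hV'
  obtain ⟨g1, g2, g3⟩ := hg n hn hnR (hV n hV')
  have h0 := hM0 n
  rw [hM] at g1 g2 g3 h0
  refine ⟨fun f hf => (g1 f hf).trans ?_, fun f hf => le_trans ?_ (g2 f hf), g3.trans ?_⟩
  · exact mul_le_mul_of_nonneg_right (mul_le_mul_of_nonneg_right hU h0.le)
      (Finset.sum_nonneg fun z _ => hf z)
  · exact mul_le_mul_of_nonneg_right (mul_le_mul_of_nonneg_right hL h0.le)
      (Finset.sum_nonneg fun z _ => hf z)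
  · exact mul_le_mul_of_nonneg_right hv (by positivity)

/-- The factors of the first moments at height `h`. -/
theorem factors {η : ℝ} (hη0 : 0 ≤ η) (hη1 : η ≤ 1) (h : ℕ) :
    ((1 + η) ^ (2 ^ h - 1)) ^ 2 ≤ (1 + η) ^ (2 ^ (h + 1) - 1) ∧
    (1 + η) ^ (2 ^ h - 1) * (1 + η) ≤ (1 + η) ^ (2 ^ (h + 1) - 1) ∧
    (1 - η) ^ (2 ^ (h + 1) - 1) ≤ ((1 - η) ^ (2 ^ h - 1)) ^ 2 ∧
    (1 - η) ^ (2 ^ (h + 1) - 1) ≤ (1 - η) ^ (2 ^ h - 1) * (1 - η) := by
  have h1 : 1 ≤ 2 ^ h := Nat.one_le_two_pow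
  have h2 : 2 ^ (h + 1) = 2 * 2 ^ h := by ring
  refine ⟨?_, ?_, ?_, ?_⟩
  · rw [← pow_mul]; exact pow_le_pow_right₀ (by linarith) (by omega)
  · rw [← pow_succ]; exact pow_le_pow_right₀ (by linarith) (by omega)
  · rw [← pow_mul]; exact pow_le_pow_of_le_one (by linarith) (by linarith) (by omega)
  · rw [← pow_succ]; exact pow_le_pow_of_le_one (by linarith) (by linarith) (by omega)

theorem scal_pos (hR : 0 < R) (e n : ℕ) : 0 < scal R k e n := by
  have : (0 : ℝ) < R := by exact_mod_cast hR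
  unfold scal
  positivity

theorem scal_succ (e n : ℕ) : scal R k (e + 1) n = 2 * scal R k e n := by
  unfold scal
  rw [pow_succ]
  ring

/-- `j` mergings after the height `h`. -/
theorem merges {P : ℕ → Finset α} {h H : ℕ} {V : ℕ → Prop} {M : ℕ → ℝ} {v c η : ℝ}
    (hM : ∀ n, 0 < M n) (hη0 : 0 ≤ η) (hη1 : η ≤ 1)
    (hη : ∀ h', h' < H → ∀ x y, ReachA G cell R k D B h' x → ReachA G cell R k D B h' y →
      ∀ n, n < R → (((x n).1 + (y n).1 : ℕ) : ℝ) / 2 ^ B ≤ η)
    (hc : ∀ h', h' ≤ H → ((1 + η) ^ (2 ^ h' - 1)) ^ 2 ≤ c)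
    (hg : Good G cell R k D B P h V M ((1 + η) ^ (2 ^ h - 1)) ((1 - η) ^ (2 ^ h - 1)) (c + v)) :
    ∀ j, h + j ≤ H →
      (∀ i, i < j → ¬ ((h + i) % (k + 1) = 0 ∧ h + i < D * (k + 1))) →
      Good G cell R k D B P (h + j) V (fun n => 2 ^ j * M n) ((1 + η) ^ (2 ^ (h + j) - 1))
        ((1 - η) ^ (2 ^ (h + j) - 1)) (c + v / 2 ^ j) := by
  intro j
  induction j with
  | zero =>
    intro _ _
    exact hg.mono (fun _ h => h) (fun n => by simp) hM le_rfl le_rfl (by simp)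
  | succ j ih =>
    intro hj hno
    have h1 := ih (by omega) (fun i hi => hno i (by omega))
    have h2 := merge_step (hno j (by omega)) (M := fun n => 2 ^ j * M n)
      (fun n => by have := hM n; positivity) hη0 hη1 (hη (h + j) (by omega))
      (pow_nonneg (by linarith) _) (pow_nonneg (by linarith) _) h1
    obtain ⟨-, f2, -, f4⟩ := factors hη0 hη1 (h + j)
    refine h2.mono (fun _ h => h) (fun n => ?_) (fun n => ?_) f2 f4 ?_
    · rw [pow_succ]; ring
    · have := hM n; positivity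
    · have h3 := hc (h + j) (by omega)
      have h4 : v / 2 ^ (j + 1) = v / 2 ^ j / 2 := by rw [pow_succ]; field_simp
      rw [h4]
      linarith

theorem moment {α : Type} (P : ℕ → Finset α) (G : ℕ → ℕ → α → α → Option α) (cell : α)
    {R ρ k D e B q : ℕ} (hR : R = 2 ^ ρ) (hk : 10 * ρ + 3 ≤ k) (hD : 6 * ρ ≤ D)
    (hB : (D * (k + 1) + e + k) * (2 * R) + (D * (k + 1) + e) + q + 6 ≤ B)
    (hP1 : P 1 = {cell}) (hP0 : ∀ n, 1 ≤ n → (P n).Nonempty)
    (hsup : ∀ a b, 1 ≤ a → 1 ≤ b → (P a).card * (P b).card ≤ (P (a + b)).card)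
    (hbal : ∀ n w A B, G n w A B ≠ none → n ≤ 8 * (w % R) ∧ 8 * (w % R) ≤ 7 * n)
    (hsum : ∀ n, 2 ≤ n → n < R → ∀ f : α → ℝ,
      ∑ w ∈ Finset.range (R ^ 5), ∑ A ∈ P (w % R), ∑ B ∈ P (n - w % R), (G n w A B).elim 0 f =
        ∑ Z ∈ P n, f Z) :
    ∀ n, 1 ≤ n → n < R →
      expA G cell R k D B (D * (k + 1) + e)
        (fun x => (((x n).1 : ℝ) - scal R k e n * (P n).card) ^ 2) ≤
      (1 / 2 ^ q + 2 / 2 ^ e) * (scal R k e n * (P n).card) ^ 2 := by
  have hRpos : 0 < R := by rw [hR]; positivity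
  have hRr : (0 : ℝ) < R := by exact_mod_cast hRpos
  obtain ⟨H, hH⟩ : ∃ H, H = D * (k + 1) + e := ⟨_, rfl⟩
  rw [← hH] at hB ⊢
  obtain ⟨η, hηd⟩ : ∃ η : ℝ, η = 1 / 2 ^ (H + q + 5) := ⟨_, rfl⟩
  have hη0 : 0 ≤ η := by rw [hηd]; positivity
  have hη1 : η ≤ 1 := by
    rw [hηd, div_le_one (by positivity)]
    exact one_le_pow₀ (by norm_num)
  -- the relative error of a merging
  have hη : ∀ h', h' < H → ∀ x y, ReachA G cell R k D B h' x → ReachA G cell R k D B h' y →
      ∀ n, n < R → (((x n).1 + (y n).1 : ℕ) : ℝ) / 2 ^ B ≤ η := by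
    intro h' hh' x y hx hy n hn
    have h1 : (x n).1 + (y n).1 ≤ 2 ^ ((H + k) * (2 * R) + 1) := by
      have key : ∀ z, ReachA G cell R k D B h' z → (z n).1 ≤ 2 ^ ((H + k) * (2 * R)) := by
        intro z hz
        rcases Nat.eq_zero_or_pos n with rfl | hn0
        · rw [reach_zero hbal h' z hz]; positivity
        · obtain ⟨i, rfl⟩ : ∃ i, n = i + 1 := ⟨n - 1, by omega⟩
          refine (reach_le hbal h' z hz i).trans (Nat.pow_le_pow_right (by norm_num) ?_)
          exact Nat.mul_le_mul (by omega) (by omega)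
      have h2 := key x hx
      have h3 := key y hy
      rw [pow_succ]
      omega
    have h2 : (((x n).1 + (y n).1 : ℕ) : ℝ) ≤ 2 ^ ((H + k) * (2 * R) + 1) := by exact_mod_cast h1
    rw [div_le_iff₀ (by positivity), hηd, div_mul_eq_mul_div, one_mul, le_div_iff₀ (by positivity)]
    calc (((x n).1 + (y n).1 : ℕ) : ℝ) * 2 ^ (H + q + 5)
        ≤ 2 ^ ((H + k) * (2 * R) + 1) * 2 ^ (H + q + 5) :=
          mul_le_mul_of_nonneg_right h2 (by positivity)
      _ = 2 ^ ((H + k) * (2 * R) + 1 + (H + q + 5)) := by rw [← pow_add]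
      _ ≤ 2 ^ B := pow_le_pow_right₀ (by norm_num) (by omega)
  -- the constant `c`
  obtain ⟨c, hcd⟩ : ∃ c : ℝ, c = 1 + 1 / 2 ^ (q + 2) := ⟨_, rfl⟩
  have hq0 : (0 : ℝ) < 1 / 2 ^ (q + 2) := by positivity
  have hq1 : (1 : ℝ) / 2 ^ (q + 2) ≤ 1 / 4 := by
    rw [pow_add, div_le_div_iff₀ (by positivity) (by norm_num)]
    have : (1 : ℝ) ≤ 2 ^ q := one_le_pow₀ (by norm_num)
    linarith
  have hHη : (2 : ℝ) ^ (H + 1) * η = 1 / 2 ^ (q + 4) := by
    rw [hηd, show H + q + 5 = (H + 1) + (q + 4) by ring, pow_add (2 : ℝ) (H + 1) (q + 4)]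
    field_simp
  have hc : ∀ h', h' ≤ H → ((1 + η) ^ (2 ^ h' - 1)) ^ 2 ≤ c := by
    intro h' hh'
    have h1 : ((1 + η) ^ (2 ^ h' - 1)) ^ 2 ≤ (1 + η) ^ (2 ^ (H + 1)) := by
      rw [← pow_mul]
      refine pow_le_pow_right₀ (by linarith) ?_
      have h2 : 2 ^ h' ≤ 2 ^ H := Nat.pow_le_pow_right (by norm_num) hh'
      rw [pow_succ]
      omega
    have h2 : (1 + η) ^ (2 ^ (H + 1)) ≤ Real.exp (1 / 2 ^ (q + 4)) := by
      have h3 : 1 + η ≤ Real.exp η := by linarith [Real.add_one_le_exp η]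
      have h4 := pow_le_pow_left₀ (by linarith) h3 (2 ^ (H + 1))
      rw [← Real.exp_nat_mul] at h4
      have h5 : ((2 ^ (H + 1) : ℕ) : ℝ) * η = 1 / 2 ^ (q + 4) := by
        push_cast
        exact hHη
      rwa [h5] at h4
    have h3 : Real.exp (1 / 2 ^ (q + 4)) ≤ 1 + 2 * (1 / 2 ^ (q + 4)) := by
      have h4 : |(1 : ℝ) / 2 ^ (q + 4)| ≤ 1 := by
        rw [abs_of_nonneg (by positivity), div_le_one (by positivity)]
        exact one_le_pow₀ (by norm_num)
      have h5 := Real.abs_exp_sub_one_le h4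
      rw [abs_of_nonneg (by positivity : (0 : ℝ) ≤ 1 / 2 ^ (q + 4))] at h5
      have h6 := le_abs_self (Real.exp (1 / 2 ^ (q + 4)) - 1)
      linarith
    have h4 : (2 : ℝ) * (1 / 2 ^ (q + 4)) ≤ 1 / 2 ^ (q + 2) := by
      rw [show q + 4 = (q + 2) + 2 by ring, pow_add (2 : ℝ) (q + 2) 2]
      have : (0 : ℝ) < 1 / 2 ^ (q + 2) := hq0
      have h7 : (2 : ℝ) * (1 / (2 ^ (q + 2) * 2 ^ 2)) = 1 / 2 ^ (q + 2) / 2 := by
        field_simp
      rw [h7]
      linarith
    rw [hcd]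
    linarith
  have hL : 1 - 1 / 2 ^ (q + 4) ≤ (1 - η) ^ (2 ^ H - 1) := by
    have h1 : 1 + ((2 ^ H - 1 : ℕ) : ℝ) * (-η) ≤ (1 + -η) ^ (2 ^ H - 1) :=
      one_add_mul_le_pow (by linarith) _
    have h2 : ((2 ^ H - 1 : ℕ) : ℝ) ≤ 2 ^ (H + 1) := by
      have h3 : 2 ^ H - 1 ≤ 2 ^ (H + 1) := by rw [pow_succ]; omega
      exact_mod_cast h3
    have h3 := mul_le_mul_of_nonneg_right h2 hη0
    rw [hHη] at h3
    rw [← sub_eq_add_neg] at h1
    linarith
  have hs0 : ∀ j n, 0 < scal R k j n := fun j n => scal_pos hRpos j n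
  -- the full levels
  have hfull : ∀ l, l ≤ D → Good G cell R k D B P (l * (k + 1)) (fun n => 7 ^ l * n < 2 * 8 ^ l)
      (scal R k 0) ((1 + η) ^ (2 ^ (l * (k + 1)) - 1)) ((1 - η) ^ (2 ^ (l * (k + 1)) - 1)) 2 := by
    intro l
    induction l with
    | zero =>
      intro _
      rw [Nat.zero_mul]
      intro n hn hnR hV
      have : n = 1 := by simp at hV; omega
      subst this
      have h1 : scal R k 0 1 = 2 ^ k := by
        unfold scal
        rw [pow_one, pow_zero, mul_one, pow_mul' (2 : ℝ) 2 k]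
        field_simp
      have h2 : (2 : ℝ) ^ k * 1 = 2 ^ k := mul_one _
      refine ⟨fun f hf => ?_, fun f hf => ?_, ?_⟩
      · simp [expA, leafA, h1, hP1]
      · simp [expA, leafA, h1, hP1]
      · simp only [expA, leafA, h1, hP1, Finset.card_singleton, if_true]
        push_cast
        rw [mul_one]
        have : (0 : ℝ) ≤ (2 ^ k) ^ 2 := by positivity
        linarith
    | succ l ih =>
      intro hl
      have hgood := ih (by omega)
      have hlk : l * (k + 1) < D * (k + 1) := Nat.mul_lt_mul_of_pos_right (by omega) (by omega)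
      have hlH : l * (k + 1) + 1 + k ≤ H := by
        have : (l + 1) * (k + 1) ≤ D * (k + 1) := Nat.mul_le_mul_right _ hl
        rw [Nat.succ_mul] at this
        omega
      have h5ρ : 5 * ρ ≤ B := by
        have h1 : ρ < 2 ^ ρ := Nat.lt_two_pow_self
        rw [← hR] at h1
        have h2 : (H + k) * (2 * R) ≥ k * (2 * R) := Nat.mul_le_mul_right _ (by omega)
        have h3 : k * (2 * R) ≥ k * 2 := Nat.mul_le_mul_left _ (by omega)
        omega
      -- gluing
      have hstep := glue_step (V := fun n => 7 ^ l * n < 2 * 8 ^ l)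
        (V' := fun n => 7 ^ (l + 1) * n < 2 * 8 ^ (l + 1)) (M' := fun n => scal R k 0 n / 2 ^ k)
        (P := P) (v := 2)
        (⟨Nat.mul_mod_left _ _, hlk⟩ : l * (k + 1) % (k + 1) = 0 ∧ l * (k + 1) < D * (k + 1))
        hR h5ρ (hs0 0) (fun n => div_pos (hs0 0 n) (by positivity))
        (one_le_pow₀ (by linarith)) (pow_nonneg (by linarith) _)
        (pow_le_one₀ (by linarith) (by linarith)) (by norm_num) hP1 hsup hbal hsum
        (by
          intro n m hn hV h1 h2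
          have e1 : 7 ^ (l + 1) * n = 7 ^ l * (7 * n) := by ring
          have e2 : 2 * 8 ^ (l + 1) = 8 * (2 * 8 ^ l) := by ring
          rw [e1, e2] at hV
          constructor
          · have h3 : 7 ^ l * (8 * m) ≤ 7 ^ l * (7 * n) := Nat.mul_le_mul_left _ h2
            have h4 : 7 ^ l * (8 * m) = 8 * (7 ^ l * m) := by ring
            omega
          · have h3 : 7 ^ l * (8 * (n - m)) ≤ 7 ^ l * (7 * n) := Nat.mul_le_mul_left _ (by omega)
            have h4 : 7 ^ l * (8 * (n - m)) = 8 * (7 ^ l * (n - m)) := by ring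
            omega)
        (by
          intro n m hn h1 h2
          obtain ⟨i, rfl⟩ : ∃ i, n = m + i := ⟨n - m, by omega⟩
          rw [Nat.add_sub_cancel_left]
          unfold scal
          rw [pow_add (2 ^ (2 * k) / (R : ℝ) ^ 5) m i]
          field_simp)
        (by
          unfold scal
          rw [pow_one, pow_zero, mul_one, pow_mul' (2 : ℝ) 2 k]
          field_simp)
        hgood
      obtain ⟨f1, -, f3, -⟩ := factors hη0 hη1 (l * (k + 1))
      have hstep' : Good G cell R k D B P (l * (k + 1) + 1)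
          (fun n => 7 ^ (l + 1) * n < 2 * 8 ^ (l + 1)) (fun n => scal R k 0 n / 2 ^ k)
          ((1 + η) ^ (2 ^ (l * (k + 1) + 1) - 1)) ((1 - η) ^ (2 ^ (l * (k + 1) + 1) - 1))
          (c + 4 * (R : ℝ) ^ 10) :=
        hstep.mono (fun _ h => h) (fun n => rfl)
          (fun n => div_pos (hs0 0 n) (by positivity)) f1 f3 (by
            rw [hcd]
            linarith)
      have hmer := merges (H := H) (fun n => div_pos (hs0 0 n) (by positivity)) hη0 hη1 hη hc
        hstep' k (by omega) (by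
          intro i hi
          have h1 : (l * (k + 1) + 1 + i) % (k + 1) = 1 + i := by
            rw [show l * (k + 1) + 1 + i = (1 + i) + (k + 1) * l by ring, Nat.add_mul_mod_self_left,
              Nat.mod_eq_of_lt (by omega)]
          rw [h1]
          omega)
      have hidx : (l + 1) * (k + 1) = l * (k + 1) + 1 + k := by ring
      rw [hidx]
      refine hmer.mono (fun _ h => h) (fun n => ?_)
        (fun n => by have := hs0 0 n; positivity) le_rfl le_rfl ?_
      · field_simp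
      · have h1 : (8 : ℝ) * (R : ℝ) ^ 10 ≤ 2 ^ k := by
          rw [hR]
          push_cast
          rw [← pow_mul, show (8 : ℝ) = 2 ^ 3 by norm_num, ← pow_add]
          exact pow_le_pow_right₀ (by norm_num) (by omega)
        have h2 : 4 * (R : ℝ) ^ 10 / 2 ^ k ≤ 1 / 2 := by
          rw [div_le_iff₀ (by positivity)]
          linarith
        rw [hcd]
        linarith
  -- the last mergings
  intro n hn hnR
  have hD' := hfull D le_rfl
  have hlast := merges (v := 2 - c) (H := H) (hs0 0) hη0 hη1 hη hc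
    (hD'.mono (fun _ h => h) (fun _ => rfl) (hs0 0) le_rfl le_rfl (by linarith)) e (by omega) (by
      intro i hi
      omega)
  rw [← hH] at hlast
  have hVn : 7 ^ D * n < 2 * 8 ^ D := by
    have h1 : 2 ^ ρ * 7 ^ D ≤ 8 ^ D := by
      obtain ⟨d, rfl⟩ := Nat.exists_eq_add_of_le hD
      rw [pow_add, pow_add, pow_mul, pow_mul, ← mul_assoc, ← mul_pow]
      exact Nat.mul_le_mul (Nat.pow_le_pow_left (by norm_num) _) (Nat.pow_le_pow_left (by norm_num) _)
    have h2 : 7 ^ D * n ≤ 7 ^ D * 2 ^ ρ := Nat.mul_le_mul_left _ (by omega)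
    have h3 : 0 < 8 ^ D := by positivity
    rw [Nat.mul_comm (7 ^ D) (2 ^ ρ)] at h2
    omega
  obtain ⟨-, g2, g3⟩ := hlast n hn hnR hVn
  have hsc : scal R k e n = 2 ^ e * scal R k 0 n := by
    unfold scal
    rw [pow_zero]
    ring
  simp only [← hsc] at g2 g3
  have g2' := g2 (fun _ => 1) (fun _ => zero_le_one)
  simp only [mul_one, Finset.sum_const, nsmul_eq_mul] at g2'
  set X := scal R k e n * ((P n).card : ℝ) with hX
  have hX0 : 0 ≤ X := by
    have := hs0 e n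
    positivity
  have hexp : expA G cell R k D B H (fun x => (((x n).1 : ℝ) - X) ^ 2) =
      expA G cell R k D B H (fun x => ((x n).1 : ℝ) ^ 2) +
        (-2 * X) * expA G cell R k D B H (fun x => ((x n).1 : ℝ)) + X ^ 2 := by
    have h1 : ∀ x : Arr α, (((x n).1 : ℝ) - X) ^ 2 =
        (((x n).1 : ℝ) ^ 2 + (-2 * X) * ((x n).1 : ℝ)) + X ^ 2 := fun x => by ring
    simp only [h1]
    rw [expA_add, expA_const, expA_add, expA_mul]
  rw [hexp]
  have hLX : (1 - 1 / 2 ^ (q + 4)) * X ≤ expA G cell R k D B H (fun x => ((x n).1 : ℝ)) := by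
    refine le_trans ?_ g2'
    rw [mul_assoc, ← hX]
    exact mul_le_mul_of_nonneg_right hL hX0
  have h1 := mul_le_mul_of_nonneg_left hLX (by linarith : 0 ≤ 2 * X)
  have h2 : (2 - c) / 2 ^ e ≤ 2 / 2 ^ e := by
    refine div_le_div_of_nonneg_right ?_ (by positivity)
    linarith
  have h3 : (1 : ℝ) / 2 ^ (q + 2) + 2 * (1 / 2 ^ (q + 4)) ≤ 1 / 2 ^ q := by
    rw [pow_add (2 : ℝ) q 2, pow_add (2 : ℝ) q 4]
    have h4 : (0 : ℝ) < 1 / 2 ^ q := by positivity
    have h5 : (1 : ℝ) / (2 ^ q * 2 ^ 2) = 1 / 2 ^ q / 4 := by field_simp; norm_num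
    have h6 : (1 : ℝ) / (2 ^ q * 2 ^ 4) = 1 / 2 ^ q / 16 := by field_simp; norm_num
    rw [h5, h6]
    linarith
  have h4 : (c + (2 - c) / 2 ^ e) * X ^ 2 - 2 * X * ((1 - 1 / 2 ^ (q + 4)) * X) + X ^ 2 ≤
      (1 / 2 ^ q + 2 / 2 ^ e) * X ^ 2 := by
    have h5 : (c + (2 - c) / 2 ^ e) * X ^ 2 - 2 * X * ((1 - 1 / 2 ^ (q + 4)) * X) + X ^ 2 =
        (c - 1 + 2 * (1 / 2 ^ (q + 4)) + (2 - c) / 2 ^ e) * X ^ 2 := by ring
    rw [h5]
    refine mul_le_mul_of_nonneg_right ?_ (by positivity)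
    rw [hcd] at h2 ⊢
    linarith
  linarith

end Pool.Agent.Lib.MP_104326_lc.KR
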