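import Pool.Agent.Lib.MP_104326_lc.KR.Par
import Pool.Agent.Lib.MP_104326_lc.KR.C2
import Pool.Agent.Lib.MP_104326_lc.KR.C1
import Pool.Agent.Lib.MP_104326_lc.KR.A1
import Pool.Agent.Lib.MP_104326_lc.KR.A3
import Pool.Agent.Lib.MP_104326_lc.KC.A3

/-! # KR, module E0: the deviation of the estimates -/

set_option autoImplicit false

namespace Pool.Agent.Lib.MP_104326_lc.KR

open Pool.Agent.Lib.PolyTime

theorem scal_eq {ρ e p : ℕ} (hp : 1 ≤ p) : scal (2 ^ ρ) (kk ρ) e p = 2 ^ sexp ρ e p := by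
  have h1 : sexp ρ e p + (5 * ρ + 3) = (15 * ρ + 6) * p + e := by
    unfold sexp
    have : (15 * ρ + 6) * 1 ≤ (15 * ρ + 6) * p := Nat.mul_le_mul_left _ hp
    omega
  have h2 : (2 : ℝ) ^ sexp ρ e p * 2 ^ (5 * ρ + 3) = 2 ^ ((15 * ρ + 6) * p + e) := by
    rw [← pow_add, h1]
  have h3 : (2 : ℝ) ^ (2 * kk ρ) / ((2 ^ ρ : ℕ) : ℝ) ^ 5 = 2 ^ (15 * ρ + 6) := by
    push_cast
    rw [← pow_mul, div_eq_iff (by positivity), ← pow_add]
    congr 1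
    unfold kk
    ring
  have h4 : ((2 ^ ρ : ℕ) : ℝ) ^ 5 / 2 ^ kk ρ * 2 ^ (5 * ρ + 3) = 1 := by
    push_cast
    rw [← pow_mul, div_mul_eq_mul_div, div_eq_one_iff_eq (by positivity), ← pow_add]
    congr 1
    unfold kk
    ring
  have h5 : scal (2 ^ ρ) (kk ρ) e p * 2 ^ (5 * ρ + 3) = 2 ^ ((15 * ρ + 6) * p + e) := by
    unfold scal
    rw [h3, ← pow_mul]
    calc (2 : ℝ) ^ ((15 * ρ + 6) * p) * (((2 ^ ρ : ℕ) : ℝ) ^ 5 / 2 ^ kk ρ) * 2 ^ e * 2 ^ (5 * ρ + 3)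
        = 2 ^ ((15 * ρ + 6) * p) * 2 ^ e * (((2 ^ ρ : ℕ) : ℝ) ^ 5 / 2 ^ kk ρ * 2 ^ (5 * ρ + 3)) := by
          ring
      _ = 2 ^ ((15 * ρ + 6) * p + e) := by rw [h4, mul_one, ← pow_add]
  have h6 : (0 : ℝ) < 2 ^ (5 * ρ + 3) := by positivity
  exact mul_right_cancel₀ h6.ne' (h5.trans h2.symm)

theorem avgB_card (L : ℕ) (Q : List Bool → Prop) [DecidablePred Q] :
    avgB L (fun r => if Q r then 1 else 0) =
      ((Finset.univ.filter (fun v : Fin L → Bool => Q (List.ofFn v))).card : ℝ) / 2 ^ L := by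
  unfold avgB
  rw [Finset.sum_boole]

theorem avgB_mono {L : ℕ} {F F' : List Bool → ℝ} (h : ∀ r, r.length = L → F r ≤ F' r) :
    avgB L F ≤ avgB L F' := by
  unfold avgB
  refine div_le_div_of_nonneg_right ?_ (by positivity)
  exact Finset.sum_le_sum fun v _ => h _ (List.length_ofFn)

theorem avgB_sum {L : ℕ} {ι : Type} (s : Finset ι) (F : ι → List Bool → ℝ) :
    avgB L (fun r => ∑ i ∈ s, F i r) = ∑ i ∈ s, avgB L (F i) := by
  unfold avgB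
  rw [← Finset.sum_div, Finset.sum_comm]

theorem avgB_mul {L : ℕ} (c : ℝ) (F : List Bool → ℝ) :
    avgB L (fun r => c * F r) = c * avgB L F := by
  unfold avgB
  rw [← Finset.mul_sum, mul_div_assoc]

theorem bb_pos (ρ R e : ℕ) : 1 ≤ bb ρ R e := by
  unfold bb
  omega

/-- The second moment of the estimate. -/
theorem second {ρ e n : ℕ} (hn : 1 ≤ n) (hn2 : n < 2 ^ ρ) :
    avgB (nbits ρ e) (fun r =>
      (((LArr.at (arr ρ (2 ^ ρ) e r) n).1.val : ℝ) - 2 ^ sexp ρ e n * t n) ^ 2) ≤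
      3 / 2 ^ e * (2 ^ sexp ρ e n * t n) ^ 2 := by
  have h1 := moment P (glueW (2 ^ ρ)) [(0, 0)] (R := 2 ^ ρ) (ρ := ρ) (k := kk ρ) (D := dd ρ) (e := e)
    (B := bb ρ (2 ^ ρ) e) (q := e) rfl (by unfold kk; omega) (by unfold dd; omega)
    (by unfold bb hh; omega) P_one
    (fun n hn => by
      rw [← Finset.card_pos, card_P hn]
      exact t_pos n)
    (fun a b ha hb => by
      rw [card_P ha, card_P hb, card_P (by omega)]
      exact t_mul_le ha hb)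
    (fun n w A B h => glueW_ne_none h)
    (fun n hn hR f => glue_sum hn hR f) n hn hn2
  rw [scal_eq hn, card_P hn] at h1
  have h2 := avgB_runA (glueW (2 ^ ρ)) [(0, 0)] (2 ^ ρ) (kk ρ) (dd ρ) (bb ρ (2 ^ ρ) e)
    (dd ρ * (kk ρ + 1) + e) (fun x => (((x n).1 : ℝ) - 2 ^ sexp ρ e n * t n) ^ 2)
  have h3 : avgB (nbits ρ e) (fun r =>
      (((LArr.at (arr ρ (2 ^ ρ) e r) n).1.val : ℝ) - 2 ^ sexp ρ e n * t n) ^ 2) ≤
      avgB (nbits ρ e) (fun r => (((runA (glueW (2 ^ ρ)) [(0, 0)] (2 ^ ρ) (kk ρ) (dd ρ)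
        (bb ρ (2 ^ ρ) e) (dd ρ * (kk ρ + 1) + e) r n).1 : ℝ) - 2 ^ sexp ρ e n * t n) ^ 2) := by
    refine avgB_mono fun r hr => ?_
    have h4 := toA_runL (R := 2 ^ ρ) (k := kk ρ) (D := dd ρ) (bb_pos ρ (2 ^ ρ) e) hr
    have h5 := congrFun h4 n
    have h6 : (LArr.at (arr ρ (2 ^ ρ) e r) n).1.val = (runA (glueW (2 ^ ρ)) [(0, 0)] (2 ^ ρ) (kk ρ)
        (dd ρ) (bb ρ (2 ^ ρ) e) (dd ρ * (kk ρ + 1) + e) r n).1 := by
      have := congrArg Prod.fst h5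
      exact this
    rw [h6]
  refine h3.trans ?_
  have h4 : nbits ρ e = bb ρ (2 ^ ρ) e * (2 ^ (dd ρ * (kk ρ + 1) + e) - 1) := rfl
  rw [h4, h2]
  refine h1.trans (le_of_eq ?_)
  ring

theorem dev {ρ e n : ℕ} (hn : 1 ≤ n) (hn2 : n < 2 ^ ρ) {τ : ℝ} (hτ : 0 < τ) :
    avgB (nbits ρ e) (fun r => if τ * (2 ^ sexp ρ e n * t n) <
      |((LArr.at (arr ρ (2 ^ ρ) e r) n).1.val : ℝ) - 2 ^ sexp ρ e n * t n| then 1 else 0) ≤
      3 / (2 ^ e * τ ^ 2) := by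
  have ht : (0 : ℝ) < t n := by exact_mod_cast t_pos n
  set X : ℝ := 2 ^ sexp ρ e n * t n with hX
  have hX0 : 0 < X := by positivity
  have h1 : avgB (nbits ρ e) (fun r => if τ * X <
      |((LArr.at (arr ρ (2 ^ ρ) e r) n).1.val : ℝ) - X| then 1 else 0) ≤
      avgB (nbits ρ e) (fun r => (1 / (τ * X) ^ 2) *
        (((LArr.at (arr ρ (2 ^ ρ) e r) n).1.val : ℝ) - X) ^ 2) := by
    refine avgB_mono fun r _ => ?_
    split_ifs with h
    · rw [one_div, inv_mul_eq_div, one_le_div (by positivity)]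
      have h2 := pow_le_pow_left₀ (by positivity) h.le 2
      rwa [sq_abs] at h2
    · positivity
  refine h1.trans ?_
  rw [avgB_mul]
  have h2 := mul_le_mul_of_nonneg_left (second (e := e) hn hn2)
    (by positivity : 0 ≤ 1 / (τ * X) ^ 2)
  rw [← hX] at h2
  refine h2.trans (le_of_eq ?_)
  field_simp

end Pool.Agent.Lib.MP_104326_lc.KR
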