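import Pool.Agent.Lib.MP_104326_lc.KR.Defs
import Pool.Agent.Lib.MP_104326_lc.KC.D0a

/-! KR, module D1: the operations on polyominoes are polynomial time functions. -/

set_option autoImplicit false

namespace Pool.Agent.Lib.MP_104326_lc.KR

open Pool.Agent.Lib.PolyTime

variable {β : Type} [Enc β]

/-! ### Sizes -/

theorem size_sublist {α : Type} [Enc α] {l' l : List α} (h : l'.Sublist l) : size l' ≤ size l := by
  induction h with
  | slnil => exact le_refl _
  | cons a _ ih => rw [size_cons]; omega
  | cons_cons a _ ih => rw [size_cons, size_cons]; omega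

theorem grow_sublist (L X : List NC) : (grow L X).Sublist L := List.filter_sublist

theorem comp_iter_sublist (L : List NC) (c : NC) (i : ℕ) :
    ((grow L)^[i] (L.filter (fun p => decide (p = c)))).Sublist L := by
  cases i with
  | zero => exact List.filter_sublist
  | succ i => rw [Function.iterate_succ_apply']; exact grow_sublist _ _

theorem comp_sublist (L : List NC) (c : NC) : (comp L c).Sublist L := comp_iter_sublist L c _

theorem largest_fold_sublist (L l : List NC) :
    (l.foldl (fun best c => if best.length < (comp L c).length then comp L c else best)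
      []).Sublist L := by
  induction l using List.reverseRecOn with
  | nil => exact List.nil_sublist _
  | append_singleton l c ih =>
    rw [List.foldl_append, List.foldl_cons, List.foldl_nil]
    split_ifs
    · exact comp_sublist L c
    · exact ih

theorem largest_sublist (L : List NC) : (largest L).Sublist L := largest_fold_sublist L L

theorem stepB_sublist (Z B : List NC) : (stepB Z B).Sublist B := by
  unfold stepB
  split_ifs
  · exact List.Sublist.refl _
  · cases pick Z B with
    | none => exact List.Sublist.refl _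
    | some b => exact (largest_sublist _).trans List.filter_sublist

theorem stepB_iter_sublist (Z B : List NC) (i : ℕ) : ((stepB Z)^[i] B).Sublist B := by
  induction i with
  | zero => exact List.Sublist.refl _
  | succ i ih => rw [Function.iterate_succ_apply']; exact (stepB_sublist _ _).trans ih

/-! ### The functions -/

theorem PT_powC {f : β → ℕ} (hf : PT f) (k : ℕ) : PT (fun a => f a ^ k) := by
  induction k with
  | zero => exact (PT.const 1).congr (fun a => (pow_zero _).symm)
  | succ k ih => exact (PT.mul ih hf).congr (fun a => (pow_succ _ _).symm)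

theorem PT_isAdj {p q : β → NC} (hp : PT p) (hq : PT q) : PT (fun b => isAdj (p b) (q b)) :=
  PT.or (PT.and (PT.eq hp.fst' hq.fst')
      (PT.or (PT.eq hp.snd' hq.snd'.succ) (PT.eq hq.snd' hp.snd'.succ)))
    (PT.and (PT.eq hp.snd' hq.snd')
      (PT.or (PT.eq hp.fst' hq.fst'.succ) (PT.eq hq.fst' hp.fst'.succ)))

theorem PT_grow {L X : β → List NC} (hL : PT L) (hX : PT X) :
    PT (fun b => grow (L b) (X b)) :=
  PT.filter (f := L) (p := fun b p => (X b).any (fun q => decide (p = q) || isAdj p q)) hL
    (PT.any (f := fun y : β × NC => X y.1) (p := fun y q => decide (y.2 = q) || isAdj y.2 q)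
      (hX.comp PT.fst) (PT.or (PT.eq PT.fst.snd' PT.snd) (PT_isAdj PT.fst.snd' PT.snd)))

theorem PT_comp {L : β → List NC} {c : β → NC} (hL : PT L) (hc : PT c) :
    PT (fun b => comp (L b) (c b)) := by
  obtain ⟨p, hp⟩ := hL.size_le
  exact PT.iterate (f := fun b => (L b).length)
    (init := fun b => (L b).filter (fun p => decide (p = c b)))
    (step := fun b X => grow (L b) X) (PT.length hL)
    (PT.filter (f := L) (p := fun b p => decide (p = c b)) hL
      (PT.eq PT.snd (hc.comp PT.fst)))
    (PT_grow (hL.comp PT.fst) PT.snd) (PB.poly p)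
    (fun a i _ => (size_sublist (comp_iter_sublist (L a) (c a) i)).trans (hp a))

theorem PT_isConn {L : β → List NC} (hL : PT L) : PT (fun b => isConn (L b)) :=
  PT.and (PT.not (PT.isNil hL))
    (PT.all (f := L) (p := fun b c => decide (comp (L b) c = L b)) hL
      (PT.eq (PT_comp (hL.comp PT.fst) PT.snd) (hL.comp PT.fst)))

theorem PT_isNorm {L : β → List NC} (hL : PT L) : PT (fun b => isNorm (L b)) :=
  PT.and (PT.any (f := L) (p := fun _ p => decide (p.1 = 0)) hL
      (PT.eq PT.snd.fst' (PT.const 0)))
    (PT.any (f := L) (p := fun _ p => decide (p.2 = 0)) hL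
      (PT.eq PT.snd.snd' (PT.const 0)))

theorem PT_diff {Z B : β → List NC} (hZ : PT Z) (hB : PT B) : PT (fun b => diff (Z b) (B b)) :=
  PT.filter (f := Z) (p := fun b p => !((B b).any (fun q => decide (p = q)))) hZ
    (PT.not (PT.any (f := fun y : β × NC => B y.1) (p := fun y q => decide (y.2 = q))
      (hB.comp PT.fst) (PT.eq PT.fst.snd' PT.snd)))

theorem PT_pick {Z B : β → List NC} (hZ : PT Z) (hB : PT B) : PT (fun b => pick (Z b) (B b)) :=
  PT.ite (c := fun b => B b = Z b) (PT.eq hB hZ) (PT.head? hZ)
    (PT.head? (PT.filter (f := B)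
      (p := fun b p => (diff (Z b) (B b)).any (fun q => isAdj p q)) hB
      (PT.any (f := fun y : β × NC => diff (Z y.1) (B y.1)) (p := fun y q => isAdj y.2 q)
        (PT_diff (hZ.comp PT.fst) (hB.comp PT.fst)) (PT_isAdj PT.fst.snd' PT.snd))))

theorem PT_largest {L : β → List NC} (hL : PT L) : PT (fun b => largest (L b)) := by
  obtain ⟨p, hp⟩ := hL.size_le
  refine PT.foldl (f := L) (init := fun _ => ([] : List NC))
    (step := fun b best c => if best.length < (comp (L b) c).length then comp (L b) c else best)
    hL (PT.const _) ?_ (PB.poly p)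
    (fun a l' _ => (size_sublist (largest_fold_sublist (L a) l')).trans (hp a))
  have hc : PT (fun y : β × (List NC × NC) => comp (L y.1) y.2.2) :=
    PT_comp (hL.comp PT.fst) PT.snd.snd'
  exact PT.ite (c := fun y : β × (List NC × NC) => y.2.1.length < (comp (L y.1) y.2.2).length)
    (PT.lt (PT.length PT.snd.fst') (PT.length hc)) hc PT.snd.fst'

theorem PT_stepB {Z B : β → List NC} (hZ : PT Z) (hB : PT B) : PT (fun b => stepB (Z b) (B b)) := by
  refine PT.ite (c := fun b => (Z b).length ≤ 4 * (diff (Z b) (B b)).length + 1)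
    (PT.le (PT.length hZ) ((PT.length (PT_diff hZ hB)).mulConst 4).succ) hB ?_
  exact (PT.optCases (f := fun b => pick (Z b) (B b)) (g := B)
    (h := fun b c => largest ((B b).filter (fun p => !decide (p = c)))) (PT_pick hZ hB) hB
    (PT_largest (PT.filter (f := fun y : β × NC => B y.1) (p := fun y p => !decide (p = y.2))
      (hB.comp PT.fst) (PT.not (PT.eq PT.snd PT.fst.snd'))))).congr
    (fun b => by cases pick (Z b) (B b) <;> rfl)

theorem PT_splitB {Z : β → List NC} (hZ : PT Z) : PT (fun b => splitB (Z b)) := by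
  obtain ⟨p, hp⟩ := hZ.size_le
  exact PT.iterate (f := fun b => (Z b).length) (init := Z) (step := fun b B => stepB (Z b) B)
    (PT.length hZ) hZ (PT_stepB (hZ.comp PT.fst) PT.snd) (PB.poly p)
    (fun a i _ => (size_sublist (stepB_iter_sublist (Z a) (Z a) i)).trans (hp a))

theorem PT_shift {s : β → NC} {L : β → List NC} (hs : PT s) (hL : PT L) :
    PT (fun b => shift (s b) (L b)) :=
  PT.map (f := L) (g := fun b p => (p.1 + (s b).1, p.2 + (s b).2)) hL
    (PT.pair (PT.add PT.snd.fst' (hs.comp PT.fst).fst') (PT.add PT.snd.snd' (hs.comp PT.fst).snd'))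

theorem PT_grid {R : β → ℕ} (hR : PT R) : PT (fun b => grid (R b)) :=
  PT.flatMap (f := fun b => List.range (R b))
    (g := fun b x => (List.range (R b)).map (fun y => (x, y))) (PT.range hR)
    (PT.map (f := fun z : β × ℕ => List.range (R z.1)) (g := fun z y => (z.2, y))
      (PT.range (hR.comp PT.fst)) (PT.pair PT.fst.snd' PT.snd))

theorem PT_union {R : β → ℕ} {A B : β → List NC} (hR : PT R) (hA : PT A) (hB : PT B) :
    PT (fun b => union (R b) (A b) (B b)) :=
  PT.filter (f := fun b => grid (R b))
    (p := fun b p => (A b).any (fun q => decide (p = q)) || (B b).any (fun q => decide (p = q)))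
    (PT_grid hR)
    (PT.or
      (PT.any (f := fun y : β × NC => A y.1) (p := fun y q => decide (y.2 = q))
        (hA.comp PT.fst) (PT.eq PT.fst.snd' PT.snd))
      (PT.any (f := fun y : β × NC => B y.1) (p := fun y q => decide (y.2 = q))
        (hB.comp PT.fst) (PT.eq PT.fst.snd' PT.snd)))

theorem PT_glue {R n m : β → ℕ} {s t : β → NC} {A B : β → List NC} (hR : PT R) (hn : PT n)
    (hm : PT m) (hs : PT s) (ht : PT t) (hA : PT A) (hB : PT B) :
    PT (fun b => glue (R b) (n b) (m b) (s b) (t b) (A b) (B b)) := by
  have hsA := PT_shift hs hA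
  have htB := PT_shift ht hB
  have hU := PT_union hR hsA htB
  have hS := PT_splitB hU
  refine PT.ite (c := fun b => n b ≤ 8 * m b ∧ 8 * m b ≤ 7 * n b ∧
      (union (R b) (shift (s b) (A b)) (shift (t b) (B b))).length = n b ∧
      isConn (union (R b) (shift (s b) (A b)) (shift (t b) (B b))) = true ∧
      isNorm (union (R b) (shift (s b) (A b)) (shift (t b) (B b))) = true ∧
      diff (union (R b) (shift (s b) (A b)) (shift (t b) (B b)))
        (splitB (union (R b) (shift (s b) (A b)) (shift (t b) (B b)))) = shift (s b) (A b) ∧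
      splitB (union (R b) (shift (s b) (A b)) (shift (t b) (B b))) = shift (t b) (B b))
    ?_ hU.some (PT.const none)
  refine (PT.and (PT.le hn (hm.mulConst 8)) (PT.and (PT.le (hm.mulConst 8) (hn.mulConst 7))
    (PT.and (PT.eq (PT.length hU) hn) (PT.and (PT_isConn hU) (PT.and (PT_isNorm hU)
      (PT.and (PT.eq (PT_diff hU hS) hsA) (PT.eq hS htB))))))).congr (fun b => ?_)
  simp only [Bool.decide_and, Bool.decide_eq_true]

theorem PT_glueW {R n w : β → ℕ} {A B : β → List NC} (hR : PT R) (hn : PT n) (hw : PT w)
    (hA : PT A) (hB : PT B) : PT (fun b => glueW (R b) (n b) (w b) (A b) (B b)) :=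
  PT_glue hR hn (PT_mod hw hR)
    (PT.pair (PT_mod (PT_div hw hR) hR) (PT_mod (PT_div hw (PT_powC hR 2)) hR))
    (PT.pair (PT_mod (PT_div hw (PT_powC hR 3)) hR) (PT_mod (PT_div hw (PT_powC hR 4)) hR)) hA hB

end Pool.Agent.Lib.MP_104326_lc.KR
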