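import Pool.Agent.Lib.MP_104326_lc.KR.Defs

/-!
# KR / D2: the list version of the sampler

Sample arrays are lists; the binary tree of combinations is computed by one fold over the blocks of
random bits with a stack of arrays (post-order).
-/

set_option autoImplicit false

namespace Pool.Agent.Lib.MP_104326_lc.KR

open Pool.Agent.Lib.PolyTime

/-- Sample arrays as lists. -/
abbrev LArr := List (BN × List NC)

/-- Entry of an array. -/
def LArr.at (x : LArr) (n : ℕ) : BN × List NC := x.getD n (⟨0⟩, [(0, 0)])

/-- The function given by a list. -/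
def toA (x : LArr) : Arr (List NC) := fun n => ((LArr.at x n).1.val, (LArr.at x n).2)

/-- Entry `n` of the glued array. -/
def glueE (R : ℕ) (u : BN) (x y : LArr) (n : ℕ) : BN × List NC :=
  if n = 1 then (⟨1⟩, [(0, 0)])
  else if n < R then
    match glueW R n (u.val % R ^ 5) (LArr.at x (u.val % R)).2 (LArr.at y (n - u.val % R)).2 with
    | some Z => (⟨(LArr.at x (u.val % R)).1.val * (LArr.at y (n - u.val % R)).1.val⟩, Z)
    | none => (⟨0⟩, [(0, 0)])
  else (⟨0⟩, [(0, 0)])

/-- Entry `n` of the merged array. -/
def mergeE (B : ℕ) (u : BN) (x y : LArr) (n : ℕ) : BN × List NC :=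
  if u.val * ((LArr.at x n).1.val + (LArr.at y n).1.val) < (LArr.at y n).1.val * 2 ^ B then
    (⟨(LArr.at x n).1.val + (LArr.at y n).1.val⟩, (LArr.at y n).2)
  else (⟨(LArr.at x n).1.val + (LArr.at y n).1.val⟩, (LArr.at x n).2)

/-- The list version of `combA`. -/
def combL (R k D B h : ℕ) (u : BN) (x y : LArr) : LArr :=
  if h % (k + 1) = 0 ∧ h < D * (k + 1) then (List.range (R + 2)).map (glueE R u x y)
  else (List.range (R + 2)).map (mergeE B u x y)

/-- The list version of `leafA`. -/
def leafL (_R k : ℕ) : LArr := [(⟨0⟩, [(0, 0)]), (⟨2 ^ k⟩, [(0, 0)])]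

/-- Blocks of `B` bits. -/
def chunks (B : ℕ) (r : List Bool) : List (List Bool) :=
  (List.range (r.length / B)).map (fun i => (r.drop (B * i)).take B)

/-- One step: if the two uppermost arrays have the same height combine them, otherwise push the
combination of two leaves. -/
def stepS (R k D B : ℕ) (st : List (ℕ × LArr)) (w : List Bool) : List (ℕ × LArr) :=
  match st with
  | (h1, y) :: (h2, x) :: rest =>
    if h1 = h2 then (h1 + 1, combL R k D B h1 ⟨msb w⟩ x y) :: rest
    else (1, combL R k D B 0 ⟨msb w⟩ (leafL R k) (leafL R k)) :: st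
  | _ => (1, combL R k D B 0 ⟨msb w⟩ (leafL R k) (leafL R k)) :: st

/-- The sampler on lists. -/
def runL (R k D B : ℕ) (r : List Bool) : LArr :=
  (((chunks B r).foldl (stepS R k D B) []).headD (0, leafL R k)).2

/-! ### arrays -/

theorem at_range_map (m : ℕ) (f : ℕ → BN × List NC) (n : ℕ) :
    LArr.at ((List.range m).map f) n = if n < m then f n else (⟨0⟩, [(0, 0)]) := by
  unfold LArr.at
  rw [List.getD_eq_getElem?_getD]
  by_cases h : n < m
  · rw [if_pos h, List.getElem?_eq_getElem (by simpa using h)]
    simp
  · rw [if_neg h, List.getElem?_eq_none (by simpa using h)]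
    rfl

theorem at_of_length_le {x : LArr} {n : ℕ} (h : x.length ≤ n) : LArr.at x n = (⟨0⟩, [(0, 0)]) := by
  unfold LArr.at
  rw [List.getD_eq_getElem?_getD, List.getElem?_eq_none h]
  rfl

theorem length_combL (R k D B h : ℕ) (u : BN) (x y : LArr) :
    (combL R k D B h u x y).length = R + 2 := by
  unfold combL
  split_ifs <;> simp

theorem toA_leafL (R k : ℕ) : toA (leafL R k) = leafA k [(0, 0)] := by
  funext n
  unfold toA leafA leafL LArr.at
  match n with
  | 0 => simp
  | 1 => simp
  | n + 2 => simp

theorem toA_combL {R k D B h : ℕ} {u : BN} {x y : LArr} (hx : x.length ≤ R + 2)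
    (hy : y.length ≤ R + 2) :
    toA (combL R k D B h u x y) =
      combA (glueW R) [(0, 0)] R k D B h u.val (toA x) (toA y) := by
  funext n
  unfold combL combA
  split_ifs with hc
  · unfold glueA toA
    rw [at_range_map]
    by_cases h1 : n = 1
    · subst h1
      simp [glueE]
    · by_cases h2 : n < R
      · rw [if_pos (by omega), if_neg h1, if_pos h2]
        unfold glueE
        rw [if_neg h1, if_pos h2]
        dsimp only
        split <;> simp_all
      · rw [if_neg h1, if_neg h2]
        unfold glueE
        rw [if_neg h1, if_neg h2]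
        split_ifs <;> rfl
  · unfold mergeA toA
    rw [at_range_map]
    by_cases h2 : n < R + 2
    · rw [if_pos h2]
      unfold mergeE
      dsimp only
      split_ifs <;> rfl
    · rw [if_neg h2, at_of_length_le (by omega : x.length ≤ n),
        at_of_length_le (by omega : y.length ≤ n)]
      simp

/-! ### blocks -/

theorem chunks_nil (B : ℕ) : chunks B [] = [] := by simp [chunks]

theorem chunks_single {B : ℕ} (hB : 1 ≤ B) {w : List Bool} (hw : w.length = B) :
    chunks B w = [w] := by
  unfold chunks
  rw [hw, Nat.div_self (by omega)]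
  simp [List.take_of_length_le hw.le]

theorem chunks_append {B m : ℕ} (hB : 1 ≤ B) {a : List Bool} (ha : a.length = B * m)
    (b : List Bool) : chunks B (a ++ b) = chunks B a ++ chunks B b := by
  unfold chunks
  have e1 : (a ++ b).length / B = m + b.length / B := by
    rw [List.length_append, ha, Nat.mul_add_div (by omega)]
  have e2 : a.length / B = m := by rw [ha, Nat.mul_div_cancel_left _ (by omega)]
  rw [e1, e2, List.range_add, List.map_append, List.map_map]
  congr 1
  · apply List.map_congr_left
    intro i hi
    have hi' : i < m := List.mem_range.1 hi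
    have h3 : B * i + B ≤ a.length := by
      rw [ha]
      calc B * i + B = B * (i + 1) := by ring
        _ ≤ B * m := Nat.mul_le_mul_left _ hi'
    rw [List.drop_append_of_le_length (by omega), List.take_append_of_le_length]
    rw [List.length_drop]; omega
  · apply List.map_congr_left
    intro j _
    simp only [Function.comp]
    congr 1
    have e3 : B * (m + j) = a.length + B * j := by rw [ha]; ring
    rw [e3, List.drop_length_add_append]

/-! ### the stack -/

/-- The list version of `runA`. -/
def runR (R k D B : ℕ) : ℕ → List Bool → LArr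
  | 0, _ => leafL R k
  | h + 1, r => combL R k D B h ⟨msb (r.drop (2 * (B * (2 ^ h - 1))))⟩
      (runR R k D B h (r.take (B * (2 ^ h - 1))))
      (runR R k D B h ((r.drop (B * (2 ^ h - 1))).take (B * (2 ^ h - 1))))

theorem length_runR (R k D B : ℕ) : ∀ (h : ℕ) (r : List Bool), (runR R k D B h r).length ≤ R + 2
  | 0, _ => by simp [runR, leafL]
  | h + 1, r => by rw [runR, length_combL]

theorem toA_runR (R k D B : ℕ) : ∀ (h : ℕ) (r : List Bool),
    toA (runR R k D B h r) = runA (glueW R) [(0, 0)] R k D B h r
  | 0, _ => by rw [runR, runA, toA_leafL]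
  | h + 1, r => by
    rw [runR, runA, toA_combL (length_runR _ _ _ _ _ _) (length_runR _ _ _ _ _ _),
      toA_runR R k D B h, toA_runR R k D B h]

/-- A stack over which a full tree of height `h` can be processed. -/
def OKs (h : ℕ) : List (ℕ × LArr) → Prop
  | [] => True
  | [(h1, _)] => h ≤ h1
  | (h1, _) :: (h2, _) :: _ => h ≤ h1 ∧ h1 ≠ h2

theorem fold_tree {R k D B : ℕ} (hB : 1 ≤ B) : ∀ (h : ℕ) (r : List Bool) (st : List (ℕ × LArr)),
    r.length = B * (2 ^ (h + 1) - 1) → OKs (h + 1) st →
    (chunks B r).foldl (stepS R k D B) st = (h + 1, runR R k D B (h + 1) r) :: st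
  | 0, r, st, hr, hst => by
    have hr' : r.length = B := by simpa using hr
    rw [chunks_single hB hr', List.foldl_cons, List.foldl_nil]
    have e : runR R k D B (0 + 1) r = combL R k D B 0 ⟨msb r⟩ (leafL R k) (leafL R k) := by
      simp [runR]
    rw [e]
    unfold stepS
    match st, hst with
    | [], _ => rfl
    | [(h1, x)], _ => rfl
    | (h1, y) :: (h2, x) :: rest, hst =>
      simp only [OKs] at hst
      simp [hst.2]
  | h + 1, r, st, hr, hst => by
    set M := B * (2 ^ (h + 1) - 1) with hM
    have h2 : r.length = M + M + B := by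
      rw [hr, hM, pow_succ 2 (h + 1)]
      have : 1 ≤ 2 ^ (h + 1) := Nat.one_le_two_pow
      obtain ⟨q, hq⟩ := Nat.exists_eq_add_of_le this
      rw [hq]
      have e1 : (1 + q) * 2 - 1 = 2 * q + 1 := by omega
      have e2 : 1 + q - 1 = q := by omega
      rw [e1, e2]
      ring
    have hsplit : r = r.take M ++ ((r.drop M).take M ++ r.drop (2 * M)) := by
      have : r.drop (2 * M) = (r.drop M).drop M := by rw [List.drop_drop]; congr 1; ring
      rw [this, List.take_append_drop, List.take_append_drop]
    have l1 : (r.take M).length = M := by rw [List.length_take]; omega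
    have l2 : ((r.drop M).take M).length = M := by
      rw [List.length_take, List.length_drop]; omega
    have l3 : (r.drop (2 * M)).length = B := by rw [List.length_drop]; omega
    have hch : chunks B r = chunks B (r.take M) ++ (chunks B ((r.drop M).take M) ++
        [r.drop (2 * M)]) := by
      conv_lhs => rw [hsplit]
      rw [chunks_append hB (m := 2 ^ (h + 1) - 1) l1, chunks_append hB (m := 2 ^ (h + 1) - 1) l2,
        chunks_single hB l3]
    have ok1 : OKs (h + 1) st := by
      match st, hst with
      | [], _ => trivial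
      | [(h1, x)], hst => simp only [OKs] at hst ⊢; omega
      | (h1, y) :: (h2, x) :: rest, hst => simp only [OKs] at hst ⊢; exact ⟨by omega, hst.2⟩
    have ok2 : OKs (h + 1) ((h + 1, runR R k D B (h + 1) (r.take M)) :: st) := by
      match st, hst with
      | [], _ => simp [OKs]
      | [(h1, x)], hst => simp only [OKs] at hst ⊢; omega
      | (h1, y) :: (h2, x) :: rest, hst => simp only [OKs] at hst ⊢; omega
    rw [hch, List.foldl_append, List.foldl_append, fold_tree hB h _ _ l1 ok1,
      fold_tree hB h _ _ l2 ok2, List.foldl_cons, List.foldl_nil]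
    have e : runR R k D B (h + 1 + 1) r = combL R k D B (h + 1) ⟨msb (r.drop (2 * M))⟩
        (runR R k D B (h + 1) (r.take M)) (runR R k D B (h + 1) ((r.drop M).take M)) := rfl
    rw [e]
    simp [stepS]

theorem toA_runL {R k D B H : ℕ} (hB : 1 ≤ B) {r : List Bool} (hr : r.length = B * (2 ^ H - 1)) :
    toA (runL R k D B r) = runA (glueW R) [(0, 0)] R k D B H r := by
  unfold runL
  match H with
  | 0 =>
    have : r = [] := List.length_eq_zero_iff.1 (by simpa using hr)
    rw [this, chunks_nil, List.foldl_nil, runA, List.headD_nil, toA_leafL]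
  | H + 1 =>
    rw [fold_tree hB H r [] hr trivial, List.headD_cons, toA_runR]

end Pool.Agent.Lib.MP_104326_lc.KR
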