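import Pool.Agent.Lib.MP_104326_lc.KR.D1
import Pool.Agent.Lib.MP_104326_lc.KR.D2
import Pool.Agent.Lib.MP_104326_lc.KC.D0a

/-!
# KR, module D3: the sampling algorithm runs in polynomial time
-/

set_option autoImplicit false

namespace Pool.Agent.Lib.MP_104326_lc.KR

open Pool.Agent.Lib.PolyTime

section PT
variable {β : Type} [Enc β]

theorem PT_at {x : β → LArr} {n : β → ℕ} (hx : PT x) (hn : PT n) : PT (fun b => LArr.at (x b) (n b)) :=
  PT_getD' hx hn _

theorem PT_glueE {R n : β → ℕ} {u : β → BN} {x y : β → LArr} (hR : PT R) (hu : PT u) (hx : PT x) (hy : PT y)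
    (hn : PT n) : PT (fun b => glueE (R b) (u b) (x b) (y b) (n b)) := by
  have hr : PT (fun b => min ((u b).val % R b) (R b)) := PT.bnCap (PT.bnMod hu (PT.toBN hR)) hR
  have hR5 : PT (fun b => R b ^ 5) := by
    refine (PT.mul (PT.mul (PT.mul (PT.mul hR hR) hR) hR) hR).congr fun b => ?_
    ring
  have hw : PT (fun b => min ((u b).val % R b ^ 5) (R b ^ 5)) := PT.bnCap (PT.bnMod hu (PT.toBN hR5)) hR5
  have hX := PT_at hx hr
  have hY := PT_at hy (PT.sub hn hr)
  have hZ := PT_glueW hR hn hw hX.snd' hY.snd'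
  have hc : PT (fun _ : β => ((⟨0⟩, [(0, 0)]) : BN × List NC)) := PT.const _
  have hS : PT (fun p : β × List NC => ((⟨(LArr.at (x p.1) (min ((u p.1).val % R p.1) (R p.1))).1.val *
      (LArr.at (y p.1) (n p.1 - min ((u p.1).val % R p.1) (R p.1))).1.val⟩, p.2) : BN × List NC)) :=
    PT.pair ((PT.bnMul hX.fst' hY.fst').comp PT.fst) PT.snd
  have hM := PT.optCases (h := fun b Z => ((⟨(LArr.at (x b) (min ((u b).val % R b) (R b))).1.val *
      (LArr.at (y b) (n b - min ((u b).val % R b) (R b))).1.val⟩, Z) : BN × List NC)) hZ hc hS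
  refine (PT.ite (c := fun b => n b = 1) ((PT.eqConst 1).comp hn) (PT.const ((⟨1⟩, [(0, 0)]) : BN × List NC))
    (PT.ite (c := fun b => n b < R b) (PT.lt hn hR) hM hc)).congr fun b => ?_
  unfold glueE
  by_cases h1 : n b = 1
  · rw [if_pos h1, if_pos h1]
  rw [if_neg h1, if_neg h1]
  by_cases h2 : n b < R b
  · have hRpos : 0 < R b := by omega
    have e1 : min ((u b).val % R b) (R b) = (u b).val % R b := min_eq_left (Nat.mod_lt _ hRpos).le
    have e2 : min ((u b).val % R b ^ 5) (R b ^ 5) = (u b).val % R b ^ 5 :=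
      min_eq_left (Nat.mod_lt _ (pow_pos hRpos 5)).le
    rw [if_pos h2, if_pos h2]
    simp only [e1, e2]
    rcases glueW (R b) (n b) ((u b).val % R b ^ 5) (LArr.at (x b) ((u b).val % R b)).2
      (LArr.at (y b) (n b - (u b).val % R b)).2 with _ | Z <;> rfl
  · rw [if_neg h2, if_neg h2]

theorem PT_mergeE {B n : β → ℕ} {u : β → BN} {x y : β → LArr} (hB : PT B) (hu : PT u) (hx : PT x) (hy : PT y)
    (hn : PT n) : PT (fun b => mergeE (B b) (u b) (x b) (y b) (n b)) := by
  have hX := PT_at hx hn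
  have hY := PT_at hy hn
  have hs := PT.bnAdd hX.fst' hY.fst'
  exact PT.ite (c := fun b => (u b).val * ((LArr.at (x b) (n b)).1.val + (LArr.at (y b) (n b)).1.val) <
      (LArr.at (y b) (n b)).1.val * 2 ^ B b)
    (PT.bnLt (PT.bnMul hu hs) (PT.bnMul hY.fst' (PT.bnTwoPow hB))) (PT.pair hs hY.snd') (PT.pair hs hX.snd')

theorem PT_combL {R k D B h : β → ℕ} {u : β → BN} {x y : β → LArr} (hR : PT R) (hk : PT k) (hD : PT D)
    (hB : PT B) (hh : PT h) (hu : PT u) (hx : PT x) (hy : PT y) :
    PT (fun b => combL (R b) (k b) (D b) (B b) (h b) (u b) (x b) (y b)) := by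
  have hr := (hR.addConst 2).range
  have h1 : PT (fun b => (List.range (R b + 2)).map (glueE (R b) (u b) (x b) (y b))) :=
    PT.map hr (PT_glueE (hR.comp PT.fst) (hu.comp PT.fst) (hx.comp PT.fst) (hy.comp PT.fst) PT.snd)
  have h2 : PT (fun b => (List.range (R b + 2)).map (mergeE (B b) (u b) (x b) (y b))) :=
    PT.map hr (PT_mergeE (hB.comp PT.fst) (hu.comp PT.fst) (hx.comp PT.fst) (hy.comp PT.fst) PT.snd)
  refine PT.ite (c := fun b => h b % (k b + 1) = 0 ∧ h b < D b * (k b + 1)) ?_ h1 h2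
  refine (PT.and ((PT.eqConst 0).comp (PT_mod hh hk.succ)) (PT.lt hh (PT.mul hD hk.succ))).congr fun b => ?_
  rw [Bool.decide_and]

theorem PT_leafL {R k : β → ℕ} (hk : PT k) : PT (fun b => leafL (R b) (k b)) :=
  PT.cons (PT.const ((⟨0⟩, [(0, 0)]) : BN × List NC))
    (PT.cons (PT.pair (PT.bnTwoPow hk) (PT.const [(0, 0)])) (PT.const []))

theorem PT_take' {f : β → ℕ} {g : β → List Bool} (hf : PT f) (hg : PT g) : PT (fun b => (g b).take (f b)) := by
  refine (PT.flatMap (f := fun b => List.range (f b)) (g := fun b i => ((g b)[i]?).toList) hf.range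
    (PT.toList (PT.getElem? PT.snd (hg.comp PT.fst)))).congr fun b => ?_
  have key : ∀ (l : List Bool) (n : ℕ), (List.range n).flatMap (fun i => (l[i]?).toList) = l.take n := by
    intro l n
    induction n with
    | zero => rfl
    | succ n ih =>
      rw [List.range_succ, List.flatMap_append, ih, List.take_add_one]
      simp
  exact key _ _

theorem PT_chunks {B : β → ℕ} {r : β → List Bool} (hB : PT B) (hr : PT r) : PT (fun b => chunks (B b) (r b)) := by
  refine PT.map (PT_div hr.length hB).range ?_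
  exact PT_take' (hB.comp PT.fst) (PT.drop (PT.mul (hB.comp PT.fst) PT.snd) (hr.comp PT.fst))

theorem PT_stepS {R k D B : β → ℕ} {st : β → List (ℕ × LArr)} {w : β → List Bool} (hR : PT R) (hk : PT k)
    (hD : PT D) (hB : PT B) (hst : PT st) (hw : PT w) :
    PT (fun b => stepS (R b) (k b) (D b) (B b) (st b) (w b)) := by
  have hu := PT.ofMSB hw
  have hl := PT_leafL (R := R) hk
  set P : β → List (ℕ × LArr) := fun b => (1, combL (R b) (k b) (D b) (B b) 0 ⟨msb (w b)⟩ (leafL (R b) (k b))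
      (leafL (R b) (k b))) :: st b with hP
  have hp : PT P := PT.cons (PT.pair (PT.const 1) (PT_combL hR hk hD hB (PT.const 0) hu hl hl)) hst
  have hc : PT (fun x : (β × ((ℕ × LArr) × List (ℕ × LArr))) × ((ℕ × LArr) × List (ℕ × LArr)) =>
      if x.1.2.1.1 = x.2.1.1 then (x.1.2.1.1 + 1, combL (R x.1.1) (k x.1.1) (D x.1.1) (B x.1.1) x.1.2.1.1
        ⟨msb (w x.1.1)⟩ x.2.1.2 x.1.2.1.2) :: x.2.2
      else P x.1.1) := by
    have b1 : PT (fun x : (β × ((ℕ × LArr) × List (ℕ × LArr))) × ((ℕ × LArr) × List (ℕ × LArr)) => x.1.1) :=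
      PT.fst.fst'
    refine PT.ite (c := fun x : (β × ((ℕ × LArr) × List (ℕ × LArr))) × ((ℕ × LArr) × List (ℕ × LArr)) =>
      x.1.2.1.1 = x.2.1.1) (PT.eq PT.fst.snd'.fst'.fst' PT.snd.fst'.fst') ?_ (hp.comp b1)
    exact PT.cons (PT.pair PT.fst.snd'.fst'.fst'.succ (PT_combL (hR.comp b1) (hk.comp b1) (hD.comp b1) (hB.comp b1)
      PT.fst.snd'.fst'.fst' (hu.comp b1) PT.snd.fst'.snd' PT.fst.snd'.fst'.snd')) PT.snd.snd'
  have h2 := PT.listCases (f := fun x : β × ((ℕ × LArr) × List (ℕ × LArr)) => x.2.2) (g := fun x => P x.1)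
    (h := fun x q rest => if x.2.1.1 = q.1 then (x.2.1.1 + 1, combL (R x.1) (k x.1) (D x.1) (B x.1) x.2.1.1
        ⟨msb (w x.1)⟩ q.2 x.2.1.2) :: rest
      else P x.1) PT.snd.snd' (hp.comp PT.fst) hc
  have h3 := PT.listCases (f := st) (g := P) (h := fun b p l => match l with
    | [] => P b
    | q :: rest => if p.1 = q.1 then (p.1 + 1, combL (R b) (k b) (D b) (B b) p.1 ⟨msb (w b)⟩ q.2 p.2) :: rest
      else P b) hst hp (h2.congr fun x => by rcases x.2.2 with _ | ⟨q, rest⟩ <;> rfl)
  refine h3.congr fun b => ?_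
  unfold stepS
  simp only [hP]
  rcases st b with _ | ⟨⟨h1, y⟩, _ | ⟨⟨h2, x⟩, rest⟩⟩ <;> rfl

end PT

/-! ### sizes -/

/-- bound for the size of the objects -/
def SB (R : ℕ) : ℕ := R * R * (4 * R + 4) + 5

/-- the invariant of the arrays -/
def Gd (R k h : ℕ) (x : LArr) : Prop :=
  x.length ≤ R + 2 ∧ ∀ n, (x.at n).1.val + 1 ≤ 2 ^ (2 * n * (h + k + 1)) ∧ size (x.at n).2 ≤ SB R

theorem size_cell (R : ℕ) : size ([(0, 0)] : List NC) ≤ SB R := by
  unfold SB
  simp

theorem size_union_le (R : ℕ) (A B : List NC) : size (union R A B) ≤ SB R := by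
  have h1 : (grid R).length = R * R := by
    unfold grid
    rw [List.length_flatMap]
    simp
  have h2 : ∀ p ∈ union R A B, size p ≤ 4 * R + 3 := by
    intro p hp
    unfold union at hp
    have h3 := (List.mem_filter.1 hp).1
    unfold grid at h3
    simp only [List.mem_flatMap, List.mem_map, List.mem_range] at h3
    obtain ⟨x, hx, y, hy, rfl⟩ := h3
    rw [size_prod, size_nat, size_nat]
    omega
  have h3 : (union R A B).length ≤ R * R := by
    rw [← h1]
    exact List.length_filter_le _ _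
  have h4 := size_list_le _ h2
  have h5 := Nat.mul_le_mul_right (4 * R + 3 + 1) h3
  have h6 : R * R * (4 * R + 3 + 1) = R * R * (4 * R + 4) := rfl
  unfold SB
  rw [h6] at h5
  omega

theorem glueW_some {R n w : ℕ} {A B Z : List NC} (h : glueW R n w A B = some Z) :
    8 * (w % R) ≤ 7 * n ∧ size Z ≤ SB R := by
  unfold glueW glue at h
  split_ifs at h with h1
  obtain rfl := Option.some.inj h
  exact ⟨h1.2.1, size_union_le _ _ _⟩

theorem Gd_map {R k h : ℕ} {f : ℕ → BN × List NC}
    (hf : ∀ n, n < R + 2 → (f n).1.val + 1 ≤ 2 ^ (2 * n * (h + k + 1)) ∧ size (f n).2 ≤ SB R) :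
    Gd R k h ((List.range (R + 2)).map f) := by
  refine ⟨by simp, fun n => ?_⟩
  rw [at_range_map]
  by_cases hn : n < R + 2
  · rw [if_pos hn]
    exact hf n hn
  · rw [if_neg hn]
    exact ⟨Nat.one_le_two_pow, size_cell R⟩

theorem Gd_leaf (R k : ℕ) : Gd R k 0 (leafL R k) := by
  refine ⟨by simp [leafL], fun n => ?_⟩
  match n with
  | 0 => exact ⟨Nat.one_le_two_pow, size_cell R⟩
  | 1 =>
    refine ⟨?_, size_cell R⟩
    have : 2 ^ k + 1 ≤ 2 ^ (k + 1) := by
      have := Nat.one_le_two_pow (n := k)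
      rw [pow_succ]
      omega
    exact this.trans (Nat.pow_le_pow_right (by norm_num) (by omega))
  | n + 2 =>
    rw [at_of_length_le (by simp [leafL])]
    exact ⟨Nat.one_le_two_pow, size_cell R⟩

theorem Gd_comb {R k D B h : ℕ} {u : BN} {x y : LArr} (hx : Gd R k h x) (hy : Gd R k h y) :
    Gd R k (h + 1) (combL R k D B h u x y) := by
  unfold combL
  split_ifs with hc
  · refine Gd_map fun n _ => ?_
    unfold glueE
    by_cases h1 : n = 1
    · rw [if_pos h1, h1]
      refine ⟨?_, size_cell R⟩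
      have : 2 ^ 1 ≤ 2 ^ (2 * 1 * (h + 1 + k + 1)) := Nat.pow_le_pow_right (by norm_num) (by omega)
      simpa using this
    rw [if_neg h1]
    by_cases h2 : n < R
    · rw [if_pos h2]
      rcases hg : glueW R n (u.val % R ^ 5) (LArr.at x (u.val % R)).2 (LArr.at y (n - u.val % R)).2 with _ | Z
      · exact ⟨Nat.one_le_two_pow, size_cell R⟩
      · obtain ⟨h3, h4⟩ := glueW_some hg
        rw [Nat.mod_mod_of_dvd _ (dvd_pow_self R (by norm_num))] at h3
        refine ⟨?_, h4⟩
        set m := u.val % R with hm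
        have h5 := (hx.2 m).1
        have h6 := (hy.2 (n - m)).1
        have h7 : (LArr.at x m).1.val * (LArr.at y (n - m)).1.val + 1 ≤
            ((LArr.at x m).1.val + 1) * ((LArr.at y (n - m)).1.val + 1) := by
          have : ((LArr.at x m).1.val + 1) * ((LArr.at y (n - m)).1.val + 1) =
            (LArr.at x m).1.val * (LArr.at y (n - m)).1.val + 1 + ((LArr.at x m).1.val + (LArr.at y (n - m)).1.val) := by
            ring
          omega
        have h8 := Nat.mul_le_mul h5 h6
        rw [← pow_add] at h8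
        have h9 : 2 * m * (h + k + 1) + 2 * (n - m) * (h + k + 1) = 2 * n * (h + k + 1) := by
          have : 2 * m + 2 * (n - m) = 2 * n := by omega
          rw [← Nat.add_mul, this]
        rw [h9] at h8
        have h10 : 2 * n * (h + k + 1) ≤ 2 * n * (h + 1 + k + 1) := Nat.mul_le_mul_left _ (by omega)
        exact h7.trans (h8.trans (Nat.pow_le_pow_right (by norm_num) h10))
    · rw [if_neg h2]
      exact ⟨Nat.one_le_two_pow, size_cell R⟩
  · refine Gd_map fun n _ => ?_
    have h5 := hx.2 n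
    have h6 := hy.2 n
    have h7 : (LArr.at x n).1.val + (LArr.at y n).1.val + 1 ≤ 2 ^ (2 * n * (h + 1 + k + 1)) := by
      rcases Nat.eq_zero_or_pos n with h0 | h0
      · subst h0
        simp only [Nat.mul_zero, Nat.zero_mul, pow_zero] at h5 h6 ⊢
        omega
      · have h8 : 2 * n * (h + 1 + k + 1) = 2 * n * (h + k + 1) + 2 * n := by ring
        have h9 : 2 ^ (2 * n * (h + k + 1)) * 2 ^ 1 ≤ 2 ^ (2 * n * (h + 1 + k + 1)) := by
          rw [← pow_add, h8]
          exact Nat.pow_le_pow_right (by norm_num) (by omega)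
        omega
    unfold mergeE
    split_ifs
    · exact ⟨h7, h6.2⟩
    · exact ⟨h7, h5.2⟩

/-- bound for the size of an array -/
def AB (R k h : ℕ) : ℕ := (R + 2) * (4 * (2 * (R + 2) * (h + k + 1)) + 1 + SB R + 1 + 1) + 1

theorem Gd_size {R k h : ℕ} {x : LArr} (hx : Gd R k h x) : size x ≤ AB R k h := by
  have h1 : ∀ b ∈ x, size b ≤ 4 * (2 * (R + 2) * (h + k + 1)) + 1 + SB R + 1 := by
    intro b hb
    obtain ⟨n, hn, rfl⟩ := List.mem_iff_getElem.1 hb
    have h2 : LArr.at x n = x[n] := by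
      unfold LArr.at
      rw [List.getD_eq_getElem?_getD, List.getElem?_eq_getElem hn]
      rfl
    obtain ⟨h3, h4⟩ := hx.2 n
    rw [h2] at h3 h4
    have h5 : 2 * n * (h + k + 1) ≤ 2 * (R + 2) * (h + k + 1) :=
      Nat.mul_le_mul_right _ (Nat.mul_le_mul_left _ (hn.le.trans hx.1))
    have h6 : (x[n]).1.val < 2 ^ (2 * (R + 2) * (h + k + 1)) :=
      (Nat.lt_of_succ_le h3).trans_le (Nat.pow_le_pow_right (by norm_num) h5)
    have h7 := size_BN_le_of_lt h6
    rw [size_prod]
    omega
  have h2 := size_list_le _ h1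
  have h3 := Nat.mul_le_mul_right (4 * (2 * (R + 2) * (h + k + 1)) + 1 + SB R + 1 + 1) hx.1
  unfold AB
  omega

theorem AB_mono {R k h R' k' h' : ℕ} (h1 : R ≤ R') (h2 : k ≤ k') (h3 : h ≤ h') : AB R k h ≤ AB R' k' h' := by
  unfold AB SB
  gcongr

/-- the invariant of the stack -/
def InvS (R k i : ℕ) (st : List (ℕ × LArr)) : Prop :=
  st.length ≤ i ∧ ∀ p ∈ st, p.1 ≤ i ∧ Gd R k p.1 p.2

theorem Inv_step {R k D B i : ℕ} {st : List (ℕ × LArr)} (h : InvS R k i st) (w : List Bool) :
    InvS R k (i + 1) (stepS R k D B st w) := by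
  have hpush : InvS R k (i + 1) ((1, combL R k D B 0 ⟨msb w⟩ (leafL R k) (leafL R k)) :: st) := by
    refine ⟨by simpa using h.1, ?_⟩
    intro p hp
    rcases List.mem_cons.1 hp with rfl | hp
    · exact ⟨by simp, Gd_comb (Gd_leaf R k) (Gd_leaf R k)⟩
    · exact ⟨(h.2 p hp).1.trans (Nat.le_succ i), (h.2 p hp).2⟩
  unfold stepS
  rcases st with _ | ⟨⟨h1, y⟩, _ | ⟨⟨h2, x⟩, rest⟩⟩
  · exact hpush
  · exact hpush
  · dsimp only
    split_ifs with he
    · subst he
      have a1 := h.2 (h1, y) (by simp)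
      have a2 := h.2 (h1, x) (by simp)
      refine ⟨?_, ?_⟩
      · have := h.1
        simp only [List.length_cons] at this ⊢
        omega
      · intro p hp
        rcases List.mem_cons.1 hp with rfl | hp
        · exact ⟨Nat.succ_le_succ a1.1, Gd_comb a2.2 a1.2⟩
        · have := h.2 p (by simp [hp])
          exact ⟨this.1.trans (Nat.le_succ i), this.2⟩
    · exact hpush

theorem Inv_foldl {R k D B : ℕ} : ∀ (l : List (List Bool)) (i : ℕ) (st : List (ℕ × LArr)), InvS R k i st →
    InvS R k (i + l.length) (l.foldl (stepS R k D B) st) := by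
  intro l
  induction l with
  | nil => intro i st h; exact h
  | cons w l ih =>
    intro i st h
    rw [List.foldl_cons, List.length_cons]
    have := ih (i + 1) _ (Inv_step (D := D) (B := B) h w)
    rw [show i + (l.length + 1) = i + 1 + l.length by omega]
    exact this

theorem Inv_size {R k i : ℕ} {st : List (ℕ × LArr)} (h : InvS R k i st) :
    size st ≤ i * (2 * i + 1 + AB R k i + 1 + 1) + 1 := by
  have h1 : ∀ p ∈ st, size p ≤ 2 * i + 1 + AB R k i + 1 := by
    intro p hp
    obtain ⟨h2, h3⟩ := h.2 p hp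
    have h4 := (Gd_size h3).trans (AB_mono le_rfl le_rfl h2)
    rw [size_prod, size_nat]
    omega
  have h2 := size_list_le _ h1
  have h3 := Nat.mul_le_mul_right (2 * i + 1 + AB R k i + 1 + 1) h.1
  omega

theorem PT_runL {β : Type} [Enc β] {R k D B : β → ℕ} {r : β → List Bool}
    (hR : PT R) (hk : PT k) (hD : PT D) (hB : PT B) (hr : PT r) :
    PT (fun b => runL (R b) (k b) (D b) (B b) (r b)) := by
  have hch := PT_chunks hB hr
  obtain ⟨p, hp⟩ := hch.size_le
  obtain ⟨pR, hpR⟩ := hR.size_le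
  obtain ⟨pk, hpk⟩ := hk.size_le
  have hs : PT (fun x : β × (List (ℕ × LArr) × List Bool) => stepS (R x.1) (k x.1) (D x.1) (B x.1) x.2.1 x.2.2) :=
    PT_stepS (hR.comp PT.fst) (hk.comp PT.fst) (hD.comp PT.fst) (hB.comp PT.fst) PT.snd.fst' PT.snd.snd'
  have hpoly : PB (fun n => p.eval n * (2 * p.eval n + 1 + AB (pR.eval n) (pk.eval n) (p.eval n) + 1 + 1) + 1) := by
    have e1 := PB.poly p
    have e2 := PB.poly pR
    have e3 := PB.poly pk
    have c := PB.const
    have hSB : PB (fun n => SB (pR.eval n)) := ((e2.mul e2).mul (((c 4).mul e2).add (c 4))).add (c 5)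
    have hY := (c 4).mul (((c 2).mul (e2.add (c 2))).mul ((e1.add e3).add (c 1)))
    have hX := (((hY.add (c 1)).add hSB).add (c 1)).add (c 1)
    have hAB : PB (fun n => AB (pR.eval n) (pk.eval n) (p.eval n)) := ((e2.add (c 2)).mul hX).add (c 1)
    have hZ := ((((c 2).mul e1).add (c 1)).add hAB).add (c 1)
    exact (e1.mul (hZ.add (c 1))).add (c 1)
  have hfold := PT.foldl (f := fun b => chunks (B b) (r b)) (init := fun _ => ([] : List (ℕ × LArr)))
    (step := fun b st w => stepS (R b) (k b) (D b) (B b) st w) hch (PT.const _) hs hpoly (by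
      intro b l' hl'
      have h1 : InvS (R b) (k b) (0 + l'.length) (l'.foldl (stepS (R b) (k b) (D b) (B b)) []) :=
        Inv_foldl l' 0 [] ⟨le_rfl, by simp⟩
      have h2 := Inv_size h1
      rw [Nat.zero_add] at h2
      have h3 : l'.length ≤ p.eval (size b) := hl'.length_le.trans ((length_le_size _).trans (hp b))
      have h4 : R b ≤ pR.eval (size b) := by
        have := hpR b
        rw [size_nat] at this
        omega
      have h5 : k b ≤ pk.eval (size b) := by
        have := hpk b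
        rw [size_nat] at this
        omega
      have h6 := AB_mono h4 h5 h3
      refine h2.trans ?_
      gcongr)
  have hhead : PT (fun b => ((chunks (B b) (r b)).foldl (stepS (R b) (k b) (D b) (B b)) []).headD
      (0, leafL (R b) (k b))) := by
    refine (PT.listCases (f := fun b => (chunks (B b) (r b)).foldl (stepS (R b) (k b) (D b) (B b)) [])
      (g := fun b => ((0, leafL (R b) (k b)) : ℕ × LArr)) (h := fun _ p _ => p) hfold
      (PT.pair (PT.const 0) (PT_leafL (R := R) hk)) PT.snd.fst').congr fun b => ?_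
    rcases (chunks (B b) (r b)).foldl (stepS (R b) (k b) (D b) (B b)) [] with _ | ⟨a, l⟩ <;> rfl
  exact hhead.snd'

end Pool.Agent.Lib.MP_104326_lc.KR
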