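import Pool.Agent.Lib.MP_104326_lc.KR.Par

/-! # KR: numerical bounds (E2a)

`BdL w f`: `f` is bounded by a multiple of `w`;  `BdE w f`: `f` is bounded by `2 ^ (c * w)`. -/

set_option autoImplicit false

namespace Pool.Agent.Lib.MP_104326_lc.KR

section Growth

variable {ι : Type}

/-- `f` is at most a constant times `w`. -/
def BdL (w f : ι → ℕ) : Prop := ∃ c : ℕ, ∀ i, f i ≤ c * w i

/-- `f` is at most `2` to the power a constant times `w`. -/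
def BdE (w f : ι → ℕ) : Prop := ∃ c : ℕ, ∀ i, f i ≤ 2 ^ (c * w i)

theorem BdL.mono {w f g : ι → ℕ} (hg : BdL w g) (h : ∀ i, f i ≤ g i) : BdL w f := by
  obtain ⟨c, hc⟩ := hg
  exact ⟨c, fun i => (h i).trans (hc i)⟩

theorem BdL.add {w f g : ι → ℕ} (hf : BdL w f) (hg : BdL w g) : BdL w (fun i => f i + g i) := by
  obtain ⟨c, hc⟩ := hf
  obtain ⟨d, hd⟩ := hg
  exact ⟨c + d, fun i => by rw [add_mul]; exact add_le_add (hc i) (hd i)⟩

theorem BdL.cmul {w f : ι → ℕ} (a : ℕ) (hf : BdL w f) : BdL w (fun i => a * f i) := by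
  obtain ⟨c, hc⟩ := hf
  exact ⟨a * c, fun i => by rw [mul_assoc]; exact Nat.mul_le_mul_left a (hc i)⟩

theorem BdL.const {w : ι → ℕ} (hw : ∀ i, 1 ≤ w i) (a : ℕ) : BdL w (fun _ => a) :=
  ⟨a, fun i => by nlinarith [hw i]⟩

theorem BdL.self (w : ι → ℕ) : BdL w w := ⟨1, fun i => by simp⟩

theorem BdE.mono {w f g : ι → ℕ} (hg : BdE w g) (h : ∀ i, f i ≤ g i) : BdE w f := by
  obtain ⟨c, hc⟩ := hg
  exact ⟨c, fun i => (h i).trans (hc i)⟩

theorem BdL.pow {w f : ι → ℕ} (hf : BdL w f) : BdE w (fun i => 2 ^ f i) := by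
  obtain ⟨c, hc⟩ := hf
  exact ⟨c, fun i => Nat.pow_le_pow_right (by norm_num) (hc i)⟩

theorem BdL.toE {w f : ι → ℕ} (hf : BdL w f) : BdE w f :=
  hf.pow.mono (fun _ => Nat.lt_two_pow_self.le)

theorem BdE.mul {w f g : ι → ℕ} (hf : BdE w f) (hg : BdE w g) : BdE w (fun i => f i * g i) := by
  obtain ⟨c, hc⟩ := hf
  obtain ⟨d, hd⟩ := hg
  exact ⟨c + d, fun i => by rw [add_mul, pow_add]; exact Nat.mul_le_mul (hc i) (hd i)⟩

theorem BdE.add {w f g : ι → ℕ} (hw : ∀ i, 1 ≤ w i) (hf : BdE w f) (hg : BdE w g) :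
    BdE w (fun i => f i + g i) := by
  obtain ⟨c, hc⟩ := hf
  obtain ⟨d, hd⟩ := hg
  refine ⟨c + d + 1, fun i => ?_⟩
  have h1 : 2 ^ (c * w i) ≤ 2 ^ ((c + d) * w i) :=
    Nat.pow_le_pow_right (by norm_num) (Nat.mul_le_mul_right _ (by omega))
  have h2 : 2 ^ (d * w i) ≤ 2 ^ ((c + d) * w i) :=
    Nat.pow_le_pow_right (by norm_num) (Nat.mul_le_mul_right _ (by omega))
  have h3 : 2 * 2 ^ ((c + d) * w i) ≤ 2 ^ ((c + d + 1) * w i) := by
    rw [← pow_succ']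
    exact Nat.pow_le_pow_right (by norm_num) (by nlinarith [hw i])
  have h4 := hc i
  have h5 := hd i
  change f i + g i ≤ _
  omega

theorem BdE.const {w : ι → ℕ} (hw : ∀ i, 1 ≤ w i) (a : ℕ) : BdE w (fun _ => a) :=
  (BdL.const hw a).toE

theorem BdE.powc {w f : ι → ℕ} (hw : ∀ i, 1 ≤ w i) (hf : BdE w f) (k : ℕ) :
    BdE w (fun i => f i ^ k) := by
  induction k with
  | zero => simpa using BdE.const hw 1
  | succ k ih =>
    have := ih.mul hf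
    simpa [pow_succ] using this

theorem BdE.poly {w f : ι → ℕ} (hw : ∀ i, 1 ≤ w i) (hf : BdE w f) (Q : Polynomial ℕ) :
    BdE w (fun i => Q.eval (f i)) := by
  induction Q using Polynomial.induction_on' with
  | add p q hp hq => simpa [Polynomial.eval_add] using hp.add hw hq
  | monomial k a =>
    have := (BdE.const hw a).mul (hf.powc hw k)
    simpa [Polynomial.eval_monomial] using this

/-- Two functions at once. -/
theorem BdE.both {w f g : ι → ℕ} (hf : BdE w f) (hg : BdE w g) :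
    ∃ c : ℕ, ∀ i, f i ≤ 2 ^ (c * w i) ∧ g i ≤ 2 ^ (c * w i) := by
  obtain ⟨c, hc⟩ := hf
  obtain ⟨d, hd⟩ := hg
  refine ⟨c + d, fun i => ⟨(hc i).trans ?_, (hd i).trans ?_⟩⟩
  · exact Nat.pow_le_pow_right (by norm_num) (Nat.mul_le_mul_right _ (by omega))
  · exact Nat.pow_le_pow_right (by norm_num) (Nat.mul_le_mul_right _ (by omega))

/-- The number of random bits, if `ρ`, `ρ ^ 2` and `e` are at most multiples of `w`. -/
theorem bd_nbits {w ρ e : ι → ℕ} (hw : ∀ i, 1 ≤ w i) (hρ : BdL w ρ)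
    (hρ2 : BdL w (fun i => ρ i ^ 2)) (he : BdL w e) : BdE w (fun i => nbits (ρ i) (e i)) := by
  have hk : BdL w (fun i => kk (ρ i)) := (hρ.cmul 10).add (BdL.const hw 3)
  have hh' : BdL w (fun i => hh (ρ i) (e i)) := by
    refine ((((hρ2.cmul 60).add (hρ.cmul 24)).add he)).mono (fun i => ?_)
    unfold hh dd kk
    apply le_of_eq
    ring
  have hb : BdE w (fun i => bb (ρ i) (2 ^ ρ i) (e i)) := by
    have h1 : BdE w (fun i => (hh (ρ i) (e i) + kk (ρ i)) * (2 * 2 ^ ρ i)) :=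
      (hh'.add hk).toE.mul ((BdE.const hw 2).mul hρ.pow)
    have h2 : BdE w (fun i => hh (ρ i) (e i) + e i + 6) :=
      ((hh'.add he).add (BdL.const hw 6)).toE
    refine (h1.add hw h2).mono (fun i => ?_)
    unfold bb
    apply le_of_eq
    ring
  refine (hb.mul hh'.pow).mono (fun i => ?_)
  unfold nbits
  exact Nat.mul_le_mul_left _ (Nat.sub_le _ _)

end Growth

theorem bound_lam (M1 : ℕ) (Q : Polynomial ℕ) : ∃ c : ℕ, ∀ n : ℕ, 1 ≤ n →
    nbits ((M1 + 15) * n) ((M1 + 15) * n + n + 5) ≤ 2 ^ (c * n ^ 2) ∧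
    Q.eval (n + 1 + nbits ((M1 + 15) * n) ((M1 + 15) * n + n + 5) + 2 ^ ((M1 + 15) * n ^ 2)) ≤
      2 ^ (c * n ^ 2) := by
  let w : {n : ℕ // 1 ≤ n} → ℕ := fun i => i.1 ^ 2
  have hw : ∀ i, 1 ≤ w i := fun i => Nat.one_le_pow _ _ i.2
  have hn : BdL w (fun i => i.1) := ⟨1, fun i => by
    change i.1 ≤ 1 * i.1 ^ 2
    nlinarith [i.2]⟩
  have hρ : BdL w (fun i => (M1 + 15) * i.1) := hn.cmul (M1 + 15)
  have hρ2 : BdL w (fun i => ((M1 + 15) * i.1) ^ 2) := ⟨(M1 + 15) ^ 2, fun i => by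
    change ((M1 + 15) * i.1) ^ 2 ≤ (M1 + 15) ^ 2 * i.1 ^ 2
    rw [mul_pow]⟩
  have he : BdL w (fun i => (M1 + 15) * i.1 + i.1 + 5) := (hρ.add hn).add (BdL.const hw 5)
  have hb : BdE w (fun i => nbits ((M1 + 15) * i.1) ((M1 + 15) * i.1 + i.1 + 5)) :=
    bd_nbits hw hρ hρ2 he
  have hp : BdE w (fun i => 2 ^ ((M1 + 15) * i.1 ^ 2)) :=
    ((BdL.self w).cmul (M1 + 15)).pow
  have hs : BdE w (fun i => i.1 + 1 + nbits ((M1 + 15) * i.1) ((M1 + 15) * i.1 + i.1 + 5) +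
      2 ^ ((M1 + 15) * i.1 ^ 2)) :=
    ((hn.add (BdL.const hw 1)).toE.add hw hb).add hw hp
  obtain ⟨c, hc⟩ := hb.both (hs.poly hw Q)
  exact ⟨c, fun n hn1 => hc ⟨n, hn1⟩⟩

end Pool.Agent.Lib.MP_104326_lc.KR
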