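import Pool.Agent.Lib.MP_104326_lc.KR.E0

/-!
# KR, module E3a: the output of the algorithm for Klarner's constant is good with probability
`1 - 2 ^ (-n)`

Union bound over `p ∈ [K, 4 K]` with `τ = 1 / 2` in `dev`, then the deterministic analysis (`hap`).
-/

set_option autoImplicit false

namespace Pool.Agent.Lib.MP_104326_lc.KR

open Pool.Agent.Lib.PolyTime

theorem goodY_iff {ρ e K D : ℕ} {A : LArr} {y : ℕ} :
    goodY ρ e K D A y = true ↔ ∃ p, K ≤ p ∧ p ≤ 4 * K ∧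
      ((y : ℝ) + 1) ^ p ≤ (D : ℝ) ^ p * (2 * ((LArr.at A p).1.val : ℝ) / 2 ^ sexp ρ e p) := by
  unfold goodY
  rw [List.any_eq_true]
  constructor
  · rintro ⟨p, hp, h⟩
    rw [List.mem_range] at hp
    rw [Bool.and_eq_true, decide_eq_true_iff, decide_eq_true_iff] at h
    refine ⟨p, h.1, by omega, ?_⟩
    have h2 : (((y + 1) ^ p * 2 ^ sexp ρ e p : ℕ) : ℝ) ≤
        ((2 * D ^ p * (LArr.at A p).1.val : ℕ) : ℝ) := by exact_mod_cast h.2
    push_cast at h2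
    rw [← mul_div_assoc, le_div_iff₀ (by positivity)]
    linarith
  · rintro ⟨p, h1, h2, h3⟩
    refine ⟨p, List.mem_range.2 (by omega), ?_⟩
    rw [Bool.and_eq_true, decide_eq_true_iff, decide_eq_true_iff]
    refine ⟨h1, ?_⟩
    rw [← mul_div_assoc, le_div_iff₀ (by positivity)] at h3
    have h4 : (((y + 1) ^ p * 2 ^ sexp ρ e p : ℕ) : ℝ) ≤
        ((2 * D ^ p * (LArr.at A p).1.val : ℕ) : ℝ) := by
      push_cast
      linarith
    exact_mod_cast h4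

theorem four_K_lt {M1 n : ℕ} (hn : 1 ≤ n) :
    4 * (M1 * (n + 1) * 10 ^ (n + 2)) < 2 ^ ((M1 + 15) * n) := by
  obtain ⟨m, rfl⟩ : ∃ m, n = m + 1 := ⟨n - 1, by omega⟩
  have h1 : M1 < 2 ^ (M1 * (m + 1)) :=
    lt_of_lt_of_le Nat.lt_two_pow_self
      (Nat.pow_le_pow_right (by norm_num) (Nat.le_mul_of_pos_right _ (by omega)))
  have h2 : m + 1 + 1 ≤ 2 ^ (m + 1) := Nat.lt_two_pow_self
  have h3 : 10 ^ (m + 1 + 2) ≤ 2 ^ (4 * m + 10) := by
    have e1 : 10 ^ (m + 1 + 2) = 10 ^ m * 1000 := by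
      rw [show m + 1 + 2 = m + 3 by omega, pow_add]; norm_num
    have e2 : 2 ^ (4 * m + 10) = 16 ^ m * 1024 := by
      rw [pow_add, pow_mul]; norm_num
    rw [e1, e2]
    exact Nat.mul_le_mul (Nat.pow_le_pow_left (by norm_num) _) (by norm_num)
  calc 4 * (M1 * (m + 1 + 1) * 10 ^ (m + 1 + 2))
      ≤ 4 * (M1 * 2 ^ (m + 1) * 2 ^ (4 * m + 10)) := by gcongr
    _ < 4 * (2 ^ (M1 * (m + 1)) * 2 ^ (m + 1) * 2 ^ (4 * m + 10)) := by gcongr
    _ = 2 ^ (2 + (M1 * (m + 1) + (m + 1) + (4 * m + 10))) := by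
        rw [pow_add 2 2, pow_add 2 (M1 * (m + 1) + (m + 1)), pow_add 2 (M1 * (m + 1))]
        norm_num
    _ ≤ 2 ^ ((M1 + 15) * (m + 1)) := by
        refine Nat.pow_le_pow_right (by norm_num) ?_
        nlinarith

theorem good_lam {lam : ℝ} {M1 Lc : ℕ} (hM1 : 1 ≤ M1)
    (hap : ∀ n : ℕ, 1 ≤ n → ∀ (K : ℕ) (g : ℕ → ℝ) (good : ℕ → Bool) (Y : ℕ),
      K = M1 * (n + 1) * 10 ^ (n + 2) →
      (∀ p, K ≤ p → p ≤ 4 * K → (t p : ℝ) ≤ g p ∧ g p ≤ 3 * t p) →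
      (∀ y, good y = true ↔ ∃ p, K ≤ p ∧ p ≤ 4 * K ∧ ((y : ℝ) + 1) ^ p ≤ (10 ^ (n + 2)) ^ p * g p) →
      Y = ((List.range (Lc * 10 ^ (n + 2))).filter good).length →
      (10 : ℝ) ^ (-(n : ℤ)) < |((Y + 500 : ℕ) : ℝ) / 10 ^ (n + 2) - lam| ∧
        |((Y + 500 : ℕ) : ℝ) / 10 ^ (n + 2) - lam| < (10 : ℝ) ^ (-(n : ℤ) + 1))
    {n M : ℕ} (hn : 1 ≤ n) (hM : 2 ^ ((M1 + 15) * n) ≤ M) (hM' : 10 ^ (n + 2) ≤ M) :
    2 ^ n * (Finset.univ.filter (fun v : Fin (nbits ((M1 + 15) * n) ((M1 + 15) * n + n + 5)) → Bool =>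
      ¬ ((10 : ℝ) ^ (-(n : ℤ)) < |(outLam M1 Lc n (List.ofFn v) M : ℝ) / 10 ^ (n + 2) - lam| ∧
        |(outLam M1 Lc n (List.ofFn v) M : ℝ) / 10 ^ (n + 2) - lam| < (10 : ℝ) ^ (-(n : ℤ) + 1)))).card
      ≤ 2 ^ nbits ((M1 + 15) * n) ((M1 + 15) * n + n + 5) := by
  classical
  obtain ⟨ρ, hρ⟩ : ∃ ρ, ρ = (M1 + 15) * n := ⟨_, rfl⟩
  obtain ⟨K, hK⟩ : ∃ K, K = M1 * (n + 1) * 10 ^ (n + 2) := ⟨_, rfl⟩
  have hK4 : 4 * K < 2 ^ ρ := by rw [hK, hρ]; exact four_K_lt hn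
  have hK1 : 1 ≤ K := by
    rw [hK]
    exact Nat.mul_pos (Nat.mul_pos hM1 (by omega)) (by positivity)
  -- the output
  have hout : ∀ r, outLam M1 Lc n r M = ((List.range (Lc * 10 ^ (n + 2))).filter
      (goodY ρ (ρ + n + 5) K (10 ^ (n + 2)) (arr ρ (2 ^ ρ) (ρ + n + 5) r))).length + 500 := by
    intro r
    unfold outLam
    rw [min_eq_left hM', min_eq_left hM, ← hρ, ← hK]
  rw [← hρ]
  obtain ⟨e, he⟩ : ∃ e, e = ρ + n + 5 := ⟨_, rfl⟩
  rw [← he] at hout ⊢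
  -- the good event
  have hgood : ∀ r, (∀ p, K ≤ p → p ≤ 4 * K → ¬ (1 / 2 * (2 ^ sexp ρ e p * (t p : ℝ)) <
      |((LArr.at (arr ρ (2 ^ ρ) e r) p).1.val : ℝ) - 2 ^ sexp ρ e p * t p|)) →
      ((10 : ℝ) ^ (-(n : ℤ)) < |(outLam M1 Lc n r M : ℝ) / 10 ^ (n + 2) - lam| ∧
        |(outLam M1 Lc n r M : ℝ) / 10 ^ (n + 2) - lam| < (10 : ℝ) ^ (-(n : ℤ) + 1)) := by
    intro r hr
    rw [hout r]
    refine hap n hn K
      (fun p => 2 * ((LArr.at (arr ρ (2 ^ ρ) e r) p).1.val : ℝ) / 2 ^ sexp ρ e p) _ _ hK ?_ ?_ rfl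
    · intro p hp1 hp2
      have h1 := hr p hp1 hp2
      rw [not_lt, abs_le] at h1
      have hs : (0 : ℝ) < 2 ^ sexp ρ e p := by positivity
      constructor
      · rw [le_div_iff₀ hs]
        linarith [h1.1]
      · rw [div_le_iff₀ hs]
        linarith [h1.2]
    · intro y
      rw [goodY_iff]
      push_cast
      rfl
  -- union bound
  set L := nbits ρ e with hL
  have h1 : ((Finset.univ.filter (fun v : Fin L → Bool =>
      ¬ ((10 : ℝ) ^ (-(n : ℤ)) < |(outLam M1 Lc n (List.ofFn v) M : ℝ) / 10 ^ (n + 2) - lam| ∧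
        |(outLam M1 Lc n (List.ofFn v) M : ℝ) / 10 ^ (n + 2) - lam| <
          (10 : ℝ) ^ (-(n : ℤ) + 1)))).card : ℝ) / 2 ^ L ≤ 1 / 2 ^ n := by
    rw [← avgB_card L (fun r => ¬ ((10 : ℝ) ^ (-(n : ℤ)) <
      |(outLam M1 Lc n r M : ℝ) / 10 ^ (n + 2) - lam| ∧
        |(outLam M1 Lc n r M : ℝ) / 10 ^ (n + 2) - lam| < (10 : ℝ) ^ (-(n : ℤ) + 1)))]
    calc avgB L _ ≤ avgB L (fun r => ∑ p ∈ Finset.Icc K (4 * K),
          if 1 / 2 * (2 ^ sexp ρ e p * (t p : ℝ)) <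
            |((LArr.at (arr ρ (2 ^ ρ) e r) p).1.val : ℝ) - 2 ^ sexp ρ e p * t p|
          then (1 : ℝ) else 0) := by
          refine avgB_mono fun r _ => ?_
          split_ifs with hb
          · refine Finset.sum_nonneg fun i _ => ?_
            split_ifs <;> norm_num
          · have : ∃ p, K ≤ p ∧ p ≤ 4 * K ∧ (1 / 2 * (2 ^ sexp ρ e p * (t p : ℝ)) <
                |((LArr.at (arr ρ (2 ^ ρ) e r) p).1.val : ℝ) - 2 ^ sexp ρ e p * t p|) := by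
              by_contra hne
              push Not at hne
              exact hb (hgood r fun p h2 h3 => not_lt.2 (hne p h2 h3))
            obtain ⟨p, h2, h3, h4⟩ := this
            refine le_trans ?_ (Finset.single_le_sum (f := fun p =>
              if 1 / 2 * (2 ^ sexp ρ e p * (t p : ℝ)) <
                |((LArr.at (arr ρ (2 ^ ρ) e r) p).1.val : ℝ) - 2 ^ sexp ρ e p * t p|
              then (1 : ℝ) else 0) (fun i _ => ?_) (Finset.mem_Icc.2 ⟨h2, h3⟩))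
            · rw [if_pos h4]
            · split_ifs <;> norm_num
      _ = ∑ p ∈ Finset.Icc K (4 * K), avgB L (fun r =>
          if 1 / 2 * (2 ^ sexp ρ e p * (t p : ℝ)) <
            |((LArr.at (arr ρ (2 ^ ρ) e r) p).1.val : ℝ) - 2 ^ sexp ρ e p * t p|
          then (1 : ℝ) else 0) := avgB_sum _ _
      _ ≤ ∑ p ∈ Finset.Icc K (4 * K), (3 / (2 ^ e * (1 / 2) ^ 2) : ℝ) := by
          refine Finset.sum_le_sum fun p hp => ?_
          rw [Finset.mem_Icc] at hp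
          exact dev (by omega) (by omega) (by norm_num)
      _ ≤ 1 / 2 ^ n := by
          rw [Finset.sum_const, Nat.card_Icc, nsmul_eq_mul]
          have hc : ((4 * K + 1 - K : ℕ) : ℝ) ≤ 2 ^ ρ := by
            have : 4 * K + 1 - K ≤ 2 ^ ρ := by omega
            exact_mod_cast this
          have he2 : (2 : ℝ) ^ e = 2 ^ ρ * 2 ^ n * 32 := by
            rw [he, pow_add, pow_add]; norm_num
          rw [he2]
          have hpρ : (0 : ℝ) < 2 ^ ρ := by positivity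
          have hpn : (0 : ℝ) < 2 ^ n := by positivity
          calc ((4 * K + 1 - K : ℕ) : ℝ) * (3 / (2 ^ ρ * 2 ^ n * 32 * (1 / 2) ^ 2))
              ≤ 2 ^ ρ * (3 / (2 ^ ρ * 2 ^ n * 32 * (1 / 2) ^ 2)) := by gcongr
            _ = (3 / 8) / 2 ^ n := by field_simp; norm_num
            _ ≤ 1 / 2 ^ n := by gcongr; norm_num
  rw [div_le_div_iff₀ (by positivity) (by positivity), one_mul] at h1
  have h2 : ((2 ^ n * (Finset.univ.filter (fun v : Fin L → Bool =>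
      ¬ ((10 : ℝ) ^ (-(n : ℤ)) < |(outLam M1 Lc n (List.ofFn v) M : ℝ) / 10 ^ (n + 2) - lam| ∧
        |(outLam M1 Lc n (List.ofFn v) M : ℝ) / 10 ^ (n + 2) - lam| <
          (10 : ℝ) ^ (-(n : ℤ) + 1)))).card : ℕ) : ℝ) ≤ ((2 ^ L : ℕ) : ℝ) := by
    push_cast
    linarith
  exact_mod_cast h2

end Pool.Agent.Lib.MP_104326_lc.KR
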