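import Pool.Agent.Lib.MP_104326_lc.KR.E0

/-! # KR, E3b: the output of the counting algorithm is good with probability `1 - 2 ^ (-j)` -/

set_option autoImplicit false

namespace Pool.Agent.Lib.MP_104326_lc.KR

open Pool.Agent.Lib.PolyTime

namespace E3b

/-- Rounding to the nearest integer. -/
theorem round_ok {W s T j : ℕ} (hs : 0 < s)
    (h : |(W : ℝ) - s * T| ≤ 1 / 2 ^ (j + 1) * (s * T)) :
    |(((2 * W + s) / (2 * s) : ℕ) : ℝ) - T| ≤ (T : ℝ) / 2 ^ j := by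
  have hs' : (0 : ℝ) < s := by exact_mod_cast hs
  set a : ℕ := (2 * W + s) / (2 * s) with ha
  have h2s : 0 < 2 * s := by omega
  have ha1 : 2 * s * a ≤ 2 * W + s := Nat.mul_div_le _ _
  have ha2 : 2 * W + s < 2 * s * (a + 1) := Nat.lt_mul_div_succ _ h2s
  have ha1' : (2 : ℝ) * s * a ≤ 2 * W + s := by exact_mod_cast ha1
  have ha2' : (2 : ℝ) * W + s < 2 * s * (a + 1) := by exact_mod_cast ha2
  obtain ⟨h1, h2⟩ := abs_le.1 h
  have hT0 : (0 : ℝ) ≤ T := Nat.cast_nonneg _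
  have hpow : (2 : ℝ) ^ (j + 1) = 2 * 2 ^ j := by ring
  have hp : (0 : ℝ) < 2 ^ j := by positivity
  set δ : ℝ := (T : ℝ) / 2 ^ (j + 1) with hδ
  have hδ2 : (T : ℝ) / 2 ^ j = 2 * δ := by rw [hδ, hpow]; field_simp
  have hδ0 : 0 ≤ δ := by positivity
  have e1 : 1 / 2 ^ (j + 1) * ((s : ℝ) * T) = s * δ := by rw [hδ]; ring
  rw [e1] at h1 h2
  rw [hδ2]
  -- `a - T < 1/2 + δ` and `T - a ≤ 1/2 + δ`
  have u1 : (s : ℝ) * (a - T) ≤ s * (1 / 2 + δ) := by nlinarith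
  have u2 : (s : ℝ) * (T - a) < s * (1 / 2 + δ) := by nlinarith
  have u1' : (a : ℝ) - T ≤ 1 / 2 + δ := le_of_mul_le_mul_left u1 hs'
  have u2' : (T : ℝ) - a < 1 / 2 + δ := lt_of_mul_lt_mul_left u2 hs'.le
  rcases lt_or_ge δ (1 / 2) with hlt | hge
  · have v1 : (a : ℝ) < T + 1 := by linarith
    have v2 : (T : ℝ) < a + 1 := by linarith
    have w1 : a < T + 1 := by exact_mod_cast v1
    have w2 : T < a + 1 := by exact_mod_cast v2
    have : a = T := by omega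
    rw [this, sub_self, abs_zero]
    linarith
  · rw [abs_le]
    constructor <;> linarith

end E3b

theorem good_cnt {n j M : ℕ} (hn : 1 ≤ n) (hM : 2 ^ Nat.size n ≤ M) :
    2 ^ j * (Finset.univ.filter (fun v : Fin (nbits (Nat.size n) (3 * j + 4)) → Bool =>
      ¬ (|(outCnt n j (List.ofFn v) M : ℝ) - t n| ≤ (t n : ℝ) / 2 ^ j))).card
      ≤ 2 ^ nbits (Nat.size n) (3 * j + 4) := by
  set ρ := Nat.size n with hρ
  set e := 3 * j + 4 with he
  set L := nbits ρ e with hL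
  have hn2 : n < 2 ^ ρ := Nat.lt_size_self n
  have hτ : (0 : ℝ) < 1 / 2 ^ (j + 1) := by positivity
  have hd := dev (ρ := ρ) (e := e) hn hn2 hτ
  rw [← hL, avgB_card L (fun r => 1 / 2 ^ (j + 1) * (2 ^ sexp ρ e n * (t n : ℝ)) <
      |((LArr.at (arr ρ (2 ^ ρ) e r) n).1.val : ℝ) - 2 ^ sexp ρ e n * t n|)] at hd
  have hsub : (Finset.univ.filter (fun v : Fin L → Bool =>
      ¬ (|(outCnt n j (List.ofFn v) M : ℝ) - t n| ≤ (t n : ℝ) / 2 ^ j))).card ≤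
      (Finset.univ.filter (fun v : Fin L → Bool =>
        1 / 2 ^ (j + 1) * (2 ^ sexp ρ e n * (t n : ℝ)) <
      |((LArr.at (arr ρ (2 ^ ρ) e (List.ofFn v)) n).1.val : ℝ) - 2 ^ sexp ρ e n * t n|)).card := by
    refine Finset.card_le_card fun v hv => ?_
    rw [Finset.mem_filter] at hv ⊢
    refine ⟨hv.1, ?_⟩
    by_contra hcon
    apply hv.2
    rw [not_lt] at hcon
    have hmin : min (2 ^ Nat.size n) M = 2 ^ ρ := min_eq_left hM
    unfold outCnt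
    rw [hmin]
    have := E3b.round_ok (W := (LArr.at (arr ρ (2 ^ ρ) e (List.ofFn v)) n).1.val)
      (s := 2 ^ sexp ρ e n) (T := t n) (j := j) (by positivity) (by push_cast; exact hcon)
    exact this
  have hcard : ((Finset.univ.filter (fun v : Fin L → Bool =>
      ¬ (|(outCnt n j (List.ofFn v) M : ℝ) - t n| ≤ (t n : ℝ) / 2 ^ j))).card : ℝ) ≤
      2 ^ L * (3 / (2 ^ e * (1 / 2 ^ (j + 1)) ^ 2)) := by
    have hc2 := (Nat.cast_le (α := ℝ)).2 hsub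
    rw [div_le_iff₀ (by positivity)] at hd
    calc _ ≤ _ := hc2
      _ ≤ 3 / (2 ^ e * (1 / 2 ^ (j + 1)) ^ 2) * 2 ^ L := hd
      _ = _ := by ring
  have hval : (2 : ℝ) ^ j * (3 / (2 ^ e * (1 / 2 ^ (j + 1)) ^ 2)) = 3 / 4 := by
    rw [he]
    have e1 : (2 : ℝ) ^ (3 * j + 4) = 16 * (2 ^ j * 2 ^ j * 2 ^ j) := by
      rw [pow_add, show 3 * j = j + j + j by ring, pow_add, pow_add]; ring
    have e2 : (2 : ℝ) ^ (j + 1) = 2 * 2 ^ j := by ring
    rw [e1, e2]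
    have : (2 : ℝ) ^ j ≠ 0 := by positivity
    field_simp
    norm_num
  have hfin : (2 : ℝ) ^ j * ((Finset.univ.filter (fun v : Fin L → Bool =>
      ¬ (|(outCnt n j (List.ofFn v) M : ℝ) - t n| ≤ (t n : ℝ) / 2 ^ j))).card : ℝ) ≤ 2 ^ L := by
    calc _ ≤ (2 : ℝ) ^ j * (2 ^ L * (3 / (2 ^ e * (1 / 2 ^ (j + 1)) ^ 2))) :=
          mul_le_mul_of_nonneg_left hcard (by positivity)
      _ = 2 ^ L * ((2 : ℝ) ^ j * (3 / (2 ^ e * (1 / 2 ^ (j + 1)) ^ 2))) := by ring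
      _ = 2 ^ L * (3 / 4) := by rw [hval]
      _ ≤ 2 ^ L := by
        have : (0 : ℝ) < 2 ^ L := by positivity
        linarith
  exact_mod_cast hfin

end Pool.Agent.Lib.MP_104326_lc.KR
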