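import Pool.Agent.Lib.MP_104326_lc.KR.C2a

/-! # KR, module C2b: one merging step -/

set_option autoImplicit false

namespace Pool.Agent.Lib.MP_104326_lc.KR

variable {α : Type} {G : ℕ → ℕ → α → α → Option α} {cell : α} {R k D B : ℕ}

variable (G cell R k D B) in
/-- First moments between `L M` and `U M`, relative second moment at most `v`, for the sizes in `V`. -/
def Good (P : ℕ → Finset α) (h : ℕ) (V : ℕ → Prop) (M : ℕ → ℝ) (U L v : ℝ) : Prop :=
  ∀ n, 1 ≤ n → n < R → V n → 
    (∀ f : α → ℝ, (∀ z, 0 ≤ f z) →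
      expA G cell R k D B h (fun x => ((x n).1 : ℝ) * f (x n).2) ≤ U * M n * ∑ Z ∈ P n, f Z) ∧
    (∀ f : α → ℝ, (∀ z, 0 ≤ f z) →
      L * M n * ∑ Z ∈ P n, f Z ≤ expA G cell R k D B h (fun x => ((x n).1 : ℝ) * f (x n).2)) ∧
    expA G cell R k D B h (fun x => ((x n).1 : ℝ) ^ 2) ≤ v * (M n * (P n).card) ^ 2

/-- The number of `u < W` with `u * S < b * W` is `⌈b * W / S⌉`. -/
theorem count_lt {a b W : ℕ} (hS : 0 < a + b) :
    b * W ≤ ((Finset.range W).filter (fun u => u * (a + b) < b * W)).card * (a + b) ∧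
    (((Finset.range W).filter (fun u => u * (a + b) < b * W)).card) * (a + b) ≤ b * W + (a + b) ∧
    ((Finset.range W).filter (fun u => u * (a + b) < b * W)).card ≤ W ∧
    (a = 0 → ((Finset.range W).filter (fun u => u * (a + b) < b * W)).card = W) ∧
    (b = 0 → ((Finset.range W).filter (fun u => u * (a + b) < b * W)).card = 0) := by
  have hf : (Finset.range W).filter (fun u => u * (a + b) < b * W) =
      Finset.range ((b * W + (a + b) - 1) / (a + b)) := by
    ext u
    rw [Finset.mem_filter, Finset.mem_range, Finset.mem_range]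
    have h1 : u < (b * W + (a + b) - 1) / (a + b) ↔ u * (a + b) < b * W := by
      rw [← Nat.succ_le_iff, Nat.le_div_iff_mul_le hS, Nat.succ_mul]
      omega
    rw [h1]
    constructor
    · exact fun h => h.2
    · intro h
      refine ⟨?_, h⟩
      by_contra hW
      have : b * W ≤ u * (a + b) := by
        calc b * W ≤ (a + b) * W := Nat.mul_le_mul_right _ (by omega)
          _ = W * (a + b) := Nat.mul_comm _ _
          _ ≤ u * (a + b) := Nat.mul_le_mul_right _ (by omega)
      omega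
  rw [hf, Finset.card_range]
  have h1 := Nat.div_add_mod (b * W + (a + b) - 1) (a + b)
  have h2 := Nat.mod_lt (b * W + (a + b) - 1) hS
  have h3 : (b * W + (a + b) - 1) / (a + b) * (a + b) = (a + b) * ((b * W + (a + b) - 1) / (a + b)) :=
    Nat.mul_comm _ _
  refine ⟨by omega, by omega, ?_, ?_, ?_⟩
  · have h4 : b * W ≤ W * (a + b) := by nlinarith
    have h5 : (b * W + (a + b) - 1) / (a + b) < W + 1 := by
      rw [Nat.div_lt_iff_lt_mul hS, Nat.succ_mul]
      omega
    omega
  · rintro rfl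
    rw [Nat.zero_add] at hS ⊢
    have h4 : (b * W + b - 1) / b = W := by
      have h5 : W * b = b * W := Nat.mul_comm _ _
      rw [Nat.div_eq_iff hS]
      constructor <;> omega
    exact h4
  · rintro rfl
    rw [Nat.zero_mul, Nat.zero_add, Nat.add_zero]
    exact Nat.div_eq_of_lt (by omega)

/-- The average over the random number used by a merging. -/
theorem merge_avg {x y : Arr α} {n : ℕ} {η : ℝ} (hη0 : 0 ≤ η) 
    (hη : (((x n).1 + (y n).1 : ℕ) : ℝ) / 2 ^ B ≤ η) {f : α → ℝ} (hf : ∀ z, 0 ≤ f z) :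
    (∑ u ∈ Finset.range (2 ^ B), ((mergeA B u x y n).1 : ℝ) * f (mergeA B u x y n).2) / 2 ^ B ≤
      (1 + η) * (((x n).1 : ℝ) * f (x n).2 + ((y n).1 : ℝ) * f (y n).2) ∧
    (1 - η) * (((x n).1 : ℝ) * f (x n).2 + ((y n).1 : ℝ) * f (y n).2) ≤
      (∑ u ∈ Finset.range (2 ^ B), ((mergeA B u x y n).1 : ℝ) * f (mergeA B u x y n).2) / 2 ^ B := by
  obtain ⟨a, ha⟩ : ∃ a, a = (x n).1 := ⟨_, rfl⟩
  obtain ⟨b, hb⟩ : ∃ b, b = (y n).1 := ⟨_, rfl⟩
  set fx := f (x n).2 with hfx
  set fy := f (y n).2 with hfy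
  have hfx0 : 0 ≤ fx := hf _
  have hfy0 : 0 ≤ fy := hf _
  have hterm : ∀ u, ((mergeA B u x y n).1 : ℝ) * f (mergeA B u x y n).2 =
      if u * (a + b) < b * 2 ^ B then ((a + b : ℕ) : ℝ) * fy else ((a + b : ℕ) : ℝ) * fx := by
    intro u
    unfold mergeA
    rw [← ha, ← hb]
    split_ifs <;> rfl
  simp only [hterm]
  rw [← ha, ← hb] at hη ⊢
  rw [Finset.sum_ite, Finset.sum_const, Finset.sum_const, nsmul_eq_mul, nsmul_eq_mul]
  set N := ((Finset.range (2 ^ B)).filter (fun u => u * (a + b) < b * 2 ^ B)).card with hN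
  have hNc : (((Finset.range (2 ^ B)).filter (fun u => ¬ u * (a + b) < b * 2 ^ B)).card : ℝ) =
      2 ^ B - N := by
    have h1 := Finset.card_filter_add_card_filter_not (s := Finset.range (2 ^ B))
      (fun u => u * (a + b) < b * 2 ^ B)
    rw [Finset.card_range, ← hN] at h1
    have h2 : ((N + ((Finset.range (2 ^ B)).filter (fun u => ¬ u * (a + b) < b * 2 ^ B)).card : ℕ) : ℝ)
        = ((2 ^ B : ℕ) : ℝ) := by rw [h1]
    push_cast at h2
    linarith
  rw [hNc]
  have hW : (0 : ℝ) < 2 ^ B := by positivity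
  rcases Nat.eq_zero_or_pos (a + b) with h0 | hS
  · have ha0 : a = 0 := by omega
    have hb0 : b = 0 := by omega
    subst ha0 hb0
    simp
  · obtain ⟨c1, c2, c3, c4, c5⟩ := count_lt (W := 2 ^ B) hS
    rw [← hN] at c1 c2 c3 c4 c5
    have r1 : (b : ℝ) * 2 ^ B ≤ N * (a + b) := by exact_mod_cast c1
    have r2 : (N : ℝ) * (a + b) ≤ b * 2 ^ B + (a + b) := by exact_mod_cast c2
    have r3 : (N : ℝ) ≤ 2 ^ B := by exact_mod_cast c3
    have hη' : ((a : ℝ) + b) ≤ η * 2 ^ B := by
      rw [div_le_iff₀ hW] at hη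
      push_cast at hη
      exact hη
    have ha0 : (0 : ℝ) ≤ a := Nat.cast_nonneg a
    have hb0 : (0 : ℝ) ≤ b := Nat.cast_nonneg b
    -- the two coefficients
    have e1 : (b : ℝ) ≤ N * (a + b) / 2 ^ B := by rw [le_div_iff₀ hW]; exact r1
    have e2 : N * ((a : ℝ) + b) / 2 ^ B ≤ b * (1 + η) := by
      rw [div_le_iff₀ hW]
      rcases Nat.eq_zero_or_pos b with hb1 | hb1
      · rw [c5 hb1]
        simp only [CharP.cast_eq_zero, zero_mul]
        positivity
      · have : (1 : ℝ) ≤ b := by exact_mod_cast hb1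
        nlinarith [mul_nonneg hη0 hW.le]
    have e3 : (2 ^ B - N) * ((a : ℝ) + b) / 2 ^ B ≤ a := by
      rw [div_le_iff₀ hW]
      nlinarith
    have e4 : a * (1 - η) ≤ (2 ^ B - N) * ((a : ℝ) + b) / 2 ^ B := by
      rw [le_div_iff₀ hW]
      rcases Nat.eq_zero_or_pos a with ha1 | ha1
      · rw [c4 ha1, ha1]
        push_cast
        simp
      · have : (1 : ℝ) ≤ a := by exact_mod_cast ha1
        nlinarith [mul_nonneg hη0 hW.le]
    have hsum : (↑N * (((a + b : ℕ) : ℝ) * fy) + (2 ^ B - ↑N) * (((a + b : ℕ) : ℝ) * fx)) / 2 ^ B =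
        N * ((a : ℝ) + b) / 2 ^ B * fy + (2 ^ B - N) * ((a : ℝ) + b) / 2 ^ B * fx := by
      push_cast
      ring
    rw [hsum]
    constructor
    · have k1 := mul_le_mul_of_nonneg_right e2 hfy0
      have k2 := mul_le_mul_of_nonneg_right e3 hfx0
      nlinarith [mul_nonneg ha0 hfx0, mul_nonneg hη0 (mul_nonneg ha0 hfx0)]
    · have k1 := mul_le_mul_of_nonneg_right e1 hfy0
      have k2 := mul_le_mul_of_nonneg_right e4 hfx0
      nlinarith [mul_nonneg hb0 hfy0, mul_nonneg hη0 (mul_nonneg hb0 hfy0)]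

theorem expA_pair_add (h : ℕ) (F F' : Arr α → ℝ) :
    expA G cell R k D B h (fun x => expA G cell R k D B h (fun y => F x + F' y)) =
      expA G cell R k D B h F + expA G cell R k D B h F' := by
  have h1 : ∀ x, expA G cell R k D B h (fun y => F x + F' y) = F x + expA G cell R k D B h F' := by
    intro x
    rw [expA_add, expA_const]
  simp only [h1]
  rw [expA_add, expA_const]

theorem expA_pair_mul (h : ℕ) (F F' : Arr α → ℝ) :
    expA G cell R k D B h (fun x => expA G cell R k D B h (fun y => F x * F' y)) =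
      expA G cell R k D B h F * expA G cell R k D B h F' := by
  have h1 : ∀ x, expA G cell R k D B h (fun y => F x * F' y) = expA G cell R k D B h F' * F x := by
    intro x
    rw [expA_mul, mul_comm]
  simp only [h1]
  rw [expA_mul, mul_comm]

theorem merge_step {P : ℕ → Finset α} {h : ℕ} (hh : ¬ (h % (k + 1) = 0 ∧ h < D * (k + 1)))
    {V : ℕ → Prop} {M : ℕ → ℝ} {U L v η : ℝ} (hM : ∀ n, 0 < M n) (hη0 : 0 ≤ η) (hη1 : η ≤ 1)
    (hη : ∀ x y, ReachA G cell R k D B h x → ReachA G cell R k D B h y → ∀ n, n < R →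
      (((x n).1 + (y n).1 : ℕ) : ℝ) / 2 ^ B ≤ η) (_hU : 0 ≤ U) (_hL : 0 ≤ L)
    (hg : Good G cell R k D B P h V M U L v) :
    Good G cell R k D B P (h + 1) V (fun n => 2 * M n) (U * (1 + η)) (L * (1 - η))
      ((v + U ^ 2) / 2) := by
  intro n hn hnR hV
  obtain ⟨g1, g2, g3⟩ := hg n hn hnR hV
  have hcomb : ∀ u x y, combA G cell R k D B h u x y = mergeA B u x y := by
    intro u x y
    unfold combA
    rw [if_neg hh]
  have hMn := hM n
  refine ⟨?_, ?_, ?_⟩
  · intro f hf
    rw [expA_succ]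
    simp only [hcomb]
    have h1 : expA G cell R k D B h (fun x => expA G cell R k D B h (fun y =>
        (∑ u ∈ Finset.range (2 ^ B), ((mergeA B u x y n).1 : ℝ) * f (mergeA B u x y n).2) / 2 ^ B)) ≤
        expA G cell R k D B h (fun x => expA G cell R k D B h (fun y =>
          (1 + η) * (((x n).1 : ℝ) * f (x n).2) + (1 + η) * (((y n).1 : ℝ) * f (y n).2))) := by
      refine expA_mono h _ _ fun x hx => expA_mono h _ _ fun y hy => ?_
      have := (merge_avg (B := B) hη0 (hη x y hx hy n hnR) hf).1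
      linarith
    refine h1.trans ?_
    rw [expA_pair_add, expA_mul]
    have h2 := g1 f hf
    have h3 := mul_le_mul_of_nonneg_left h2 (by linarith : (0 : ℝ) ≤ 1 + η)
    nlinarith
  · intro f hf
    rw [expA_succ]
    simp only [hcomb]
    have h1 : expA G cell R k D B h (fun x => expA G cell R k D B h (fun y =>
          (1 - η) * (((x n).1 : ℝ) * f (x n).2) + (1 - η) * (((y n).1 : ℝ) * f (y n).2))) ≤
        expA G cell R k D B h (fun x => expA G cell R k D B h (fun y =>
        (∑ u ∈ Finset.range (2 ^ B), ((mergeA B u x y n).1 : ℝ) * f (mergeA B u x y n).2) / 2 ^ B))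
        := by
      refine expA_mono h _ _ fun x hx => expA_mono h _ _ fun y hy => ?_
      have := (merge_avg (B := B) hη0 (hη x y hx hy n hnR) hf).2
      linarith
    refine le_trans ?_ h1
    rw [expA_pair_add, expA_mul]
    have h2 := g2 f hf
    have h3 := mul_le_mul_of_nonneg_left h2 (by linarith : (0 : ℝ) ≤ 1 - η)
    nlinarith
  · rw [expA_succ]
    simp only [hcomb]
    have hw : ∀ u (x y : Arr α), (mergeA B u x y n).1 = (x n).1 + (y n).1 := by
      intro u x y
      unfold mergeA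
      split_ifs <;> rfl
    simp only [hw]
    have h0 : ∀ x y : Arr α, (∑ u ∈ Finset.range (2 ^ B), (((x n).1 + (y n).1 : ℕ) : ℝ) ^ 2) / 2 ^ B =
        (((x n).1 : ℝ) ^ 2 + ((y n).1 : ℝ) ^ 2) + 2 * (((x n).1 : ℝ) * ((y n).1 : ℝ)) := by
      intro x y
      rw [Finset.sum_const, Finset.card_range, nsmul_eq_mul]
      push_cast
      field_simp
      ring
    simp only [h0]
    have h1 : expA G cell R k D B h (fun x => expA G cell R k D B h (fun y =>
        (((x n).1 : ℝ) ^ 2 + ((y n).1 : ℝ) ^ 2) + 2 * (((x n).1 : ℝ) * ((y n).1 : ℝ)))) =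
        2 * expA G cell R k D B h (fun x => ((x n).1 : ℝ) ^ 2) +
          2 * expA G cell R k D B h (fun x => ((x n).1 : ℝ)) ^ 2 := by
      have h2 : ∀ x : Arr α, expA G cell R k D B h (fun y =>
          (((x n).1 : ℝ) ^ 2 + ((y n).1 : ℝ) ^ 2) + 2 * (((x n).1 : ℝ) * ((y n).1 : ℝ))) =
          expA G cell R k D B h (fun y => ((x n).1 : ℝ) ^ 2 + ((y n).1 : ℝ) ^ 2) +
          2 * expA G cell R k D B h (fun y => ((x n).1 : ℝ) * ((y n).1 : ℝ)) := by
        intro x
        rw [expA_add, expA_mul]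
      simp only [h2]
      rw [expA_add, expA_mul, expA_pair_add, expA_pair_mul]
      ring
    rw [h1]
    have h4 := g1 (fun _ => 1) (fun _ => zero_le_one)
    simp only [mul_one, Finset.sum_const, nsmul_eq_mul] at h4
    have h5 : 0 ≤ expA G cell R k D B h (fun x => ((x n).1 : ℝ)) :=
      expA_nonneg h fun x => Nat.cast_nonneg _
    have h6 : expA G cell R k D B h (fun x => ((x n).1 : ℝ)) ^ 2 ≤ (U * M n * (P n).card) ^ 2 :=
      pow_le_pow_left₀ h5 h4 2
    nlinarith

end Pool.Agent.Lib.MP_104326_lc.KR
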