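import Mathlib

/-! KR, module B: the error of the approximation with sizes known up to the factor `3`
(pure analysis; compare `KC/E3`). -/

set_option autoImplicit false

namespace Pool.Agent.Lib.MP_104326_lc.KR

private theorem log_ten : Real.log 10 ≤ 3 := by
  have h : Real.log 10 ≤ Real.log (2 ^ 4) := Real.log_le_log (by norm_num) (by norm_num)
  rw [Real.log_pow] at h
  have h2 := Real.log_two_lt_d9
  push_cast at h
  linarith

private theorem log_1372 : Real.log 1372 ≤ 8 := by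
  have h : Real.log 1372 ≤ Real.log (2 ^ 11) := Real.log_le_log (by norm_num) (by norm_num)
  rw [Real.log_pow] at h
  have h2 := Real.log_two_lt_d9
  push_cast at h
  linarith

/-- the constant -/
private theorem exists_M (L : ℕ) : ∃ M : ℕ, 1 ≤ M ∧
    (L : ℝ) * (3 * Real.log (4 * M) + 40) ≤ M := by
  refine ⟨(6 * L + 46) ^ 2, Nat.one_le_pow _ _ (by omega), ?_⟩
  have hC : (0 : ℝ) < 6 * L + 46 := by positivity
  have hL : (0 : ℝ) ≤ L := Nat.cast_nonneg L
  have h1 : Real.log (4 * (6 * L + 46) ^ 2) = 2 * Real.log 2 + 2 * Real.log (6 * L + 46) := by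
    rw [Real.log_mul (by norm_num) (by positivity), Real.log_pow,
      show (4 : ℝ) = 2 ^ 2 by norm_num, Real.log_pow]
    push_cast
    ring
  have h2 := Real.log_two_lt_d9
  have h3 := Real.log_le_sub_one_of_pos hC
  push_cast
  rw [h1]
  have h4 : 3 * (2 * Real.log 2 + 2 * Real.log (6 * (L : ℝ) + 46)) + 40 ≤
      46 + 6 * (6 * L + 46) := by linarith
  have h5 := mul_le_mul_of_nonneg_left h4 hL
  nlinarith

theorem approxR {f : ℕ → ℕ} {lam : ℝ} (h1 : 1 ≤ lam) (h2 : ∀ p, 1 ≤ p → (f p : ℝ) ≤ lam ^ p)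
    (h3 : ∀ k : ℕ, 1 ≤ k → ∃ p, k ≤ p ∧ p ≤ 4 * k ∧
        Real.log lam ≤ Real.log (f p) / p + (3 * Real.log (4 * k) + Real.log 1372) / k)
    (h0 : ∀ n, 1 ≤ f n) :
    ∃ L M1 : ℕ, 1 ≤ M1 ∧ ∀ n : ℕ, 1 ≤ n → ∀ (K : ℕ) (g : ℕ → ℝ) (good : ℕ → Bool) (Y : ℕ),
      K = M1 * (n + 1) * 10 ^ (n + 2) →
      (∀ p, K ≤ p → p ≤ 4 * K → (f p : ℝ) ≤ g p ∧ g p ≤ 3 * f p) →
      (∀ y, good y = true ↔ ∃ p, K ≤ p ∧ p ≤ 4 * K ∧ ((y : ℝ) + 1) ^ p ≤ (10 ^ (n + 2)) ^ p * g p) →
      Y = ((List.range (L * 10 ^ (n + 2))).filter good).length →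
      (10 : ℝ) ^ (-(n : ℤ)) < |((Y + 500 : ℕ) : ℝ) / 10 ^ (n + 2) - lam| ∧
        |((Y + 500 : ℕ) : ℝ) / 10 ^ (n + 2) - lam| < (10 : ℝ) ^ (-(n : ℤ) + 1) := by
  classical
  obtain ⟨L, hL⟩ := exists_nat_ge lam
  obtain ⟨M, hM, hML⟩ := exists_M L
  refine ⟨L, M, hM, ?_⟩
  intro n hn k g good Y hk0 hg hgood hY
  have hMr : (1 : ℝ) ≤ M := by exact_mod_cast hM
  have hlM : 0 ≤ Real.log (4 * M) := Real.log_nonneg (by linarith)
  have hL0 : (0 : ℝ) ≤ L := Nat.cast_nonneg L
  have hD2 : (10 : ℝ) ^ (n + 2) = ((10 ^ (n + 2) : ℕ) : ℝ) := by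
    push_cast
    ring
  rw [hD2] at hgood
  set D : ℕ := 10 ^ (n + 2) with hD
  have hDpos : 0 < D := by positivity
  have hDr : (0 : ℝ) < D := by exact_mod_cast hDpos
  have hk1 : 1 ≤ k := by
    rw [hk0]
    exact Nat.one_le_iff_ne_zero.2 (by positivity)
  have hkr : (k : ℝ) = M * (n + 1) * D := by
    rw [hk0]
    push_cast
    ring
  have hkpos : (0 : ℝ) < k := by exact_mod_cast hk1
  obtain ⟨p, hp1, hp2, hp3⟩ := h3 k hk1
  have hp : 1 ≤ p := le_trans hk1 hp1
  set ε : ℝ := (3 * Real.log (4 * k) + Real.log 1372) / k with hε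
  have hn0 : (0 : ℝ) ≤ n := Nat.cast_nonneg n
  -- the bound of ε
  have hlog : Real.log (4 * k) ≤ Real.log (4 * M) + n + 3 * (n + 2) := by
    have h1 : (4 * (k : ℝ)) = (4 * M) * ((n + 1) * 10 ^ (n + 2)) := by
      rw [hkr, hD]
      push_cast
      ring
    have h4 : Real.log ((4 * M) * (((n : ℝ) + 1) * 10 ^ (n + 2))) =
        Real.log (4 * M) + (Real.log ((n : ℝ) + 1) + ((n + 2 : ℕ) : ℝ) * Real.log 10) := by
      rw [Real.log_mul (x := 4 * (M : ℝ)) (by positivity) (by positivity),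
        Real.log_mul (x := (n : ℝ) + 1) (by positivity) (by positivity), Real.log_pow]
    rw [h1, h4]
    have h2 : Real.log ((n : ℝ) + 1) ≤ n := by
      have := Real.log_le_sub_one_of_pos (show (0 : ℝ) < (n : ℝ) + 1 by positivity)
      linarith
    have h3 : ((n + 2 : ℕ) : ℝ) * Real.log 10 ≤ ((n + 2 : ℕ) : ℝ) * 3 :=
      mul_le_mul_of_nonneg_left log_ten (Nat.cast_nonneg _)
    push_cast at h3 ⊢
    linarith
  have hnum : 3 * Real.log (4 * k) + Real.log 1372 ≤ (n + 1) * (3 * Real.log (4 * M) + 40) := by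
    have h1 := log_1372
    nlinarith
  have hε0 : 0 ≤ ε := by
    rw [hε]
    refine div_nonneg ?_ hkpos.le
    have h1 : 0 ≤ Real.log (4 * (k : ℝ)) := Real.log_nonneg (by
      have : (1 : ℝ) ≤ k := by exact_mod_cast hk1
      linarith)
    have h2 : 0 ≤ Real.log 1372 := Real.log_nonneg (by norm_num)
    linarith
  have hLε : lam * ε ≤ 1 / D := by
    have h1 : lam * ε ≤ L * ε := mul_le_mul_of_nonneg_right hL hε0
    refine le_trans h1 ?_
    rw [hε, ← mul_div_assoc, div_le_div_iff₀ hkpos hDr]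
    have h2 : (L : ℝ) * (3 * Real.log (4 * k) + Real.log 1372) ≤
        L * ((n + 1) * (3 * Real.log (4 * M) + 40)) := mul_le_mul_of_nonneg_left hnum hL0
    have h3 : (L : ℝ) * ((n + 1) * (3 * Real.log (4 * M) + 40)) ≤ (n + 1) * M := by
      have := mul_le_mul_of_nonneg_left hML (show (0 : ℝ) ≤ (n : ℝ) + 1 by positivity)
      linarith
    have h4 := mul_le_mul_of_nonneg_right (le_trans h2 h3) hDr.le
    have h5 : ((n : ℝ) + 1) * M * D = k := by
      rw [hkr]
      ring
    rw [h5] at h4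
    linarith
  -- z
  have hfp : (1 : ℝ) ≤ f p := by exact_mod_cast h0 p
  have hpr : (0 : ℝ) < p := by exact_mod_cast hp
  set z : ℝ := Real.exp (Real.log (f p) / p) with hz
  have hzp : z ^ p = f p := by
    rw [hz, ← Real.exp_nat_mul, mul_div_cancel₀ _ hpr.ne', Real.exp_log (by linarith)]
  have hzl : lam - 1 / D ≤ z := by
    have h1 : Real.exp (Real.log lam - ε) ≤ z := Real.exp_le_exp.2 (by linarith)
    rw [sub_eq_add_neg, Real.exp_add, Real.exp_log (by linarith)] at h1
    have h2 := Real.add_one_le_exp (-ε)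
    have h3 : lam * (-ε + 1) ≤ lam * Real.exp (-ε) :=
      mul_le_mul_of_nonneg_left h2 (by linarith)
    linarith
  -- the good numbers
  have hlpos : (0 : ℝ) < lam := by linarith
  have hLM : lam ≤ M := by
    have h4 : (0 : ℝ) ≤ 3 * Real.log (4 * M) + 39 := by linarith
    have h5 := mul_nonneg hL0 h4
    nlinarith
  have hkD : 2 * (lam * D) ≤ k := by
    rw [hkr]
    have hn1 : (1 : ℝ) ≤ n := by exact_mod_cast hn
    have h4 : lam * D ≤ M * D := mul_le_mul_of_nonneg_right hLM hDr.le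
    have h5 : (M : ℝ) * 2 * D ≤ M * (n + 1) * D := by
      have h6 : (M : ℝ) * 2 ≤ M * (n + 1) := mul_le_mul_of_nonneg_left (by linarith) (by linarith)
      exact mul_le_mul_of_nonneg_right h6 hDr.le
    linarith
  set S : Finset ℕ := ((List.range (L * D)).filter good).toFinset with hS
  have hYS : Y = S.card := by
    rw [hY, hS, List.toFinset_card_of_nodup (List.nodup_range.filter _)]
  have hmem : ∀ y, y ∈ S ↔ y < L * D ∧
      ∃ p, k ≤ p ∧ p ≤ 4 * k ∧ ((y : ℝ) + 1) ^ p ≤ (D : ℝ) ^ p * g p := by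
    intro y
    rw [hS, List.mem_toFinset, List.mem_filter, List.mem_range, hgood]
  have hup : (Y : ℝ) ≤ lam * D + 1 := by
    have h4 : S ⊆ Finset.range ⌊lam * D + 1⌋₊ := by
      intro y hy
      obtain ⟨-, q, hq1, hq2, hq⟩ := (hmem y).1 hy
      rw [Finset.mem_range, ← Nat.succ_le_iff, Nat.le_floor_iff (by positivity)]
      have hq0 : 1 ≤ q := le_trans hk1 hq1
      by_contra hc
      rw [not_le] at hc
      push_cast at hc
      have hA : (0 : ℝ) < lam * D := by positivity
      have h5 : (lam * D + 1) ^ q < ((y : ℝ) + 1) ^ q :=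
        pow_lt_pow_left₀ hc (by positivity) (by omega)
      have h6 : ((y : ℝ) + 1) ^ q ≤ 3 * (lam * D) ^ q := by
        refine le_trans hq ?_
        have h7 := (hg q hq1 hq2).2
        have h8 := h2 q hq0
        have h9 : (D : ℝ) ^ q * g q ≤ (D : ℝ) ^ q * (3 * lam ^ q) :=
          mul_le_mul_of_nonneg_left (by linarith) (by positivity)
        rw [mul_pow]
        linarith
      have h7 : 3 * (lam * D) ^ q ≤ (lam * D + 1) ^ q := by
        have h8 : lam * D + 1 = (lam * D) * (1 + 1 / (lam * D)) := by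
          field_simp
        have h9 : (1 : ℝ) + q * (1 / (lam * D)) ≤ (1 + 1 / (lam * D)) ^ q :=
          one_add_mul_le_pow (by
            have : (0 : ℝ) ≤ 1 / (lam * D) := by positivity
            linarith) q
        have h10 : (2 : ℝ) ≤ q * (1 / (lam * D)) := by
          rw [mul_one_div, le_div_iff₀ hA]
          have : (k : ℝ) ≤ q := by exact_mod_cast hq1
          linarith
        have h13 : (lam * D + 1) ^ q = (lam * D) ^ q * (1 + 1 / (lam * D)) ^ q := by
          rw [← mul_pow, ← h8]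
        rw [h13]
        have h11 : (3 : ℝ) ≤ (1 + 1 / (lam * D)) ^ q := by linarith
        have h12 := mul_le_mul_of_nonneg_left h11 (show (0 : ℝ) ≤ (lam * D) ^ q by positivity)
        linarith
      linarith
    have h5 := Finset.card_le_card h4
    rw [Finset.card_range, ← hYS] at h5
    exact le_trans (by exact_mod_cast h5) (Nat.floor_le (by positivity))
  have hlow : lam * D - 2 < Y := by
    have h1 : Finset.range ⌊lam * D - 1⌋₊ ⊆ S := by
      intro y hy
      rw [Finset.mem_range] at hy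
      have hy1 : ((y + 1 : ℕ) : ℝ) ≤ lam * D - 1 := (Nat.le_floor_iff' (by omega)).1 hy
      rw [hmem]
      constructor
      · have h2 : ((y + 1 : ℕ) : ℝ) < ((L * D : ℕ) : ℝ) := by
          push_cast at hy1 ⊢
          have := mul_le_mul_of_nonneg_right hL hDr.le
          linarith
        have h3 : y + 1 < L * D := by exact_mod_cast h2
        omega
      · refine ⟨p, hp1, hp2, ?_⟩
        have h2 : ((y + 1 : ℕ) : ℝ) / D ≤ z := by
          refine le_trans ?_ hzl
          rw [div_le_iff₀ hDr, sub_mul, one_div, inv_mul_cancel₀ hDr.ne']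
          exact hy1
        have h3 : (((y + 1 : ℕ) : ℝ) / D) ^ p ≤ f p := by
          rw [← hzp]
          exact pow_le_pow_left₀ (by positivity) h2 p
        rw [div_pow, div_le_iff₀ (by positivity)] at h3
        have h4 := (hg p hp1 hp2).1
        have h5 := mul_le_mul_of_nonneg_left h4 (show (0 : ℝ) ≤ (D : ℝ) ^ p by positivity)
        push_cast at h3
        linarith
    have h2 := Finset.card_le_card h1
    rw [Finset.card_range, ← hYS] at h2
    have h3 := Nat.lt_floor_add_one (lam * D - 1)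
    have h4 : ((⌊lam * D - 1⌋₊ : ℕ) : ℝ) ≤ Y := by exact_mod_cast h2
    linarith
  -- the end
  have hD3 : (D : ℝ) = 10 ^ n * 100 := by
    rw [← hD2]
    ring
  have hT : (0 : ℝ) < 10 ^ n := by positivity
  rw [hD2]
  have hdiff : ((Y + 500 : ℕ) : ℝ) / D - lam = (Y + 500 - lam * D) / D := by
    push_cast
    field_simp
  have hpos : 0 < (Y + 500 - lam * D) / D := div_pos (by linarith) hDr
  rw [hdiff, abs_of_pos hpos, zpow_add₀ (by norm_num), zpow_neg, zpow_natCast, zpow_one,
    lt_div_iff₀ hDr, div_lt_iff₀ hDr]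
  constructor
  · rw [hD3, inv_mul_cancel_left₀ hT.ne', ← hD3]
    linarith
  · rw [hD3]
    have h1 : (10 ^ n : ℝ)⁻¹ * 10 * (10 ^ n * 100) = 1000 := by
      field_simp
      norm_num
    rw [h1, ← hD3]
    linarith

end Pool.Agent.Lib.MP_104326_lc.KR
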