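import Pool.Agent.Lib.MP_104326_lc.KR.Defs

/-! # KR, module C2a: `expA` is a positive linear functional; bounds for the weights -/

set_option autoImplicit false

namespace Pool.Agent.Lib.MP_104326_lc.KR

variable {α : Type} {G : ℕ → ℕ → α → α → Option α} {cell : α} {R k D B : ℕ}

theorem expA_add (h : ℕ) : ∀ F F' : Arr α → ℝ, expA G cell R k D B h (fun x => F x + F' x) =
    expA G cell R k D B h F + expA G cell R k D B h F' := by
  induction h with
  | zero => intro F F'; rfl
  | succ h ih =>
    intro F F'
    simp only [expA]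
    rw [← add_div, ← Finset.sum_add_distrib]
    congr 1
    refine Finset.sum_congr rfl fun u _ => ?_
    rw [← ih]
    congr 1
    funext x
    rw [← ih]

theorem expA_mul (h : ℕ) (c : ℝ) : ∀ F : Arr α → ℝ,
    expA G cell R k D B h (fun x => c * F x) = c * expA G cell R k D B h F := by
  induction h with
  | zero => intro F; rfl
  | succ h ih =>
    intro F
    simp only [expA]
    rw [← mul_div_assoc, Finset.mul_sum]
    congr 1
    refine Finset.sum_congr rfl fun u _ => ?_
    rw [← ih]
    congr 1
    funext x
    rw [← ih]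

theorem expA_const (h : ℕ) (c : ℝ) : expA G cell R k D B h (fun _ => c) = c := by
  induction h with
  | zero => rfl
  | succ h ih =>
    simp only [expA, ih]
    rw [Finset.sum_const, Finset.card_range, nsmul_eq_mul]
    push_cast
    rw [mul_div_assoc, mul_comm, div_mul_cancel₀]
    positivity

theorem expA_sum (h : ℕ) {ι : Type} (s : Finset ι) (F : ι → Arr α → ℝ) :
    expA G cell R k D B h (fun x => ∑ i ∈ s, F i x) = ∑ i ∈ s, expA G cell R k D B h (F i) := by
  classical
  induction s using Finset.induction_on with
  | empty => simp only [Finset.sum_empty]; exact expA_const h 0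
  | insert a s ha ih =>
    simp only [Finset.sum_insert ha]
    rw [expA_add, ih]

variable (G cell R k D B) in
/-- The arrays that occur at height `h`. -/
def ReachA : ℕ → Arr α → Prop
  | 0, x => x = leafA k cell
  | h + 1, x => ∃ u a b, u < 2 ^ B ∧ ReachA h a ∧ ReachA h b ∧ x = combA G cell R k D B h u a b

theorem expA_mono (h : ℕ) : ∀ F F' : Arr α → ℝ, (∀ x, ReachA G cell R k D B h x → F x ≤ F' x) →
    expA G cell R k D B h F ≤ expA G cell R k D B h F' := by
  induction h with
  | zero => intro F F' hF; exact hF _ rfl
  | succ h ih =>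
    intro F F' hF
    simp only [expA]
    refine div_le_div_of_nonneg_right ?_ (by positivity)
    refine Finset.sum_le_sum fun u hu => ?_
    refine ih _ _ fun x hx => ih _ _ fun y hy => hF _ ?_
    exact ⟨u, x, y, Finset.mem_range.1 hu, hx, hy, rfl⟩

theorem expA_congr (h : ℕ) {F F' : Arr α → ℝ} (hF : ∀ x, ReachA G cell R k D B h x → F x = F' x) :
    expA G cell R k D B h F = expA G cell R k D B h F' :=
  le_antisymm (expA_mono h _ _ fun x hx => (hF x hx).le)
    (expA_mono h _ _ fun x hx => (hF x hx).ge)

theorem expA_nonneg (h : ℕ) {F : Arr α → ℝ} (hF : ∀ x, 0 ≤ F x) :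
    0 ≤ expA G cell R k D B h F := by
  have := expA_mono (G := G) (cell := cell) (R := R) (k := k) (D := D) (B := B) h (fun _ => 0) F
    (fun x _ => hF x)
  rwa [expA_const] at this

/-- The random number is drawn last. -/
theorem expA_succ (h : ℕ) (F : Arr α → ℝ) : expA G cell R k D B (h + 1) F =
    expA G cell R k D B h (fun x => expA G cell R k D B h (fun y =>
      (∑ u ∈ Finset.range (2 ^ B), F (combA G cell R k D B h u x y)) / 2 ^ B)) := by
  simp only [expA, div_eq_inv_mul]
  simp only [expA_mul, expA_sum]

theorem reach_zero (hbal : ∀ n w A B', G n w A B' ≠ none → n ≤ 8 * (w % R) ∧ 8 * (w % R) ≤ 7 * n)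
    (h : ℕ) : ∀ x, ReachA G cell R k D B h x → (x 0).1 = 0 := by
  induction h with
  | zero => rintro x rfl; simp [leafA]
  | succ h ih =>
    rintro x ⟨u, a, b, -, ha, hb, rfl⟩
    unfold combA
    split_ifs with hc
    · unfold glueA
      simp only [zero_ne_one, if_false]
      split_ifs with hR
      · cases hG : G 0 (u % R ^ 5) (a (u % R)).2 (b (0 - u % R)).2 with
        | none => rfl
        | some Z =>
          simp only
          have := hbal 0 (u % R ^ 5) _ _ (by rw [hG]; exact Option.some_ne_none Z)
          have h1 : u % R ^ 5 % R = u % R := Nat.mod_mod_of_dvd u (Dvd.intro_left (R ^ 4) rfl)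
          rw [h1] at this
          have h2 : u % R = 0 := by omega
          rw [h2, ih a ha, zero_mul]
      · rfl
    · unfold mergeA
      rw [ih a ha, ih b hb]
      split_ifs <;> rfl

/-- Bounds for the weights. -/
theorem reach_le (hbal : ∀ n w A B', G n w A B' ≠ none → n ≤ 8 * (w % R) ∧ 8 * (w % R) ≤ 7 * n)
    (h : ℕ) : ∀ x, ReachA G cell R k D B h x → ∀ n, (x (n + 1)).1 ≤ 2 ^ ((h + k) * (2 * n + 1)) := by
  induction h with
  | zero =>
    rintro x rfl n
    unfold leafA
    split_ifs with h1
    · have : n = 0 := by omega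
      subst this
      simp
    · simp
  | succ h ih =>
    rintro x ⟨u, a, b, -, ha, hb, rfl⟩ n
    unfold combA
    split_ifs with hc
    · unfold glueA
      split_ifs with h1 h2
      · exact Nat.one_le_two_pow
      · cases hG : G (n + 1) (u % R ^ 5) (a (u % R)).2 (b (n + 1 - u % R)).2 with
        | none => simp
        | some Z =>
          simp only
          have h3 := hbal (n + 1) (u % R ^ 5) _ _ (by rw [hG]; exact Option.some_ne_none Z)
          have h4 : u % R ^ 5 % R = u % R := Nat.mod_mod_of_dvd u (Dvd.intro_left (R ^ 4) rfl)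
          rw [h4] at h3
          obtain ⟨i, hi⟩ : ∃ i, u % R = i + 1 := ⟨u % R - 1, by omega⟩
          obtain ⟨j, hj⟩ : ∃ j, n + 1 - u % R = j + 1 := ⟨n + 1 - u % R - 1, by omega⟩
          rw [hj, hi]
          have h5 := Nat.mul_le_mul (ih a ha i) (ih b hb j)
          refine h5.trans ?_
          rw [← pow_add]
          refine Nat.pow_le_pow_right (by norm_num) ?_
          have h6 : n = i + j + 1 := by omega
          subst h6
          nlinarith
      · simp
    · have h1 := ih a ha n
      have h2 := ih b hb n
      have h3 : (a (n + 1)).1 + (b (n + 1)).1 ≤ 2 ^ ((h + 1 + k) * (2 * n + 1)) := by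
        have : 2 ^ ((h + k) * (2 * n + 1) + 1) ≤ 2 ^ ((h + 1 + k) * (2 * n + 1)) := by
          refine Nat.pow_le_pow_right (by norm_num) ?_
          nlinarith
        rw [pow_succ] at this
        omega
      unfold mergeA
      split_ifs <;> exact h3

end Pool.Agent.Lib.MP_104326_lc.KR
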