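import Pool.Agent.Lib.MP_104326_lc.KR.C2b

/-! # KR, module C2c: one gluing step -/

set_option autoImplicit false

namespace Pool.Agent.Lib.MP_104326_lc.KR

variable {α : Type} {G : ℕ → ℕ → α → α → Option α} {cell : α} {R k D B : ℕ}

/-- Residues of uniform numbers are uniform. -/
theorem sum_mod (m q : ℕ) (F : ℕ → ℝ) :
    ∑ u ∈ Finset.range (m * q), F (u % m) = q * ∑ w ∈ Finset.range m, F w := by
  induction q with
  | zero => simp
  | succ q ih =>
    rw [Nat.mul_succ, Finset.sum_range_add, ih]
    have h1 : ∑ x ∈ Finset.range m, F ((m * q + x) % m) = ∑ w ∈ Finset.range m, F w := by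
      refine Finset.sum_congr rfl fun w hw => ?_
      rw [Nat.mul_add_mod, Nat.mod_eq_of_lt (Finset.mem_range.1 hw)]
    rw [h1]
    push_cast
    ring

theorem glue_step {P : ℕ → Finset α} {h ρ : ℕ} (hh : h % (k + 1) = 0 ∧ h < D * (k + 1))
    (hR : R = 2 ^ ρ) (hB : 5 * ρ ≤ B)
    {V V' : ℕ → Prop} {M M' : ℕ → ℝ} {U L v : ℝ} (hM : ∀ n, 0 < M n) (_hM' : ∀ n, 0 < M' n)
    (hU : 1 ≤ U) (hL : 0 ≤ L) (hL1 : L ≤ 1) (hv : 1 ≤ v)
    (hP1 : P 1 = {cell}) 
    (hsup : ∀ a b, 1 ≤ a → 1 ≤ b → (P a).card * (P b).card ≤ (P (a + b)).card)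
    (hbal : ∀ n w A B, G n w A B ≠ none → n ≤ 8 * (w % R) ∧ 8 * (w % R) ≤ 7 * n)
    (hsum : ∀ n, 2 ≤ n → n < R → ∀ f : α → ℝ,
      ∑ w ∈ Finset.range (R ^ 5), ∑ A ∈ P (w % R), ∑ B ∈ P (n - w % R), (G n w A B).elim 0 f =
        ∑ Z ∈ P n, f Z)
    (hVV : ∀ n m, 2 ≤ n → V' n → n ≤ 8 * m → 8 * m ≤ 7 * n → V m ∧ V (n - m))
    (hMM : ∀ n m, 2 ≤ n → n ≤ 8 * m → 8 * m ≤ 7 * n → M m * M (n - m) = (R : ℝ) ^ 5 * M' n)
    (hM1 : M' 1 = 1)
    (hg : Good G cell R k D B P h V M U L v) :
    Good G cell R k D B P (h + 1) V' M' (U ^ 2) (L ^ 2) (v ^ 2 * (R : ℝ) ^ 10) := by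
  intro n hn hnR hV
  have hcomb : ∀ u x y, combA G cell R k D B h u x y = glueA G cell R u x y := by
    intro u x y
    unfold combA
    rw [if_pos hh]
  have hRpos : 0 < R := by omega
  have hR1 : (1 : ℝ) ≤ R := by exact_mod_cast hRpos
  have hW : (0 : ℝ) < 2 ^ B := by positivity
  have hU2 : 1 ≤ U ^ 2 := one_le_pow₀ hU
  have hL2 : L ^ 2 ≤ 1 := pow_le_one₀ hL hL1
  have hv2 : 1 ≤ v ^ 2 * (R : ℝ) ^ 10 := by
    have h1 : 1 ≤ v ^ 2 := one_le_pow₀ hv
    have h2 : 1 ≤ (R : ℝ) ^ 10 := one_le_pow₀ hR1
    nlinarith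
  rcases Nat.lt_or_ge n 2 with hn1 | hn2
  · -- size one
    have : n = 1 := by omega
    subst this
    have h1 : ∀ u (x y : Arr α), glueA G cell R u x y 1 = (1, cell) := by
      intro u x y
      unfold glueA
      rw [if_pos rfl]
    have h2 : ∀ f : α → ℝ, expA G cell R k D B (h + 1) (fun x => ((x 1).1 : ℝ) * f (x 1).2) =
        f cell := by
      intro f
      rw [expA_succ]
      simp only [hcomb, h1]
      rw [Finset.sum_const, Finset.card_range, nsmul_eq_mul]
      have : ((2 ^ B : ℕ) : ℝ) * (((1 : ℕ) : ℝ) * f cell) / 2 ^ B = f cell := by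
        push_cast
        field_simp
      rw [this, expA_const, expA_const]
    have h3 : expA G cell R k D B (h + 1) (fun x => ((x 1).1 : ℝ) ^ 2) = 1 := by
      rw [expA_succ]
      simp only [hcomb, h1]
      rw [Finset.sum_const, Finset.card_range, nsmul_eq_mul]
      have : ((2 ^ B : ℕ) : ℝ) * (((1 : ℕ) : ℝ) ^ 2) / 2 ^ B = 1 := by
        push_cast
        field_simp
      rw [this, expA_const, expA_const]
    refine ⟨fun f hf => ?_, fun f hf => ?_, ?_⟩
    · rw [h2, hM1, hP1, Finset.sum_singleton]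
      have := hf cell
      nlinarith
    · rw [h2, hM1, hP1, Finset.sum_singleton]
      have := hf cell
      nlinarith
    · rw [h3, hM1, hP1, Finset.card_singleton]
      simpa using hv2
  · -- size at least two
    have hne : n ≠ 1 := by omega
    have hmod : ∀ u, u % R ^ 5 % R = u % R := fun u =>
      Nat.mod_mod_of_dvd u (Dvd.intro_left (R ^ 4) rfl)
    have hpowB : 2 ^ B = R ^ 5 * 2 ^ (B - 5 * ρ) := by
      rw [hR, ← pow_mul, ← pow_add]
      congr 1
      omega
    -- averages over `u`
    have havg : ∀ F : ℕ → ℝ, (∑ u ∈ Finset.range (2 ^ B), F (u % R ^ 5)) / 2 ^ B =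
        (∑ w ∈ Finset.range (R ^ 5), F w) / (R : ℝ) ^ 5 := by
      intro F
      have h1 : ((2 : ℝ) ^ B) = (R : ℝ) ^ 5 * 2 ^ (B - 5 * ρ) := by exact_mod_cast hpowB
      rw [hpowB, sum_mod, h1]
      push_cast
      have h2 : (R : ℝ) ^ 5 ≠ 0 := by positivity
      field_simp
    -- the value at `u`
    have hval : ∀ (f : α → ℝ) u (x y : Arr α),
        ((glueA G cell R u x y n).1 : ℝ) * f (glueA G cell R u x y n).2 =
        ((x (u % R)).1 : ℝ) * (((y (n - u % R)).1 : ℝ) *
          (G n (u % R ^ 5) (x (u % R)).2 (y (n - u % R)).2).elim 0 f) := by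
      intro f u x y
      unfold glueA
      rw [if_neg hne, if_pos hnR]
      cases G n (u % R ^ 5) (x (u % R)).2 (y (n - u % R)).2 with
      | none => simp
      | some Z => simp only [Option.elim_some]; push_cast; ring
    have hval2 : ∀ u (x y : Arr α), ((glueA G cell R u x y n).1 : ℝ) ^ 2 ≤
        ((x (u % R)).1 : ℝ) ^ 2 * ((y (n - u % R)).1 : ℝ) ^ 2 := by
      intro u x y
      unfold glueA
      rw [if_neg hne, if_pos hnR]
      cases G n (u % R ^ 5) (x (u % R)).2 (y (n - u % R)).2 with
      | none => simp; positivity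
      | some Z => simp only; push_cast; rw [mul_pow]
    have hval2' : ∀ u (x y : Arr α), ¬ (n ≤ 8 * (u % R) ∧ 8 * (u % R) ≤ 7 * n) →
        ((glueA G cell R u x y n).1 : ℝ) ^ 2 = 0 := by
      intro u x y hu
      unfold glueA
      rw [if_neg hne, if_pos hnR]
      cases hG : G n (u % R ^ 5) (x (u % R)).2 (y (n - u % R)).2 with
      | none => simp
      | some Z =>
        exfalso
        have h1 := hbal n (u % R ^ 5) _ _ (by rw [hG]; exact Option.some_ne_none Z)
        rw [hmod] at h1
        exact hu h1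
    have hF0 : ∀ (f : α → ℝ) w A B', ¬ (n ≤ 8 * (w % R) ∧ 8 * (w % R) ≤ 7 * n) →
        (G n w A B').elim 0 f = 0 := by
      intro f w A B' hw
      cases hG : G n w A B' with
      | none => rfl
      | some Z => exact absurd (hbal n w _ _ (by rw [hG]; exact Option.some_ne_none Z)) hw
    have hFn : ∀ (f : α → ℝ), (∀ z, 0 ≤ f z) → ∀ w A B', 0 ≤ (G n w A B').elim 0 f := by
      intro f hf w A B'
      cases G n w A B' with
      | none => exact le_rfl
      | some Z => exact hf Z
    -- mean for one `u`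
    have hone : ∀ (f : α → ℝ), (∀ z, 0 ≤ f z) → ∀ w,
        expA G cell R k D B h (fun x => expA G cell R k D B h (fun y =>
          ((x (w % R)).1 : ℝ) * (((y (n - w % R)).1 : ℝ) *
            (G n w (x (w % R)).2 (y (n - w % R)).2).elim 0 f))) ≤
          U ^ 2 * ((R : ℝ) ^ 5 * M' n) * ∑ A ∈ P (w % R), ∑ B' ∈ P (n - w % R),
            (G n w A B').elim 0 f ∧
        L ^ 2 * ((R : ℝ) ^ 5 * M' n) * (∑ A ∈ P (w % R), ∑ B' ∈ P (n - w % R),
            (G n w A B').elim 0 f) ≤
        expA G cell R k D B h (fun x => expA G cell R k D B h (fun y =>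
          ((x (w % R)).1 : ℝ) * (((y (n - w % R)).1 : ℝ) *
            (G n w (x (w % R)).2 (y (n - w % R)).2).elim 0 f))) := by
      intro f hf w
      by_cases hw : n ≤ 8 * (w % R) ∧ 8 * (w % R) ≤ 7 * n
      · set m := w % R with hm
        obtain ⟨hV1, hV2⟩ := hVV n m hn2 hV hw.1 hw.2
        have hm1 : 1 ≤ m := by omega
        have hmR : m < R := by omega
        have hm2 : 1 ≤ n - m := by omega
        obtain ⟨a1, a2, -⟩ := hg m hm1 hmR hV1
        obtain ⟨b1, b2, -⟩ := hg (n - m) hm2 (by omega) hV2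
        have hMm := hM m
        have hMn := hM (n - m)
        have hprod := hMM n m hn2 hw.1 hw.2
        constructor
        · have e2 : expA G cell R k D B h (fun x => expA G cell R k D B h (fun y => ((x m).1 : ℝ) *
                (((y (n - m)).1 : ℝ) * (G n w (x m).2 (y (n - m)).2).elim 0 f))) ≤
              expA G cell R k D B h (fun x => (U * M (n - m)) * (((x m).1 : ℝ) *
                (fun A => ∑ B' ∈ P (n - m), (G n w A B').elim 0 f) (x m).2)) := by
            refine expA_mono h _ _ fun x _ => ?_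
            rw [expA_mul]
            have h1 := b1 (fun B' => (G n w (x m).2 B').elim 0 f) (fun B' => hFn f hf w _ B')
            have h2 := mul_le_mul_of_nonneg_left h1 (Nat.cast_nonneg (α := ℝ) (x m).1)
            simp only at h2 ⊢
            linarith
          refine e2.trans ?_
          rw [expA_mul]
          have h1 := a1 (fun A => ∑ B' ∈ P (n - m), (G n w A B').elim 0 f)
            (fun A => Finset.sum_nonneg fun B' _ => hFn f hf w A B')
          have h2 := mul_le_mul_of_nonneg_left h1 (by positivity : 0 ≤ U * M (n - m))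
          refine h2.trans (le_of_eq ?_)
          rw [← hprod]
          ring
        · have e2 : expA G cell R k D B h (fun x => (L * M (n - m)) * (((x m).1 : ℝ) *
                (fun A => ∑ B' ∈ P (n - m), (G n w A B').elim 0 f) (x m).2)) ≤
              expA G cell R k D B h (fun x => expA G cell R k D B h (fun y => ((x m).1 : ℝ) *
                (((y (n - m)).1 : ℝ) * (G n w (x m).2 (y (n - m)).2).elim 0 f))) := by
            refine expA_mono h _ _ fun x _ => ?_
            rw [expA_mul]
            have h1 := b2 (fun B' => (G n w (x m).2 B').elim 0 f) (fun B' => hFn f hf w _ B')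
            have h2 := mul_le_mul_of_nonneg_left h1 (Nat.cast_nonneg (α := ℝ) (x m).1)
            simp only at h2 ⊢
            linarith
          refine le_trans ?_ e2
          rw [expA_mul]
          have h1 := a2 (fun A => ∑ B' ∈ P (n - m), (G n w A B').elim 0 f)
            (fun A => Finset.sum_nonneg fun B' _ => hFn f hf w A B')
          have h2 := mul_le_mul_of_nonneg_left h1 (by positivity : 0 ≤ L * M (n - m))
          refine le_trans (le_of_eq ?_) h2
          rw [← hprod]
          ring
      · have h0 : ∀ x y : Arr α, ((x (w % R)).1 : ℝ) * (((y (n - w % R)).1 : ℝ) *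
            (G n w (x (w % R)).2 (y (n - w % R)).2).elim 0 f) = 0 := by
          intro x y
          rw [hF0 f w _ _ hw, mul_zero, mul_zero]
        simp only [expA_const, hF0 f w _ _ hw, Finset.sum_const_zero, mul_zero]
        exact ⟨le_rfl, le_rfl⟩
    have hsq : 0 < (R : ℝ) ^ 5 := by positivity
    have hmean : ∀ f : α → ℝ, expA G cell R k D B (h + 1) (fun x => ((x n).1 : ℝ) * f (x n).2) =
        (∑ w ∈ Finset.range (R ^ 5), expA G cell R k D B h (fun x => expA G cell R k D B h (fun y =>
          ((x (w % R)).1 : ℝ) * (((y (n - w % R)).1 : ℝ) *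
            (G n w (x (w % R)).2 (y (n - w % R)).2).elim 0 f)))) / (R : ℝ) ^ 5 := by
      intro f
      rw [← havg]
      simp only [expA, hcomb, hval, hmod]
    refine ⟨fun f hf => ?_, fun f hf => ?_, ?_⟩
    · rw [hmean, div_le_iff₀ hsq]
      refine (Finset.sum_le_sum fun w _ => (hone f hf w).1).trans (le_of_eq ?_)
      rw [← Finset.mul_sum, hsum n hn2 hnR f]
      ring
    · rw [hmean, le_div_iff₀ hsq]
      refine le_trans (le_of_eq ?_) (Finset.sum_le_sum fun w _ => (hone f hf w).2)
      rw [← Finset.mul_sum, hsum n hn2 hnR f]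
      ring
    · simp only [expA, hcomb]
      rw [div_le_iff₀ hW]
      have hbd : ∀ u ∈ Finset.range (2 ^ B), expA G cell R k D B h (fun x =>
          expA G cell R k D B h (fun y => ((glueA G cell R u x y n).1 : ℝ) ^ 2)) ≤
          v ^ 2 * (R : ℝ) ^ 10 * (M' n * (P n).card) ^ 2 := by
        intro u _
        by_cases hw : n ≤ 8 * (u % R) ∧ 8 * (u % R) ≤ 7 * n
        · set m := u % R with hm
          obtain ⟨hV1, hV2⟩ := hVV n m hn2 hV hw.1 hw.2
          have hm1 : 1 ≤ m := by omega
          have hmR : m < R := by omega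
          have hm2 : 1 ≤ n - m := by omega
          obtain ⟨-, -, a3⟩ := hg m hm1 hmR hV1
          obtain ⟨-, -, b3⟩ := hg (n - m) hm2 (by omega) hV2
          have hprod := hMM n m hn2 hw.1 hw.2
          have h1 : expA G cell R k D B h (fun x => expA G cell R k D B h (fun y =>
              ((glueA G cell R u x y n).1 : ℝ) ^ 2)) ≤
              expA G cell R k D B h (fun x => expA G cell R k D B h (fun y =>
              ((x m).1 : ℝ) ^ 2 * ((y (n - m)).1 : ℝ) ^ 2)) :=
            expA_mono h _ _ fun x _ => expA_mono h _ _ fun y _ => hval2 u x y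
          have e0 := expA_pair_mul (G := G) (cell := cell) (R := R) (k := k) (D := D) (B := B) h
            (fun x => ((x m).1 : ℝ) ^ 2) (fun y => ((y (n - m)).1 : ℝ) ^ 2)
          refine (h1.trans (le_of_eq e0)).trans ?_
          have h2 : expA G cell R k D B h (fun x => ((x m).1 : ℝ) ^ 2) *
              expA G cell R k D B h (fun y => ((y (n - m)).1 : ℝ) ^ 2) ≤
              (v * (M m * (P m).card) ^ 2) * (v * (M (n - m) * (P (n - m)).card) ^ 2) :=
            mul_le_mul a3 b3 (expA_nonneg h fun x => by positivity) (by positivity)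
          refine h2.trans ?_
          have h3 : (((P m).card : ℝ) * (P (n - m)).card) ≤ (P n).card := by
            have := hsup m (n - m) hm1 hm2
            rw [show m + (n - m) = n by omega] at this
            exact_mod_cast this
          have h4 : v * (M m * ↑(P m).card) ^ 2 * (v * (M (n - m) * ↑(P (n - m)).card) ^ 2) =
              v ^ 2 * ((M m * M (n - m)) ^ 2 * (((P m).card : ℝ) * (P (n - m)).card) ^ 2) := by ring
          have h5 : v ^ 2 * (R : ℝ) ^ 10 * (M' n * (P n).card) ^ 2 =
              v ^ 2 * (((R : ℝ) ^ 5 * M' n) ^ 2 * ((P n).card : ℝ) ^ 2) := by ring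
          rw [h4, h5, hprod]
          refine mul_le_mul_of_nonneg_left (mul_le_mul_of_nonneg_left ?_ (by positivity))
            (by positivity)
          exact pow_le_pow_left₀ (by positivity) h3 2
        · have h0 : ∀ x y : Arr α, ((glueA G cell R u x y n).1 : ℝ) ^ 2 = 0 :=
            fun x y => hval2' u x y hw
          simp only [h0, expA_const]
          positivity
      refine (Finset.sum_le_sum hbd).trans (le_of_eq ?_)
      rw [Finset.sum_const, Finset.card_range, nsmul_eq_mul]
      push_cast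
      ring

end Pool.Agent.Lib.MP_104326_lc.KR
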