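import Pool.Agent.Lib.MP_104326_lc.KC.A3

/-!
# KR, module Cov: sets of cells which hang on a list of cells

`CoverBy p R`: every cell of `R` is joined inside `R` to a cell of the list `p`.  The number of
such sets with `r` cells is at most `(r + 1) ^ (2 * p.length) * t r`: induction on the list, the
component of the first cell of the list is a rooted polyomino or empty.
-/

set_option autoImplicit false

namespace Pool.Agent.Lib.MP_104326_lc.KR

open Pool.Agent.Lib.MP_104326_lc

/-- Every cell of `R` is joined inside `R` to a cell of `p`. -/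
def CoverBy (p : List (ℤ × ℤ)) (R : Finset (ℤ × ℤ)) : Prop :=
  ∀ x ∈ R, ∃ q ∈ p, q ∈ R ∧ Relation.ReflTransGen (fun x y => y ∈ R ∧ Adj x y) q x

private theorem cov_t_zero : t 0 = 1 := by
  have hsub : Subsingleton (Omino 0) := by
    refine ⟨fun P Q => Subtype.ext ?_⟩
    rw [Finset.card_eq_zero.1 P.2.1, Finset.card_eq_zero.1 Q.2.1]
  have h1 := t_pos 0
  have h2 : Subsingleton (Quot (Translate (n := 0))) := by
    refine ⟨fun x y => ?_⟩
    induction x using Quot.ind with
    | mk x =>
      induction y using Quot.ind with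
      | mk y => rw [Subsingleton.elim x y]
  have h3 : Finite (Quot (Translate (n := 0))) := Finite.of_subsingleton
  have h4 : t 0 ≤ 1 := by
    unfold t
    exact Finite.card_le_one_iff_subsingleton.2 h2
  omega

private theorem cov_mul {r s : ℕ} (hs : s ≤ r) : t s * t (r - s) ≤ t r := by
  rcases Nat.eq_zero_or_pos s with h | h
  · subst h
    rw [cov_t_zero, one_mul, Nat.sub_zero]
  · rcases Nat.eq_or_lt_of_le hs with h' | h'
    · subst h'
      rw [Nat.sub_self, cov_t_zero, mul_one]
    · have h1 := t_mul_le (a := s) (b := r - s) h (by omega)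
      have h2 : s + (r - s) = r := by omega
      rw [h2] at h1
      exact h1

/-- the sets with `s` cells which are empty or connected and contain `q` -/
private theorem cov_root (q : ℤ × ℤ) (s : ℕ) : ∃ G : Finset (Finset (ℤ × ℤ)),
    G.card ≤ (s + 1) * t s ∧ ∀ R : Finset (ℤ × ℤ), R.card = s → (R = ∅ ∨ (q ∈ R ∧ Conn R)) → R ∈ G := by
  classical
  rcases Nat.eq_zero_or_pos s with h | h
  · subst h
    refine ⟨{∅}, ?_, ?_⟩
    · rw [Finset.card_singleton, cov_t_zero]
    · intro R hR _
      rw [Finset.mem_singleton]
      exact Finset.card_eq_zero.1 hR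
  · refine ⟨(finite_rooted s).toFinset.image (fun P => P.image (· + q)), ?_, ?_⟩
    · refine Finset.card_image_le.trans ?_
      have h1 : (finite_rooted s).toFinset.card = c s := by
        unfold c
        exact (Nat.card_eq_card_finite_toFinset (finite_rooted s)).symm
      rw [h1, c_eq h]
      exact Nat.mul_le_mul_right _ (Nat.le_succ s)
    · intro R hR hR'
      rcases hR' with h0 | ⟨hq, hc⟩
      · rw [h0, Finset.card_empty] at hR
        omega
      · refine Finset.mem_image.2 ⟨R.image (· + -q), ?_, ?_⟩
        · rw [Set.Finite.mem_toFinset]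
          refine ⟨by rw [card_shift, hR], conn_shift _ hc, Finset.mem_image.2 ⟨q, hq, ?_⟩⟩
          exact add_neg_cancel q
        · rw [shift_shift, neg_add_cancel, shift_zero]

/-- The number of sets which hang on `p`. -/
theorem cover_card (p : List (ℤ × ℤ)) : ∀ r : ℕ, ∃ F : Finset (Finset (ℤ × ℤ)),
    F.card ≤ (r + 1) ^ (3 * p.length) * t r ∧
      ∀ R : Finset (ℤ × ℤ), R.card = r → CoverBy p R → R ∈ F := by
  classical
  induction p with
  | nil =>
    intro r
    rcases Nat.eq_zero_or_pos r with h | h
    · subst h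
      refine ⟨{∅}, ?_, ?_⟩
      · rw [Finset.card_singleton, cov_t_zero]
        simp
      · intro R hR _
        rw [Finset.mem_singleton]
        exact Finset.card_eq_zero.1 hR
    · refine ⟨∅, Nat.zero_le _, ?_⟩
      intro R hR hc
      exfalso
      have h1 : R.Nonempty := by
        rw [← Finset.card_pos]
        omega
      obtain ⟨x, hx⟩ := h1
      obtain ⟨q, hq, _⟩ := hc x hx
      exact List.not_mem_nil hq
  | cons q p ih =>
    intro r
    choose F hF hF' using ih
    choose G hG hG' using cov_root q
    refine ⟨(Finset.range (r + 1)).biUnion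
      (fun s => ((G s) ×ˢ (F (r - s))).image (fun z => z.1 ∪ z.2)), ?_, ?_⟩
    · refine Finset.card_biUnion_le.trans ?_
      have h1 : ∀ s ∈ Finset.range (r + 1),
          (((G s) ×ˢ (F (r - s))).image (fun z => z.1 ∪ z.2)).card ≤
            (r + 1) * ((r + 1) ^ (3 * p.length) * t r) := by
        intro s hs
        have hs' : s ≤ r := Nat.lt_succ_iff.1 (Finset.mem_range.1 hs)
        refine Finset.card_image_le.trans ?_
        rw [Finset.card_product]
        calc (G s).card * (F (r - s)).card
            ≤ ((s + 1) * t s) * ((r - s + 1) ^ (3 * p.length) * t (r - s)) :=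
              Nat.mul_le_mul (hG s) (hF (r - s))
          _ = (s + 1) * ((r - s + 1) ^ (3 * p.length) * (t s * t (r - s))) := by ring
          _ ≤ (r + 1) * ((r + 1) ^ (3 * p.length) * t r) := by
              refine Nat.mul_le_mul (by omega) (Nat.mul_le_mul ?_ (cov_mul hs'))
              exact Nat.pow_le_pow_left (by omega) _
      refine (Finset.sum_le_sum h1).trans ?_
      rw [Finset.sum_const, Finset.card_range, smul_eq_mul]
      have h2 : (r + 1) ^ (3 * (q :: p).length) = (r + 1) ^ (3 * p.length) * (r + 1) ^ 3 := by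
        rw [List.length_cons, ← pow_add]
        ring_nf
      rw [h2]
      calc (r + 1) * ((r + 1) * ((r + 1) ^ (3 * p.length) * t r))
          = (r + 1) ^ (3 * p.length) * (r + 1) ^ 2 * t r := by ring
        _ ≤ (r + 1) ^ (3 * p.length) * (r + 1) ^ 3 * t r := by
            refine Nat.mul_le_mul_right _ (Nat.mul_le_mul_left _ ?_)
            exact Nat.pow_le_pow_right (by omega) (by norm_num)
    · intro R hR hc
      -- the component of `q`
      obtain ⟨A, hA⟩ : ∃ A : Finset (ℤ × ℤ), A = R.filter (fun x => q ∈ R ∧
          Relation.ReflTransGen (fun x y => y ∈ R ∧ Adj x y) q x) := ⟨_, rfl⟩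
      have hmem : ∀ x, x ∈ A ↔ x ∈ R ∧ q ∈ R ∧
          Relation.ReflTransGen (fun x y => y ∈ R ∧ Adj x y) q x := by
        intro x
        rw [hA, Finset.mem_filter]
      have hAR : A ⊆ R := fun x hx => ((hmem x).1 hx).1
      -- paths from `q` stay in `A`
      have hstay : ∀ x, q ∈ R → Relation.ReflTransGen (fun x y => y ∈ R ∧ Adj x y) q x →
          Relation.ReflTransGen (fun x y => y ∈ A ∧ Adj x y) q x := by
        intro x hq hx
        induction hx with
        | refl => exact Relation.ReflTransGen.refl
        | tail h1 h2 ih' => exact ih'.tail ⟨(hmem _).2 ⟨h2.1, hq, h1.tail h2⟩, h2.2⟩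
      have hAc : A = ∅ ∨ (q ∈ A ∧ Conn A) := by
        by_cases hq : q ∈ R
        · right
          have hqA : q ∈ A := (hmem q).2 ⟨hq, hq, Relation.ReflTransGen.refl⟩
          exact ⟨hqA, a3_conn_of_root hqA fun w hw => hstay w hq ((hmem w).1 hw).2.2⟩
        · left
          exact Finset.eq_empty_of_forall_notMem fun x hx => hq ((hmem x).1 hx).2.1
      have hBc : CoverBy p (R \ A) := by
        intro x hx
        rw [Finset.mem_sdiff] at hx
        obtain ⟨q', hq', hq'R, hpath⟩ := hc x hx.1
        have hne : ¬ (q ∈ R ∧ Relation.ReflTransGen (fun x y => y ∈ R ∧ Adj x y) q q') := by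
          rintro ⟨h1, h2⟩
          exact hx.2 ((hmem x).2 ⟨hx.1, h1, h2.trans hpath⟩)
        have hq'A : q' ∉ A := fun h => hne ((hmem q').1 h).2
        have hq'p : q' ∈ p := by
          rcases List.mem_cons.1 hq' with h | h
          · exfalso
            rw [h] at hq'R
            exact hne ⟨hq'R, by rw [h]⟩
          · exact h
        refine ⟨q', hq'p, Finset.mem_sdiff.2 ⟨hq'R, hq'A⟩, ?_⟩
        clear hx
        induction hpath with
        | refl => exact Relation.ReflTransGen.refl
        | tail h1 h2 ih' =>
          refine ih'.tail ⟨Finset.mem_sdiff.2 ⟨h2.1, fun h => ?_⟩, h2.2⟩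
          -- the end is in the component of `q`, hence so is `q'`
          obtain ⟨_, h3, h4⟩ := (hmem _).1 h
          have h5 := (a3_rt_symm hq'R (h1.tail h2)).2
          exact hne ⟨h3, h4.trans h5⟩
      refine Finset.mem_biUnion.2 ⟨A.card, Finset.mem_range.2 (Nat.lt_succ_iff.2 ?_), ?_⟩
      · rw [← hR]
        exact Finset.card_le_card hAR
      · refine Finset.mem_image.2 ⟨(A, R \ A), Finset.mem_product.2 ⟨hG' _ A rfl hAc, ?_⟩, ?_⟩
        · refine hF' _ (R \ A) ?_ hBc
          rw [Finset.card_sdiff_of_subset hAR, hR]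
        · exact Finset.union_sdiff_of_subset hAR

end Pool.Agent.Lib.MP_104326_lc.KR
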