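import Pool.Agent.Lib.MP_104326_lc.Base
import Pool.Agent.Lib.PolyTime.BinNat

/-!
# KR: random sampling of polyominoes.  Definitions

Cells are pairs of natural numbers; a polyomino is represented by the list of its cells in
lexicographic order, translated so that the smallest coordinates are zero.  All functions here are
executable; they are the building blocks of the sampling algorithm.
-/

set_option autoImplicit false

namespace Pool.Agent.Lib.MP_104326_lc.KR

open Pool.Agent.Lib.PolyTime

/-- Cells with natural coordinates. -/
abbrev NC := ℕ × ℕ

/-- Two cells share an edge. -/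
def isAdj (p q : NC) : Bool :=
  (decide (p.1 = q.1) && (decide (p.2 = q.2 + 1) || decide (q.2 = p.2 + 1))) ||
  (decide (p.2 = q.2) && (decide (p.1 = q.1 + 1) || decide (q.1 = p.1 + 1)))

/-- Lexicographic order (first the column, then the row). -/
def ltc (p q : NC) : Prop := p.1 < q.1 ∨ (p.1 = q.1 ∧ p.2 < q.2)

/-- The cells of `L` that are in `X` or adjacent to a cell of `X`. -/
def grow (L X : List NC) : List NC :=
  L.filter (fun p => X.any (fun q => decide (p = q) || isAdj p q))

/-- The connected component of `c` in `L`. -/
def comp (L : List NC) (c : NC) : List NC :=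
  (grow L)^[L.length] (L.filter (fun p => decide (p = c)))

/-- `L` is nonempty and connected. -/
def isConn (L : List NC) : Bool :=
  !L.isEmpty && L.all (fun c => decide (comp L c = L))

/-- Some cell of `L` has first coordinate zero and some cell has second coordinate zero. -/
def isNorm (L : List NC) : Bool :=
  L.any (fun p => decide (p.1 = 0)) && L.any (fun p => decide (p.2 = 0))

/-- A polyomino: a connected, normalized list of cells in lexicographic order. -/
def IsPoly (L : List NC) : Prop :=
  L.Pairwise ltc ∧ isConn L = true ∧ isNorm L = true

/-- Part of `Z` outside `B`. -/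
def diff (Z B : List NC) : List NC := Z.filter (fun p => !(B.any (fun q => decide (p = q))))

/-- The cell removed next. -/
def pick (Z B : List NC) : Option NC :=
  if B = Z then Z.head? else (B.filter (fun p => (diff Z B).any (fun q => isAdj p q))).head?

/-- The (first) largest component of `L`. -/
def largest (L : List NC) : List NC :=
  L.foldl (fun best c => if best.length < (comp L c).length then comp L c else best) []

/-- One step of the search for a balanced split. -/
def stepB (Z B : List NC) : List NC :=
  if Z.length ≤ 4 * (diff Z B).length + 1 then B
  else match pick Z B with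
    | none => B
    | some b => largest (B.filter (fun p => !decide (p = b)))

/-- The second part of the canonical split of `Z`. -/
def splitB (Z : List NC) : List NC := (stepB Z)^[Z.length] Z

/-- Translation. -/
def shift (s : NC) (L : List NC) : List NC := L.map (fun p => (p.1 + s.1, p.2 + s.2))

/-- The cells of the square `[0, R) × [0, R)` in lexicographic order. -/
def grid (R : ℕ) : List NC := (List.range R).flatMap (fun x => (List.range R).map (fun y => (x, y)))

/-- The union of two lists of cells, inside the square of side `R`, in lexicographic order. -/
def union (R : ℕ) (A B : List NC) : List NC :=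
  (grid R).filter (fun p => A.any (fun q => decide (p = q)) || B.any (fun q => decide (p = q)))

/-- The union of `A + s` and `B + t` if these two sets are the canonical split of their union, and
this union is a polyomino with `n` cells; `m` is the size of the first part. -/
def glue (R n m : ℕ) (s t : NC) (A B : List NC) : Option (List NC) :=
  if n ≤ 8 * m ∧ 8 * m ≤ 7 * n ∧ (union R (shift s A) (shift t B)).length = n ∧
      isConn (union R (shift s A) (shift t B)) = true ∧
      isNorm (union R (shift s A) (shift t B)) = true ∧
      diff (union R (shift s A) (shift t B)) (splitB (union R (shift s A) (shift t B))) = shift s A ∧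
      splitB (union R (shift s A) (shift t B)) = shift t B then
    some (union R (shift s A) (shift t B))
  else none

/-- The parameters of a gluing are coded by a number `w` below `R ^ 5`. -/
def glueW (R n w : ℕ) (A B : List NC) : Option (List NC) :=
  glue R n (w % R) (w / R % R, w / R ^ 2 % R) (w / R ^ 3 % R, w / R ^ 4 % R) A B

/-- The polyominoes with `n` cells, as a set. -/
def polySet (n : ℕ) : Set (List NC) := {L | IsPoly L ∧ L.length = n}

/-! ### Weighted samples -/

/-- For every size, a weight and an object. -/
abbrev Arr (α : Type) := ℕ → ℕ × α

variable {α : Type}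

/-- The array at height zero: weight `2 ^ k` for the single cell. -/
def leafA (k : ℕ) (cell : α) : Arr α := fun n => if n = 1 then (2 ^ k, cell) else (0, cell)

/-- Glue two arrays of samples, with the random number `u`. -/
def glueA (G : ℕ → ℕ → α → α → Option α) (cell : α) (R u : ℕ) (x y : Arr α) : Arr α := fun n =>
  if n = 1 then (1, cell)
  else if n < R then
    match G n (u % R ^ 5) (x (u % R)).2 (y (n - u % R)).2 with
    | some Z => ((x (u % R)).1 * (y (n - u % R)).1, Z)
    | none => (0, cell)
  else (0, cell)

/-- Merge two arrays of samples, with the random number `u < 2 ^ B`. -/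
def mergeA (B u : ℕ) (x y : Arr α) : Arr α := fun n =>
  if u * ((x n).1 + (y n).1) < (y n).1 * 2 ^ B then ((x n).1 + (y n).1, (y n).2)
  else ((x n).1 + (y n).1, (x n).2)

/-- The operation that leads from height `h` to height `h + 1`: `D` blocks of one gluing and `k`
mergings, then only mergings. -/
def combA (G : ℕ → ℕ → α → α → Option α) (cell : α) (R k D B h u : ℕ) (x y : Arr α) : Arr α :=
  if h % (k + 1) = 0 ∧ h < D * (k + 1) then glueA G cell R u x y else mergeA B u x y

/-- The expectation of `F` of the sample array of height `h`. -/
noncomputable def expA (G : ℕ → ℕ → α → α → Option α) (cell : α) (R k D B : ℕ) :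
    ℕ → (Arr α → ℝ) → ℝ
  | 0, F => F (leafA k cell)
  | h + 1, F => (∑ u ∈ Finset.range (2 ^ B), expA G cell R k D B h (fun x =>
      expA G cell R k D B h (fun y => F (combA G cell R k D B h u x y)))) / 2 ^ B

/-- The sample array of height `h` computed from the bits `r` (`B * (2 ^ h - 1)` bits). -/
def runA (G : ℕ → ℕ → α → α → Option α) (cell : α) (R k D B : ℕ) : ℕ → List Bool → Arr α
  | 0, _ => leafA k cell
  | h + 1, r => combA G cell R k D B h (msb (r.drop (2 * (B * (2 ^ h - 1)))))
      (runA G cell R k D B h (r.take (B * (2 ^ h - 1))))
      (runA G cell R k D B h ((r.drop (B * (2 ^ h - 1))).take (B * (2 ^ h - 1))))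

/-- The average of `F` over all strings of `L` bits. -/
noncomputable def avgB (L : ℕ) (F : List Bool → ℝ) : ℝ :=
  (∑ v : Fin L → Bool, F (List.ofFn v)) / 2 ^ L

/-- The factor between the expected weight and the number of objects. -/
noncomputable def scal (R k e n : ℕ) : ℝ :=
  (2 ^ (2 * k) / (R : ℝ) ^ 5) ^ n * ((R : ℝ) ^ 5 / 2 ^ k) * 2 ^ e

end Pool.Agent.Lib.MP_104326_lc.KR
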