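import Pool.Agent.Lib.MP_104326_lc.KR.Par
import Pool.Agent.Lib.MP_104326_lc.KR.D3
import Pool.Agent.Lib.MP_104326_lc.KC.D0b
import Pool.Agent.Lib.MP_33f9c4_lc.Pad

/-!
# KR, module E1a: the machine for Klarner's constant
-/

set_option autoImplicit false

namespace Pool.Agent.Lib.MP_104326_lc.KR

open Pool.Agent.Lib.PolyTime MP_33f9c4_lc

section PT
variable {β : Type} [Enc β]

private theorem PT_kk {ρ : β → ℕ} (h : PT ρ) : PT (fun b => kk (ρ b)) := (h.mulConst 10).addConst 3

private theorem PT_dd {ρ : β → ℕ} (h : PT ρ) : PT (fun b => dd (ρ b)) := h.mulConst 6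

private theorem PT_hh {ρ e : β → ℕ} (h : PT ρ) (he : PT e) : PT (fun b => hh (ρ b) (e b)) :=
  PT.add (PT.mul (PT_dd h) (PT_kk h).succ) he

private theorem PT_bb {ρ R e : β → ℕ} (h : PT ρ) (hR : PT R) (he : PT e) : PT (fun b => bb (ρ b) (R b) (e b)) :=
  (PT.add (PT.add (PT.mul (PT.add (PT_hh h he) (PT_kk h)) (hR.mulConst 2)) (PT_hh h he)) he).addConst 6

private theorem PT_arr {ρ R e : β → ℕ} {r : β → List Bool} (h : PT ρ) (hR : PT R) (he : PT e) (hr : PT r) :
    PT (fun b => arr (ρ b) (R b) (e b) (r b)) :=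
  PT_runL hR (PT_kk h) (PT_dd h) (PT_bb h hR he) hr

private theorem PT_sexp {ρ e p : β → ℕ} (h : PT ρ) (he : PT e) (hp : PT p) :
    PT (fun b => sexp (ρ b) (e b) (p b)) :=
  PT.sub (PT.add (PT.mul ((h.mulConst 15).addConst 6) hp) he) ((h.mulConst 5).addConst 3)

private theorem PT_goodY {ρ e K D y : β → ℕ} {A : β → LArr} (h : PT ρ) (he : PT e) (hK : PT K) (hD : PT D)
    (hA : PT A) (hy : PT y) : PT (fun b => goodY (ρ b) (e b) (K b) (D b) (A b) (y b)) := by
  refine PT.any ((hK.mulConst 4).addConst 1).range ?_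
  refine PT.and (PT.le (hK.comp PT.fst) PT.snd) ?_
  have h1 : PT (fun x : β × ℕ => (⟨(y x.1 + 1) ^ x.2⟩ : BN)) :=
    PT_bnPow (f := fun x : β × ℕ => (⟨y x.1 + 1⟩ : BN)) (PT.toBN (hy.comp PT.fst).succ) PT.snd
  have h2 : PT (fun x : β × ℕ => (⟨D x.1 ^ x.2⟩ : BN)) :=
    PT_bnPow (f := fun x : β × ℕ => (⟨D x.1⟩ : BN)) (PT.toBN (hD.comp PT.fst)) PT.snd
  have h3 := PT.bnTwoPow (PT_sexp (h.comp PT.fst) (he.comp PT.fst) (PT.snd (α := β) (β := ℕ)))
  exact PT.bnLe (PT.bnMul h1 h3) (PT.bnMul (PT.bnMul (PT.bnConst 2) h2) (PT_at (hA.comp PT.fst) PT.snd).fst')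

private theorem PT_outLam (M1 Lc : ℕ) {n M : β → ℕ} {r : β → List Bool} (hn : PT n) (hr : PT r) (hM : PT M) :
    PT (fun b => outLam M1 Lc (n b) (r b) (M b)) := by
  have h10 : PT (fun b => (⟨10 ^ (n b + 2)⟩ : BN)) :=
    PT_bnPow (f := fun _ : β => (⟨10⟩ : BN)) (PT.bnConst 10) (hn.addConst 2)
  have hD : PT (fun b => min (10 ^ (n b + 2)) (M b)) := PT.bnCap h10 hM
  have hρ : PT (fun b => (M1 + 15) * n b) := hn.mulConst (M1 + 15)
  have hR : PT (fun b => min (2 ^ ((M1 + 15) * n b)) (M b)) := PT.bnCap (PT.bnTwoPow hρ) hM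
  have he : PT (fun b => (M1 + 15) * n b + n b + 5) := (PT.add hρ hn).addConst 5
  have hK : PT (fun b => M1 * (n b + 1) * min (10 ^ (n b + 2)) (M b)) :=
    PT.mul ((hn.addConst 1).mulConst M1) hD
  have hA := PT_arr hρ hR he hr
  refine PT.addConst (PT.length (PT.filter (hD.mulConst Lc).range ?_)) 500
  exact PT_goodY (hρ.comp PT.fst) (he.comp PT.fst) (hK.comp PT.fst) (hD.comp PT.fst) (hA.comp PT.fst) PT.snd

end PT

private theorem idxOf_input (n : ℕ) (r : List Bool) : (List.replicate n true ++ false :: r).idxOf false = n := by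
  induction n with
  | zero => simp
  | succ n ih =>
    rw [List.replicate_succ, List.cons_append, List.idxOf_cons_ne _ (by decide), ih]

private theorem drop_input (n : ℕ) (r : List Bool) : (List.replicate n true ++ false :: r).drop (n + 1) = r := by
  induction n with
  | zero => simp
  | succ n ih =>
    rw [List.replicate_succ, List.cons_append, List.drop_succ_cons, ih]

theorem machine_lam (M1 Lc : ℕ) : ∃ (U : Machine) (Q : Polynomial ℕ), ∀ (n : ℕ) (r : List Bool),
    Outputs U (List.replicate n true ++ false :: r)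
      (Nat.bits (outLam M1 Lc n r (2 ^ ((M1 + 15) * n ^ 2))))
      (Q.eval (n + 1 + r.length + 2 ^ ((M1 + 15) * n ^ 2))) := by
  have hi : PT (fun x : List Bool => x.idxOf false) := PT.idxOf PT.id (PT.const false)
  have he : PT (fun x : List Bool => (M1 + 15) * (x.idxOf false) ^ 2) := by
    refine ((PT.mul hi hi).mulConst (M1 + 15)).congr fun x => ?_
    ring
  have hi' : PT (fun y : List Bool × ℕ => y.1.idxOf false) := hi.comp PT.fst
  have hF : PT (fun y : List Bool × ℕ => Nat.bits (outLam M1 Lc (y.1.idxOf false)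
      (y.1.drop (y.1.idxOf false + 1)) y.2)) :=
    PT.bits (PT.toBN (PT_outLam M1 Lc hi' (PT.drop (hi'.addConst 1) PT.fst) PT.snd))
  obtain ⟨U, Q, h⟩ := Qt.exists_pad_machine he hF
  refine ⟨U, Q, fun n r => ?_⟩
  have h1 := h (List.replicate n true ++ false :: r)
  simp only [idxOf_input, drop_input] at h1
  have h2 : (List.replicate n true ++ false :: r).length = n + 1 + r.length := by
    simp
    omega
  rw [h2] at h1
  exact h1

end Pool.Agent.Lib.MP_104326_lc.KR
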