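import Pool.Agent.Lib.MP_104326_lc.KR.Par
import Pool.Agent.Lib.MP_104326_lc.KR.D3
import Pool.Agent.Lib.MP_104326_lc.KC.D0b
import Pool.Agent.Lib.MP_33f9c4_lc.Pad

/-!
# KR, module E1b: the machine for the number `t n` (helper61)
-/

set_option autoImplicit false

namespace Pool.Agent.Lib.MP_104326_lc.KR

open Pool.Agent.Lib.PolyTime MP_33f9c4_lc

section PT
variable {β : Type} [Enc β]

private theorem PT_kk {ρ : β → ℕ} (h : PT ρ) : PT (fun b => kk (ρ b)) := (h.mulConst 10).addConst 3

private theorem PT_dd {ρ : β → ℕ} (h : PT ρ) : PT (fun b => dd (ρ b)) := h.mulConst 6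

private theorem PT_hh {ρ e : β → ℕ} (h : PT ρ) (he : PT e) : PT (fun b => hh (ρ b) (e b)) :=
  PT.add (PT.mul (PT_dd h) (PT_kk h).succ) he

private theorem PT_bb {ρ R e : β → ℕ} (h : PT ρ) (hR : PT R) (he : PT e) : PT (fun b => bb (ρ b) (R b) (e b)) :=
  (PT.add (PT.add (PT.mul (PT.add (PT_hh h he) (PT_kk h)) (hR.mulConst 2)) (PT_hh h he)) he).addConst 6

private theorem PT_arr {ρ R e : β → ℕ} {r : β → List Bool} (h : PT ρ) (hR : PT R) (he : PT e) (hr : PT r) :
    PT (fun b => arr (ρ b) (R b) (e b) (r b)) :=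
  PT_runL hR (PT_kk h) (PT_dd h) (PT_bb h hR he) hr

private theorem PT_sexp {ρ e p : β → ℕ} (h : PT ρ) (he : PT e) (hp : PT p) :
    PT (fun b => sexp (ρ b) (e b) (p b)) :=
  PT.sub (PT.add (PT.mul ((h.mulConst 15).addConst 6) hp) he) ((h.mulConst 5).addConst 3)

private theorem PT_outCnt {n j M : β → ℕ} {r : β → List Bool} (hn : PT n) (hj : PT j) (hr : PT r) (hM : PT M) :
    PT (fun b => (⟨outCnt (n b) (j b) (r b) (M b)⟩ : BN)) := by
  have hρ : PT (fun b => Nat.size (n b)) := PT.bnSize (f := fun b => (⟨n b⟩ : BN)) (PT.toBN hn)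
  have hR : PT (fun b => min (2 ^ Nat.size (n b)) (M b)) := PT.bnCap (PT.bnTwoPow hρ) hM
  have he : PT (fun b => 3 * j b + 4) := (hj.mulConst 3).addConst 4
  have hA := PT_arr hρ hR he hr
  have hs := PT.bnTwoPow (PT_sexp hρ he hn)
  exact PT.bnDiv (PT.bnAdd (PT.bnMul (PT.bnConst 2) (PT_at hA hn).fst') hs) (PT.bnMul (PT.bnConst 2) hs)

end PT

private theorem idxOf_input (n : ℕ) (r : List Bool) : (List.replicate n true ++ false :: r).idxOf false = n := by
  induction n with
  | zero => simp
  | succ n ih =>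
    rw [List.replicate_succ, List.cons_append, List.idxOf_cons_ne _ (by decide), ih]

private theorem drop_input (n : ℕ) (r : List Bool) : (List.replicate n true ++ false :: r).drop (n + 1) = r := by
  induction n with
  | zero => simp
  | succ n ih =>
    rw [List.replicate_succ, List.cons_append, List.drop_succ_cons, ih]

theorem machine_cnt : ∃ (U : Machine) (Q : Polynomial ℕ), ∀ (n j : ℕ) (r : List Bool),
    Outputs U (List.replicate n true ++ false :: (List.replicate j true ++ false :: r))
      (Nat.bits (outCnt n j r (2 ^ Nat.size n)))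
      (Q.eval (n + 1 + (j + 1 + r.length) + 2 ^ Nat.size n)) := by
  have hi : PT (fun x : List Bool => x.idxOf false) := PT.idxOf PT.id (PT.const false)
  have he : PT (fun x : List Bool => Nat.size (x.idxOf false)) :=
    PT.bnSize (f := fun x : List Bool => (⟨x.idxOf false⟩ : BN)) (PT.toBN hi)
  have hi' : PT (fun y : List Bool × ℕ => y.1.idxOf false) := hi.comp PT.fst
  have hs' : PT (fun y : List Bool × ℕ => y.1.drop (y.1.idxOf false + 1)) :=
    PT.drop (hi'.addConst 1) PT.fst
  have hj' : PT (fun y : List Bool × ℕ => (y.1.drop (y.1.idxOf false + 1)).idxOf false) := hi.comp hs'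
  have hr' : PT (fun y : List Bool × ℕ => (y.1.drop (y.1.idxOf false + 1)).drop
      ((y.1.drop (y.1.idxOf false + 1)).idxOf false + 1)) := PT.drop (hj'.addConst 1) hs'
  have hF : PT (fun y : List Bool × ℕ => Nat.bits (outCnt (y.1.idxOf false)
      ((y.1.drop (y.1.idxOf false + 1)).idxOf false)
      ((y.1.drop (y.1.idxOf false + 1)).drop ((y.1.drop (y.1.idxOf false + 1)).idxOf false + 1)) y.2)) :=
    PT.bits (PT_outCnt hi' hj' hr' PT.snd)
  obtain ⟨U, Q, h⟩ := Qt.exists_pad_machine he hF
  refine ⟨U, Q, fun n j r => ?_⟩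
  have h1 := h (List.replicate n true ++ false :: (List.replicate j true ++ false :: r))
  simp only [idxOf_input, drop_input] at h1
  have h2 : (List.replicate n true ++ false :: (List.replicate j true ++ false :: r)).length =
      n + 1 + (j + 1 + r.length) := by
    simp
    omega
  rw [h2] at h1
  exact h1

end Pool.Agent.Lib.MP_104326_lc.KR
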