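import Pool.Agent.Lib.MP_104326_lc.KR.Par

/-! # KR, E2b: the number of bits and the running time for the counting problem -/

set_option autoImplicit false

namespace Pool.Agent.Lib.MP_104326_lc.KR

open Pool.Agent.Lib.PolyTime

namespace E2b

theorem lt_two_pow_self' (m : ℕ) : m ≤ 2 ^ m := Nat.lt_two_pow_self.le

/-- A polynomial with natural coefficients is bounded by a monomial. -/
theorem eval_le (Q : Polynomial ℕ) {m : ℕ} (hm : 1 ≤ m) :
    Q.eval m ≤ Q.eval 1 * m ^ Q.natDegree := by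
  rw [Polynomial.eval_eq_sum_range, Polynomial.eval_eq_sum_range, Finset.sum_mul]
  refine Finset.sum_le_sum fun i hi => ?_
  rw [one_pow, mul_one]
  exact Nat.mul_le_mul_left _ (Nat.pow_le_pow_right hm (by
    have := Finset.mem_range.1 hi; omega))

theorem evalMonoQ (Q : Polynomial ℕ) {m m' : ℕ} (h : m ≤ m') : Q.eval m ≤ Q.eval m' := by
  rw [Polynomial.eval_eq_sum_range, Polynomial.eval_eq_sum_range]
  exact Finset.sum_le_sum fun i _ => Nat.mul_le_mul_left _ (Nat.pow_le_pow_left h _)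

theorem nbits_le (ρ e : ℕ) : nbits ρ e ≤ 2 ^ (2 * hh ρ e + kk ρ + ρ + e + 7) := by
  unfold nbits bb
  have h1 : (hh ρ e + kk ρ) * (2 * 2 ^ ρ) + hh ρ e + e + 6 ≤
      2 ^ (hh ρ e + kk ρ + ρ + e + 7) := by
    have ha : (hh ρ e + kk ρ) * (2 * 2 ^ ρ) ≤ 2 ^ (hh ρ e + kk ρ + ρ + e + 6) := by
      calc (hh ρ e + kk ρ) * (2 * 2 ^ ρ) ≤ 2 ^ (hh ρ e + kk ρ) * (2 * 2 ^ ρ) :=
            Nat.mul_le_mul_right _ (lt_two_pow_self' _)
        _ = 2 ^ (hh ρ e + kk ρ + ρ + 1) := by ring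
        _ ≤ _ := Nat.pow_le_pow_right (by norm_num) (by omega)
    have hb : hh ρ e + e + 6 ≤ 2 ^ (hh ρ e + kk ρ + ρ + e + 6) :=
      (lt_two_pow_self' _).trans (Nat.pow_le_pow_right (by norm_num) (by omega))
    calc (hh ρ e + kk ρ) * (2 * 2 ^ ρ) + hh ρ e + e + 6
        = (hh ρ e + kk ρ) * (2 * 2 ^ ρ) + (hh ρ e + e + 6) := by ring
      _ ≤ 2 ^ (hh ρ e + kk ρ + ρ + e + 6) + 2 ^ (hh ρ e + kk ρ + ρ + e + 6) :=
          Nat.add_le_add ha hb
      _ = 2 ^ (hh ρ e + kk ρ + ρ + e + 7) := by ring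
  calc _ ≤ 2 ^ (hh ρ e + kk ρ + ρ + e + 7) * 2 ^ hh ρ e :=
        Nat.mul_le_mul h1 (Nat.sub_le _ _)
    _ = _ := by ring

end E2b

open E2b

theorem bound_cnt (Q : Polynomial ℕ) : ∃ c : ℕ, ∀ n j : ℕ, 1 ≤ n →
    nbits (Nat.size n) (3 * j + 4) ≤ 2 ^ (c * (Nat.log 2 n ^ 2 + j + 1)) ∧
    Q.eval (n + 1 + (j + 1 + nbits (Nat.size n) (3 * j + 4)) + 2 ^ Nat.size n) ≤
      2 ^ (c * (Nat.log 2 n ^ 2 + j + 1)) := by
  refine ⟨500 + (Q.eval 1 + 500 * Q.natDegree), fun n j hn => ?_⟩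
  have hsz : Nat.size n ≤ Nat.log 2 n + 1 := by
    rw [Nat.size_le]
    exact Nat.lt_pow_succ_log_self (by norm_num) n
  set ρ := Nat.size n with hρ
  set L := Nat.log 2 n with hL
  set T := L ^ 2 + j + 1 with hT
  have hLL : L ≤ L ^ 2 := by nlinarith [Nat.zero_le L, Nat.le_self_pow (n := 2) (by norm_num) L]
  have hρT : ρ ≤ 2 * T := by omega
  have hρ2 : ρ * ρ ≤ 2 * L ^ 2 + 2 := by
    have h1 : ρ * ρ ≤ (L + 1) * (L + 1) := Nat.mul_le_mul hsz hsz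
    have h2 : (L + 1) * (L + 1) = L ^ 2 + 2 * L + 1 := by ring
    have h3 : 2 * L ≤ L ^ 2 + 1 := by nlinarith [sq_nonneg ((L : ℤ) - 1), two_mul_le_add_sq L 1]
    omega
  have hhh : hh ρ (3 * j + 4) = 60 * (ρ * ρ) + 24 * ρ + (3 * j + 4) := by
    unfold hh dd kk; ring
  have hkk : kk ρ = 10 * ρ + 3 := rfl
  have hexp : 2 * hh ρ (3 * j + 4) + kk ρ + ρ + (3 * j + 4) + 7 ≤ 498 * T := by
    rw [hhh, hkk]; omega
  have hnb : nbits ρ (3 * j + 4) ≤ 2 ^ (498 * T) :=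
    (nbits_le _ _).trans (Nat.pow_le_pow_right (by norm_num) hexp)
  have hT1 : 1 ≤ T := by omega
  refine ⟨hnb.trans (Nat.pow_le_pow_right (by norm_num) (Nat.mul_le_mul_right _ (by omega))), ?_⟩
  have hn' : n < 2 ^ ρ := Nat.lt_size_self n
  have h2ρ : 2 ^ ρ ≤ 2 ^ (498 * T) := Nat.pow_le_pow_right (by norm_num) (by omega)
  have hj : j + 1 ≤ 2 ^ (498 * T) :=
    (lt_two_pow_self' _).trans (Nat.pow_le_pow_right (by norm_num) (by omega))
  have harg : n + 1 + (j + 1 + nbits ρ (3 * j + 4)) + 2 ^ ρ ≤ 2 ^ (500 * T) := by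
    calc n + 1 + (j + 1 + nbits ρ (3 * j + 4)) + 2 ^ ρ
        = (n + 1) + (j + 1) + nbits ρ (3 * j + 4) + 2 ^ ρ := by ring
      _ ≤ 2 ^ (498 * T) + 2 ^ (498 * T) + 2 ^ (498 * T) + 2 ^ (498 * T) := by
          gcongr
          exact (Nat.succ_le_of_lt hn').trans h2ρ
      _ = 2 ^ (498 * T + 2) := by rw [pow_add]; omega
      _ ≤ _ := Nat.pow_le_pow_right (by norm_num) (by omega)
  calc Q.eval _ ≤ Q.eval (2 ^ (500 * T)) := evalMonoQ Q harg
    _ ≤ Q.eval 1 * (2 ^ (500 * T)) ^ Q.natDegree := eval_le Q Nat.one_le_two_pow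
    _ ≤ 2 ^ (Q.eval 1) * (2 ^ (500 * T)) ^ Q.natDegree :=
        Nat.mul_le_mul_right _ (lt_two_pow_self' _)
    _ = 2 ^ (Q.eval 1 + 500 * T * Q.natDegree) := by rw [← pow_mul, ← pow_add]
    _ ≤ _ := by
        refine Nat.pow_le_pow_right (by norm_num) ?_
        have h1 : Q.eval 1 ≤ Q.eval 1 * T := Nat.le_mul_of_pos_right _ hT1
        calc Q.eval 1 + 500 * T * Q.natDegree ≤ Q.eval 1 * T + 500 * T * Q.natDegree :=
              Nat.add_le_add_right h1 _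
          _ ≤ (500 + (Q.eval 1 + 500 * Q.natDegree)) * T := by
              have : (500 + (Q.eval 1 + 500 * Q.natDegree)) * T =
                500 * T + (Q.eval 1 * T + 500 * T * Q.natDegree) := by ring
              omega

end Pool.Agent.Lib.MP_104326_lc.KR
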