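import Pool.Agent.Lib.MP_104326_lc.KR.E1b
import Pool.Agent.Lib.MP_104326_lc.KR.E2b
import Pool.Agent.Lib.MP_104326_lc.KR.E3b
import Pool.Agent.Lib.MP_104326_lc.KC.F1

/-! # KR: approximate counting of polyominoes, assembly -/

set_option autoImplicit false

namespace Pool.Agent.Lib.MP_104326_lc.KR

open Pool.Agent.Lib.PolyTime MP_33f9c4_lc

theorem mainCnt :
    ∃ (U : Machine) (c : ℕ), ∀ n j : ℕ, 1 ≤ n →
      nbits (Nat.size n) (3 * j + 4) ≤ 2 ^ (c * (Nat.log 2 n ^ 2 + j + 1)) ∧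
      ∃ a : (Fin (nbits (Nat.size n) (3 * j + 4)) → Bool) → ℕ,
        (∀ r : Fin (nbits (Nat.size n) (3 * j + 4)) → Bool, Outputs U
          (List.replicate n true ++ false :: (List.replicate j true ++ false :: List.ofFn r))
          (Nat.bits (a r)) (2 ^ (c * (Nat.log 2 n ^ 2 + j + 1)))) ∧
        2 ^ j * (Finset.univ.filter (fun r : Fin (nbits (Nat.size n) (3 * j + 4)) → Bool =>
          ¬ (|(a r : ℝ) - t n| ≤ (t n : ℝ) / 2 ^ j))).card ≤ 2 ^ nbits (Nat.size n) (3 * j + 4) := by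
  obtain ⟨U, Q, hU⟩ := machine_cnt
  obtain ⟨c, hc⟩ := bound_cnt Q
  refine ⟨U, c, fun n j hn => ?_⟩
  obtain ⟨hc1, hc2⟩ := hc n j hn
  refine ⟨hc1, fun r => outCnt n j (List.ofFn r) (2 ^ Nat.size n), fun r => ?_, ?_⟩
  · have h4 := hU n j (List.ofFn r)
    rw [List.length_ofFn] at h4
    exact outputs_mono h4 hc2
  · exact good_cnt hn le_rfl

end Pool.Agent.Lib.MP_104326_lc.KR
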