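import Pool.Agent.Lib.MP_104326_lc.KR.B
import Pool.Agent.Lib.MP_104326_lc.KR.E1a
import Pool.Agent.Lib.MP_104326_lc.KR.E2a
import Pool.Agent.Lib.MP_104326_lc.KR.E3a
import Pool.Agent.Lib.MP_104326_lc.KC.F1

/-! # KR: Klarner's constant, assembly -/

set_option autoImplicit false

namespace Pool.Agent.Lib.MP_104326_lc.KR

open Pool.Agent.Lib.PolyTime MP_33f9c4_lc Filter Topology

theorem mainLam :
    ∃ lam : ℝ, Tendsto (fun n : ℕ => (t n : ℝ) ^ ((1 : ℝ) / n)) atTop (𝓝 lam) ∧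
    ∃ (U : Machine) (c M : ℕ), ∀ n : ℕ, 1 ≤ n →
      nbits (M * n) (M * n + n + 5) ≤ 2 ^ (c * n ^ 2) ∧
      ∃ a : (Fin (nbits (M * n) (M * n + n + 5)) → Bool) → ℕ,
        (∀ r : Fin (nbits (M * n) (M * n + n + 5)) → Bool,
          Outputs U (List.replicate n true ++ false :: List.ofFn r)
          (Nat.bits (a r)) (2 ^ (c * n ^ 2))) ∧
        2 ^ n * (Finset.univ.filter (fun r : Fin (nbits (M * n) (M * n + n + 5)) → Bool =>
          ¬ ((10 : ℝ) ^ (-(n : ℤ)) < |(a r : ℝ) / 10 ^ (n + 2) - lam| ∧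
            |(a r : ℝ) / 10 ^ (n + 2) - lam| < (10 : ℝ) ^ (-(n : ℤ) + 1)))).card ≤
          2 ^ nbits (M * n) (M * n + n + 5) := by
  obtain ⟨lam, h1, hlim, h2, h3⟩ := growth (f := t) t_pos
    (fun _ _ ha hb => t_mul_le ha hb) (fun _ hn => t_split hn)
  obtain ⟨Lc, M1, hM1, hap⟩ := approxR (f := t) h1 h2 h3 t_pos
  obtain ⟨U, Q, hU⟩ := machine_lam M1 Lc
  obtain ⟨c, hc⟩ := bound_lam M1 Q
  refine ⟨lam, hlim, U, c, M1 + 15, fun n hn => ?_⟩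
  obtain ⟨hc1, hc2⟩ := hc n hn
  have hM : 2 ^ ((M1 + 15) * n) ≤ 2 ^ ((M1 + 15) * n ^ 2) := by
    refine Nat.pow_le_pow_right (by norm_num) (Nat.mul_le_mul_left _ ?_)
    nlinarith
  have hM' : 10 ^ (n + 2) ≤ 2 ^ ((M1 + 15) * n ^ 2) := by
    calc 10 ^ (n + 2) ≤ 16 ^ (n + 2) := Nat.pow_le_pow_left (by norm_num) _
      _ = 2 ^ (4 * (n + 2)) := by rw [pow_mul]; norm_num
      _ ≤ 2 ^ ((M1 + 15) * n ^ 2) := by
        refine Nat.pow_le_pow_right (by norm_num) ?_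
        nlinarith [Nat.zero_le (M1 * n ^ 2)]
  refine ⟨hc1, fun r => outLam M1 Lc n (List.ofFn r) (2 ^ ((M1 + 15) * n ^ 2)), fun r => ?_, ?_⟩
  · have h4 := hU n (List.ofFn r)
    rw [List.length_ofFn] at h4
    exact outputs_mono h4 hc2
  · exact good_lam hM1 hap hn hM hM'

end Pool.Agent.Lib.MP_104326_lc.KR
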