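import Pool.Agent.Lib.MP_104326_lc.KR.D2

/-! # KR: the parameters and the output functions -/

set_option autoImplicit false

namespace Pool.Agent.Lib.MP_104326_lc.KR

open Pool.Agent.Lib.PolyTime

/-- Mergings per block. -/
def kk (ρ : ℕ) : ℕ := 10 * ρ + 3

/-- Number of blocks. -/
def dd (ρ : ℕ) : ℕ := 6 * ρ

/-- The height. -/
def hh (ρ e : ℕ) : ℕ := dd ρ * (kk ρ + 1) + e

/-- Number of random bits of one operation. -/
def bb (ρ R e : ℕ) : ℕ := (hh ρ e + kk ρ) * (2 * R) + hh ρ e + e + 6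

/-- Number of random bits. -/
def nbits (ρ e : ℕ) : ℕ := bb ρ (2 ^ ρ) e * (2 ^ hh ρ e - 1)

/-- The logarithm of `scal (2 ^ ρ) (kk ρ) e p`. -/
def sexp (ρ e p : ℕ) : ℕ := (15 * ρ + 6) * p + e - (5 * ρ + 3)

/-- The sample array. -/
def arr (ρ R e : ℕ) (r : List Bool) : LArr := runL R (kk ρ) (dd ρ) (bb ρ R e) r

/-- `(y + 1) / D ≤ (2 W_p / 2 ^ (sexp p)) ^ (1 / p)` for some `p` between `K` and `4 K`. -/
def goodY (ρ e K D : ℕ) (A : LArr) (y : ℕ) : Bool :=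
  (List.range (4 * K + 1)).any (fun p => decide (K ≤ p) &&
    decide ((y + 1) ^ p * 2 ^ sexp ρ e p ≤ 2 * D ^ p * (LArr.at A p).1.val))

/-- The approximation of Klarner's constant, times `10 ^ (n + 2)`. -/
def outLam (M1 Lc n : ℕ) (r : List Bool) (M : ℕ) : ℕ :=
  ((List.range (Lc * min (10 ^ (n + 2)) M)).filter
    (goodY ((M1 + 15) * n) ((M1 + 15) * n + n + 5) (M1 * (n + 1) * min (10 ^ (n + 2)) M)
      (min (10 ^ (n + 2)) M)
      (arr ((M1 + 15) * n) (min (2 ^ ((M1 + 15) * n)) M) ((M1 + 15) * n + n + 5) r))).length + 500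

/-- The approximation of `t n`. -/
def outCnt (n j : ℕ) (r : List Bool) (M : ℕ) : ℕ :=
  (2 * (LArr.at (arr (Nat.size n) (min (2 ^ Nat.size n) M) (3 * j + 4) r) n).1.val +
    2 ^ sexp (Nat.size n) (3 * j + 4) n) / (2 * 2 ^ sexp (Nat.size n) (3 * j + 4) n)

end Pool.Agent.Lib.MP_104326_lc.KR
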